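import Mathlib

set_option autoImplicit false
open Matrix

namespace Pool.Agent.Lib.MP_b3e290_gt

noncomputable section

abbrev M2 := Matrix (Fin 2) (Fin 2) ℂ

/-- hermitian matrix of a vector -/
def herm (v : Fin 4 → ℝ) : M2 :=
  !![((v 0 + v 3 : ℝ) : ℂ), (v 1 : ℂ) + (v 2 : ℂ) * Complex.I;
     (v 1 : ℂ) - (v 2 : ℂ) * Complex.I, ((v 0 - v 3 : ℝ) : ℂ)]

/-- vector of a (hermitian) matrix -/
def hc (W : M2) : Fin 4 → ℝ :=
  ![((W 0 0).re + (W 1 1).re) / 2, (W 0 1).re, (W 0 1).im, ((W 0 0).re - (W 1 1).re) / 2]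

lemma herm_hc (W : M2) (hW : Wᴴ = W) : herm (hc W) = W := by
  have h00 : (W 0 0).im = 0 := by
    have := congrFun (congrFun hW 0) 0
    rw [Matrix.conjTranspose_apply] at this
    have := congrArg Complex.im this
    simp at this
    linarith
  have h11 : (W 1 1).im = 0 := by
    have := congrFun (congrFun hW 1) 1
    rw [Matrix.conjTranspose_apply] at this
    have := congrArg Complex.im this
    simp at this
    linarith
  have h10 : W 1 0 = star (W 0 1) := by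
    have := congrFun (congrFun hW 1) 0
    rw [Matrix.conjTranspose_apply] at this
    exact this.symm
  ext i j
  fin_cases i <;> fin_cases j
  · simp [herm, hc]
    apply Complex.ext <;> simp [h00]
    ring
  · simp [herm, hc]
  · simp [herm, hc, h10]
    apply Complex.ext <;> simp
  · simp [herm, hc]
    apply Complex.ext <;> simp [h11]
    ring

lemma herm_conjTranspose (v : Fin 4 → ℝ) : (herm v)ᴴ = herm v := by
  ext i j
  fin_cases i <;> fin_cases j <;> apply Complex.ext <;> simp [herm, Matrix.conjTranspose_apply]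

lemma hc_herm (v : Fin 4 → ℝ) : hc (herm v) = v := by
  ext i
  fin_cases i <;> simp [herm, hc]

lemma herm_inj {u v : Fin 4 → ℝ} (h : herm u = herm v) : u = v := by
  rw [← hc_herm u, h, hc_herm]

lemma herm_add (u v : Fin 4 → ℝ) : herm (u + v) = herm u + herm v := by
  ext i j
  fin_cases i <;> fin_cases j <;> simp [herm] <;> ring

lemma herm_smul (c : ℝ) (v : Fin 4 → ℝ) : herm (c • v) = (c : ℂ) • herm v := by
  ext i j
  fin_cases i <;> fin_cases j <;> simp [herm] <;> ring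

lemma hc_add (U V : M2) : hc (U + V) = hc U + hc V := by
  ext i
  fin_cases i <;> simp [hc] <;> ring

lemma hc_smul (c : ℝ) (U : M2) : hc ((c : ℂ) • U) = c • hc U := by
  ext i
  fin_cases i <;> simp [hc] <;> ring

/-- the action of a complex matrix on Minkowski space, as a linear map -/
def Phil (x : M2) : (Fin 4 → ℝ) →ₗ[ℝ] (Fin 4 → ℝ) where
  toFun v := hc (x * herm v * xᴴ)
  map_add' u v := by rw [herm_add, mul_add, add_mul, hc_add]
  map_smul' c v := by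
    rw [herm_smul, Matrix.mul_smul, Matrix.smul_mul, hc_smul]; rfl

/-- the action of a complex matrix on Minkowski space, as a matrix -/
def Phi (x : M2) : Matrix (Fin 4) (Fin 4) ℝ := LinearMap.toMatrix' (Phil x)

lemma Phi_mulVec (x : M2) (v : Fin 4 → ℝ) : Phi x *ᵥ v = hc (x * herm v * xᴴ) := by
  unfold Phi
  rw [LinearMap.toMatrix'_mulVec]
  rfl

lemma herm_Phi (x : M2) (v : Fin 4 → ℝ) : herm (Phi x *ᵥ v) = x * herm v * xᴴ := by
  rw [Phi_mulVec]
  apply herm_hc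
  rw [Matrix.conjTranspose_mul, Matrix.conjTranspose_mul, Matrix.conjTranspose_conjTranspose,
    herm_conjTranspose, Matrix.mul_assoc]

lemma mulVec_ext {A B : Matrix (Fin 4) (Fin 4) ℝ} (h : ∀ v, A *ᵥ v = B *ᵥ v) : A = B := by
  apply Matrix.toLin'.injective
  ext1 v
  ext1
  simp [h]

lemma Phi_mul (x y : M2) : Phi (x * y) = Phi x * Phi y := by
  apply mulVec_ext
  intro v
  apply herm_inj
  rw [herm_Phi, ← Matrix.mulVec_mulVec, herm_Phi, herm_Phi, Matrix.conjTranspose_mul]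
  simp only [Matrix.mul_assoc]

lemma Phi_one : Phi 1 = 1 := by
  apply mulVec_ext
  intro v
  apply herm_inj
  rw [herm_Phi]
  simp

/-- normalised action -/
def Psi : M2 →* Matrix (Fin 4) (Fin 4) ℝ where
  toFun x := ‖x.det‖⁻¹ • Phi x
  map_one' := by simp [Phi_one]
  map_mul' x y := by
    rw [Phi_mul, Matrix.det_mul, norm_mul, mul_inv, Matrix.smul_mul, Matrix.mul_smul, smul_smul]

lemma Psi_apply (x : M2) : Psi x = ‖x.det‖⁻¹ • Phi x := rfl

/-- the Lorentz product -/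
def bl' (x y : Fin 4 → ℝ) : ℝ := -(x 0 * y 0) + x 1 * y 1 + x 2 * y 2 + x 3 * y 3

lemma bl'_eq (x y : Fin 4 → ℝ) :
    x ⬝ᵥ (Matrix.diagonal ![(-1 : ℝ), 1, 1, 1] *ᵥ y) = bl' x y := by
  simp [dotProduct, Matrix.mulVec_diagonal, Fin.sum_univ_four, bl']

lemma det_herm (v : Fin 4 → ℝ) : (herm v).det = ((-bl' v v : ℝ) : ℂ) := by
  rw [Matrix.det_fin_two]
  simp [herm, bl']
  ring_nf
  rw [Complex.I_sq]
  ring

lemma bl'_Phi_self (x : M2) (v : Fin 4 → ℝ) :
    bl' (Phi x *ᵥ v) (Phi x *ᵥ v) = ‖x.det‖ ^ 2 * bl' v v := by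
  have h := congrArg Matrix.det (herm_Phi x v)
  rw [det_herm, Matrix.det_mul, Matrix.det_mul, det_herm, Matrix.det_conjTranspose] at h
  have h2 : x.det * ((-bl' v v : ℝ) : ℂ) * star x.det
      = ((‖x.det‖ ^ 2 * (-bl' v v) : ℝ) : ℂ) := by
    have : x.det * star x.det = ((‖x.det‖ ^ 2 : ℝ) : ℂ) := by
      rw [← Complex.normSq_eq_norm_sq]
      exact Complex.mul_conj _
    rw [mul_right_comm, this]
    push_cast
    ring
  rw [h2] at h
  have h3 := Complex.ofReal_injective h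
  linarith

lemma bl'_Phi (x : M2) (u v : Fin 4 → ℝ) :
    bl' (Phi x *ᵥ u) (Phi x *ᵥ v) = ‖x.det‖ ^ 2 * bl' u v := by
  have h1 := bl'_Phi_self x (u + v)
  have h2 := bl'_Phi_self x u
  have h3 := bl'_Phi_self x v
  rw [Matrix.mulVec_add] at h1
  have e : ∀ a b : Fin 4 → ℝ, bl' (a + b) (a + b) = bl' a a + 2 * bl' a b + bl' b b := by
    intro a b; simp [bl']; ring
  rw [e, e] at h1
  linarith

lemma bl'_Psi (x : M2) (hx : x.det ≠ 0) (u v : Fin 4 → ℝ) :
    bl' (Psi x *ᵥ u) (Psi x *ᵥ v) = bl' u v := by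
  have hn : ‖x.det‖ ≠ 0 := norm_ne_zero_iff.mpr hx
  rw [Psi_apply, Matrix.smul_mulVec, Matrix.smul_mulVec]
  have e : ∀ (c : ℝ) (a b : Fin 4 → ℝ), bl' (c • a) (c • b) = c ^ 2 * bl' a b := by
    intro c a b; simp [bl']; ring
  rw [e, bl'_Phi]
  field_simp

lemma Psi_preserves (x : M2) (hx : x.det ≠ 0) :
    (Psi x)ᵀ * Matrix.diagonal ![(-1 : ℝ), 1, 1, 1] * Psi x
      = Matrix.diagonal ![(-1 : ℝ), 1, 1, 1] := by
  ext i j
  have h := bl'_Psi x hx (Pi.single j 1) (Pi.single i 1)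
  rw [← bl'_eq, ← bl'_eq] at h
  have e1 : (Psi x *ᵥ Pi.single j 1) ⬝ᵥ
      (Matrix.diagonal ![(-1 : ℝ), 1, 1, 1] *ᵥ (Psi x *ᵥ Pi.single i 1))
      = ((Psi x)ᵀ * Matrix.diagonal ![(-1 : ℝ), 1, 1, 1] * Psi x) i j := by
    rw [Matrix.mulVec_mulVec, Matrix.dotProduct_mulVec, ← Matrix.mulVec_transpose,
      Matrix.mulVec_mulVec, Matrix.transpose_mul, Matrix.diagonal_transpose]
    rw [dotProduct_single_one, Matrix.mulVec_single_one]
    rfl
  have e2 : (Pi.single j 1 : Fin 4 → ℝ) ⬝ᵥ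
      (Matrix.diagonal ![(-1 : ℝ), 1, 1, 1] *ᵥ Pi.single i 1)
      = Matrix.diagonal ![(-1 : ℝ), 1, 1, 1] i j := by
    rw [single_one_dotProduct, Matrix.mulVec_single_one, Matrix.col_apply]
    rw [Matrix.diagonal_apply, Matrix.diagonal_apply]
    by_cases hij : i = j
    · simp [hij]
    · rw [if_neg hij, if_neg (fun h' => hij h'.symm)]
  rw [e1, e2] at h
  exact h

lemma entry00 (x : M2) (v : Fin 4 → ℝ) : ((x * herm v * xᴴ) 0 0).re
    = ((x 0 0).re * (x 0 0).re + (x 0 0).im * (x 0 0).im) * (v 0 + v 3) + ((x 0 1).re * (x 0 1).re + (x 0 1).im * (x 0 1).im) * (v 0 - v 3)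
      + 2 * (((x 0 0).re * (x 0 1).re + (x 0 0).im * (x 0 1).im) * v 1 - ((x 0 0).im * (x 0 1).re - (x 0 0).re * (x 0 1).im) * v 2) := by
  rw [Matrix.mul_apply, Fin.sum_univ_two, Matrix.mul_apply, Matrix.mul_apply, Fin.sum_univ_two,
    Fin.sum_univ_two, Matrix.conjTranspose_apply, Matrix.conjTranspose_apply]
  have e00 : herm v 0 0 = ((v 0 + v 3 : ℝ) : ℂ) := rfl
  have e01 : herm v 0 1 = (v 1 : ℂ) + (v 2 : ℂ) * Complex.I := rfl
  have e10 : herm v 1 0 = (v 1 : ℂ) - (v 2 : ℂ) * Complex.I := rfl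
  have e11 : herm v 1 1 = ((v 0 - v 3 : ℝ) : ℂ) := rfl
  rw [e00, e01, e10, e11]
  simp only [Complex.add_re, Complex.mul_re, Complex.add_im, Complex.mul_im, Complex.sub_re,
    Complex.sub_im, Complex.ofReal_re, Complex.ofReal_im, Complex.I_re, Complex.I_im,
    Complex.star_def, Complex.conj_re, Complex.conj_im]
  ring

lemma entry11 (x : M2) (v : Fin 4 → ℝ) : ((x * herm v * xᴴ) 1 1).re
    = ((x 1 0).re * (x 1 0).re + (x 1 0).im * (x 1 0).im) * (v 0 + v 3) + ((x 1 1).re * (x 1 1).re + (x 1 1).im * (x 1 1).im) * (v 0 - v 3)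
      + 2 * (((x 1 0).re * (x 1 1).re + (x 1 0).im * (x 1 1).im) * v 1 - ((x 1 0).im * (x 1 1).re - (x 1 0).re * (x 1 1).im) * v 2) := by
  rw [Matrix.mul_apply, Fin.sum_univ_two, Matrix.mul_apply, Matrix.mul_apply, Fin.sum_univ_two,
    Fin.sum_univ_two, Matrix.conjTranspose_apply, Matrix.conjTranspose_apply]
  have e00 : herm v 0 0 = ((v 0 + v 3 : ℝ) : ℂ) := rfl
  have e01 : herm v 0 1 = (v 1 : ℂ) + (v 2 : ℂ) * Complex.I := rfl
  have e10 : herm v 1 0 = (v 1 : ℂ) - (v 2 : ℂ) * Complex.I := rfl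
  have e11 : herm v 1 1 = ((v 0 - v 3 : ℝ) : ℂ) := rfl
  rw [e00, e01, e10, e11]
  simp only [Complex.add_re, Complex.mul_re, Complex.add_im, Complex.mul_im, Complex.sub_re,
    Complex.sub_im, Complex.ofReal_re, Complex.ofReal_im, Complex.I_re, Complex.I_im,
    Complex.star_def, Complex.conj_re, Complex.conj_im]
  ring

lemma entry01re (x : M2) (v : Fin 4 → ℝ) : ((x * herm v * xᴴ) 0 1).re
    = ((x 0 0).re * (x 1 0).re + (x 0 0).im * (x 1 0).im) * (v 0 + v 3) + ((x 0 1).re * (x 1 1).re + (x 0 1).im * (x 1 1).im) * (v 0 - v 3)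
      + (((x 0 0).re * (x 1 1).re + (x 0 0).im * (x 1 1).im) * v 1 - ((x 0 0).im * (x 1 1).re - (x 0 0).re * (x 1 1).im) * v 2) + (((x 0 1).re * (x 1 0).re + (x 0 1).im * (x 1 0).im) * v 1 + ((x 0 1).im * (x 1 0).re - (x 0 1).re * (x 1 0).im) * v 2) := by
  rw [Matrix.mul_apply, Fin.sum_univ_two, Matrix.mul_apply, Matrix.mul_apply, Fin.sum_univ_two,
    Fin.sum_univ_two, Matrix.conjTranspose_apply, Matrix.conjTranspose_apply]
  have e00 : herm v 0 0 = ((v 0 + v 3 : ℝ) : ℂ) := rfl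
  have e01 : herm v 0 1 = (v 1 : ℂ) + (v 2 : ℂ) * Complex.I := rfl
  have e10 : herm v 1 0 = (v 1 : ℂ) - (v 2 : ℂ) * Complex.I := rfl
  have e11 : herm v 1 1 = ((v 0 - v 3 : ℝ) : ℂ) := rfl
  rw [e00, e01, e10, e11]
  simp only [Complex.add_re, Complex.mul_re, Complex.add_im, Complex.mul_im, Complex.sub_re,
    Complex.sub_im, Complex.ofReal_re, Complex.ofReal_im, Complex.I_re, Complex.I_im,
    Complex.star_def, Complex.conj_re, Complex.conj_im]
  ring

lemma entry01im (x : M2) (v : Fin 4 → ℝ) : ((x * herm v * xᴴ) 0 1).im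
    = ((x 0 0).im * (x 1 0).re - (x 0 0).re * (x 1 0).im) * (v 0 + v 3) + ((x 0 1).im * (x 1 1).re - (x 0 1).re * (x 1 1).im) * (v 0 - v 3)
      + (((x 0 0).im * (x 1 1).re - (x 0 0).re * (x 1 1).im) * v 1 + ((x 0 0).re * (x 1 1).re + (x 0 0).im * (x 1 1).im) * v 2) + (((x 0 1).im * (x 1 0).re - (x 0 1).re * (x 1 0).im) * v 1 - ((x 0 1).re * (x 1 0).re + (x 0 1).im * (x 1 0).im) * v 2) := by
  rw [Matrix.mul_apply, Fin.sum_univ_two, Matrix.mul_apply, Matrix.mul_apply, Fin.sum_univ_two,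
    Fin.sum_univ_two, Matrix.conjTranspose_apply, Matrix.conjTranspose_apply]
  have e00 : herm v 0 0 = ((v 0 + v 3 : ℝ) : ℂ) := rfl
  have e01 : herm v 0 1 = (v 1 : ℂ) + (v 2 : ℂ) * Complex.I := rfl
  have e10 : herm v 1 0 = (v 1 : ℂ) - (v 2 : ℂ) * Complex.I := rfl
  have e11 : herm v 1 1 = ((v 0 - v 3 : ℝ) : ℂ) := rfl
  rw [e00, e01, e10, e11]
  simp only [Complex.add_re, Complex.mul_re, Complex.add_im, Complex.mul_im, Complex.sub_re,
    Complex.sub_im, Complex.ofReal_re, Complex.ofReal_im, Complex.I_re, Complex.I_im,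
    Complex.star_def, Complex.conj_re, Complex.conj_im]
  ring

lemma aux1 (A : Matrix (Fin 4) (Fin 4) ℝ) (i j : Fin 4) : A i j = (A *ᵥ Pi.single j 1) i := by
  simp

lemma Phi_00 (x : M2) : (Phi x) 0 0
    = (‖x 0 0‖ ^ 2 + ‖x 0 1‖ ^ 2 + ‖x 1 0‖ ^ 2 + ‖x 1 1‖ ^ 2) / 2 := by
  rw [aux1 (Phi x) 0 0, Phi_mulVec]
  simp only [← Complex.normSq_eq_norm_sq, Complex.normSq_apply]
  simp only [hc, Matrix.cons_val_zero, entry00, entry11]
  have f0 : (Pi.single 0 1 : Fin 4 → ℝ) 0 = 1 := by simp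
  have f1 : (Pi.single 0 1 : Fin 4 → ℝ) 1 = 0 := by simp
  have f2 : (Pi.single 0 1 : Fin 4 → ℝ) 2 = 0 := by simp
  have f3 : (Pi.single 0 1 : Fin 4 → ℝ) 3 = 0 := by simp
  rw [f0, f1, f2, f3]
  ring

lemma Psi_00_pos (x : M2) (hx : x.det ≠ 0) : 0 < (Psi x) 0 0 := by
  rw [Psi_apply, Matrix.smul_apply, Phi_00, smul_eq_mul]
  have hn : 0 < ‖x.det‖ := norm_pos_iff.mpr hx
  apply mul_pos (inv_pos.mpr hn)
  by_contra hcon
  push Not at hcon
  have h0 := sq_nonneg ‖x 0 0‖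
  have h1 := sq_nonneg ‖x 0 1‖
  have h2 := sq_nonneg ‖x 1 0‖
  have h3 := sq_nonneg ‖x 1 1‖
  have e0 : ‖x 0 0‖ ^ 2 = 0 := by linarith
  have e1 : ‖x 0 1‖ ^ 2 = 0 := by linarith
  have f0 : x 0 0 = 0 := norm_eq_zero.mp (pow_eq_zero_iff (two_ne_zero) |>.mp e0)
  have f1 : x 0 1 = 0 := norm_eq_zero.mp (pow_eq_zero_iff (two_ne_zero) |>.mp e1)
  apply hx
  rw [Matrix.det_fin_two, f0, f1]
  ring

/-- every invertible two by two matrix has a square root -/
lemma exists_sqrt (x : M2) (hx : x.det ≠ 0) : ∃ y : M2, y * y = x := by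
  obtain ⟨s0, hs0⟩ : ∃ s : ℂ, s ^ 2 = x.det := IsAlgClosed.exists_pow_nat_eq _ (by norm_num)
  have hs0' : s0 ≠ 0 := by
    rintro rfl
    apply hx
    rw [← hs0]; ring
  obtain ⟨s, hs, hne⟩ : ∃ s : ℂ, s ^ 2 = x.det ∧ x 0 0 + x 1 1 + 2 * s ≠ 0 := by
    by_cases h : x 0 0 + x 1 1 + 2 * s0 = 0
    · refine ⟨-s0, by rw [neg_sq]; exact hs0, ?_⟩
      intro h'
      apply hs0'
      linear_combination (h - h') / 4
    · exact ⟨s0, hs0, h⟩
  obtain ⟨τ, hτ⟩ : ∃ τ : ℂ, τ ^ 2 = x 0 0 + x 1 1 + 2 * s :=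
    IsAlgClosed.exists_pow_nat_eq _ (by norm_num)
  have hτ' : τ ≠ 0 := by
    rintro rfl
    apply hne
    rw [← hτ]; ring
  rw [Matrix.det_fin_two] at hs
  refine ⟨!![(x 0 0 + s) / τ, x 0 1 / τ; x 1 0 / τ, (x 1 1 + s) / τ], ?_⟩
  have hττ : τ ^ 2 ≠ 0 := pow_ne_zero 2 hτ'
  ext i j
  fin_cases i <;> fin_cases j
  · simp [Matrix.mul_apply, Fin.sum_univ_two]
    field_simp
    linear_combination hs - (x 0 0) * hτ
  · simp [Matrix.mul_apply, Fin.sum_univ_two]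
    field_simp
    linear_combination - (x 0 1) * hτ
  · simp [Matrix.mul_apply, Fin.sum_univ_two]
    field_simp
    linear_combination - (x 1 0) * hτ
  · simp [Matrix.mul_apply, Fin.sum_univ_two]
    field_simp
    linear_combination hs - (x 1 1) * hτ

lemma Psi_det (x : M2) (hx : x.det ≠ 0) : (Psi x).det = 1 := by
  obtain ⟨y, hy⟩ := exists_sqrt x hx
  have hpos : 0 ≤ (Psi x).det := by
    rw [← hy, map_mul, Matrix.det_mul]
    exact mul_self_nonneg _
  have h := congrArg Matrix.det (Psi_preserves x hx)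
  rw [Matrix.det_mul, Matrix.det_mul, Matrix.det_transpose, Matrix.det_diagonal] at h
  simp [Fin.prod_univ_four] at h
  nlinarith

end

end Pool.Agent.Lib.MP_b3e290_gt
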