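import Mathlib
import Pool.Agent.Lib.MP_b3e290_gt.Lorentz

set_option autoImplicit false
open Matrix Polynomial

namespace Pool.Agent.Lib.MP_b3e290_gt

noncomputable section

/-- quaternion matrix -/
def qm (a b c d : ℂ) : M2 :=
  !![a + Complex.I * b, c + Complex.I * d; -c + Complex.I * d, a - Complex.I * b]

/-- element of the quaternion order with coordinates `r0,..,r3`, at the root `t` -/
def elt (t r0 r1 r2 r3 : ℂ) : M2 :=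
  qm (r0 + r2 / 2) (r1 + (r2 + r3) / 2) ((r2 + (t + t ^ 2) * r3) / 2)
    ((r2 + (1 + t + t ^ 2) * r3) / 2)

section mult
def m0 {R : Type*} [CommRing R] (t r0 r1 r2 r3 s0 s1 s2 s3 : R) : R :=
  r0 * s0
    + -(r1 * s1)
    + (t + t ^ 2) * r1 * s2
    + (1 + 2 * t + 2 * t ^ 2 + 2 * t ^ 3) * r1 * s3
    + (-1 - t - t ^ 2) * r2 * s1
    + -(r2 * s2)
    + (t ^ 3) * r2 * s3
    + (-2 - 2 * t - 2 * t ^ 2 - 2 * t ^ 3) * r3 * s1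
    + (-1 - t - t ^ 2 - t ^ 3) * r3 * s2
    + (-1 - t - t ^ 2 - t ^ 3) * r3 * s3

def m1 {R : Type*} [CommRing R] (t r0 r1 r2 r3 s0 s1 s2 s3 : R) : R :=
  r0 * s1
    + r1 * s0
    + (t + t ^ 2) * r1 * s2
    + (1 + t + t ^ 2 + 2 * t ^ 3) * r1 * s3
    + (1 - t - t ^ 2) * r2 * s1
    + (1 + t ^ 3) * r2 * s3
    + (-1 - t - t ^ 2 - 2 * t ^ 3) * r3 * s1
    + (-1 - t ^ 3) * r3 * s2

def m2 {R : Type*} [CommRing R] (t r0 r1 r2 r3 s0 s1 s2 s3 : R) : R :=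
  r0 * s2
    + (-1 - 2 * t - 2 * t ^ 2) * r1 * s2
    + (-3 - 4 * t - 4 * t ^ 2 - 4 * t ^ 3) * r1 * s3
    + r2 * s0
    + (1 + 2 * t + 2 * t ^ 2) * r2 * s1
    + r2 * s2
    + (-1 - t - t ^ 2 - 2 * t ^ 3) * r2 * s3
    + (3 + 4 * t + 4 * t ^ 2 + 4 * t ^ 3) * r3 * s1
    + (1 + t + t ^ 2 + 2 * t ^ 3) * r3 * s2

def m3 {R : Type*} [CommRing R] (t r0 r1 r2 r3 s0 s1 s2 s3 : R) : R :=
  r0 * s3
    + (2) * r1 * s2
    + (1 + 2 * t + 2 * t ^ 2) * r1 * s3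
    + (-2) * r2 * s1
    + (t + t ^ 2) * r2 * s3
    + r3 * s0
    + (-1 - 2 * t - 2 * t ^ 2) * r3 * s1
    + (1 - t - t ^ 2) * r3 * s2

/-- reduced norm -/
def nn {R : Type*} [CommRing R] (t r0 r1 r2 r3 : R) : R :=
  r0 ^ 2 + r1 ^ 2 + r2 ^ 2 + r0 * r2 + r1 * r2 + r1 * r3 + (1 + t + t ^ 2) * r2 * r3
    + (1 + t + t ^ 2 + t ^ 3) * r3 ^ 2

end mult

lemma elt_mul (t : ℂ) (h : t ^ 4 = t + 1) (r0 r1 r2 r3 s0 s1 s2 s3 : ℂ) :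
    elt t r0 r1 r2 r3 * elt t s0 s1 s2 s3
      = elt t (m0 t r0 r1 r2 r3 s0 s1 s2 s3) (m1 t r0 r1 r2 r3 s0 s1 s2 s3)
        (m2 t r0 r1 r2 r3 s0 s1 s2 s3) (m3 t r0 r1 r2 r3 s0 s1 s2 s3) := by
  have hI : Complex.I ^ 2 = -1 := Complex.I_sq
  have w : (r0 + r2 / 2) * (s0 + s2 / 2) - (r1 + (r2 + r3) / 2) * (s1 + (s2 + s3) / 2)
      - ((r2 + (t + t ^ 2) * r3) / 2) * ((s2 + (t + t ^ 2) * s3) / 2)
      - ((r2 + (1 + t + t ^ 2) * r3) / 2) * ((s2 + (1 + t + t ^ 2) * s3) / 2)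
      = m0 t r0 r1 r2 r3 s0 s1 s2 s3 + m2 t r0 r1 r2 r3 s0 s1 s2 s3 / 2 := by
    unfold m0 m2
    linear_combination (-(1 / 2) * r3 * s3) * h
  have x : (r0 + r2 / 2) * (s1 + (s2 + s3) / 2) + (r1 + (r2 + r3) / 2) * (s0 + s2 / 2)
      + ((r2 + (t + t ^ 2) * r3) / 2) * ((s2 + (1 + t + t ^ 2) * s3) / 2)
      - ((r2 + (1 + t + t ^ 2) * r3) / 2) * ((s2 + (t + t ^ 2) * s3) / 2)
      = m1 t r0 r1 r2 r3 s0 s1 s2 s3
        + (m2 t r0 r1 r2 r3 s0 s1 s2 s3 + m3 t r0 r1 r2 r3 s0 s1 s2 s3) / 2 := by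
    unfold m1 m2 m3
    ring
  have y : (r0 + r2 / 2) * ((s2 + (t + t ^ 2) * s3) / 2)
      - (r1 + (r2 + r3) / 2) * ((s2 + (1 + t + t ^ 2) * s3) / 2)
      + ((r2 + (t + t ^ 2) * r3) / 2) * (s0 + s2 / 2)
      + ((r2 + (1 + t + t ^ 2) * r3) / 2) * (s1 + (s2 + s3) / 2)
      = (m2 t r0 r1 r2 r3 s0 s1 s2 s3 + (t + t ^ 2) * m3 t r0 r1 r2 r3 s0 s1 s2 s3) / 2 := by
    unfold m2 m3
    linear_combination (-r1 * s3 - 1 / 2 * r2 * s3 + r3 * s1 + 1 / 2 * r3 * s2) * h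
  have z : (r0 + r2 / 2) * ((s2 + (1 + t + t ^ 2) * s3) / 2)
      + (r1 + (r2 + r3) / 2) * ((s2 + (t + t ^ 2) * s3) / 2)
      - ((r2 + (t + t ^ 2) * r3) / 2) * (s1 + (s2 + s3) / 2)
      + ((r2 + (1 + t + t ^ 2) * r3) / 2) * (s0 + s2 / 2)
      = (m2 t r0 r1 r2 r3 s0 s1 s2 s3 + (1 + t + t ^ 2) * m3 t r0 r1 r2 r3 s0 s1 s2 s3) / 2 := by
    unfold m2 m3
    linear_combination (-r1 * s3 - 1 / 2 * r2 * s3 + r3 * s1 + 1 / 2 * r3 * s2) * h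
  unfold elt
  rw [← w, ← x, ← y, ← z]
  generalize r0 + r2 / 2 = a0
  generalize r1 + (r2 + r3) / 2 = a1
  generalize (r2 + (t + t ^ 2) * r3) / 2 = a2
  generalize (r2 + (1 + t + t ^ 2) * r3) / 2 = a3
  generalize s0 + s2 / 2 = b0
  generalize s1 + (s2 + s3) / 2 = b1
  generalize (s2 + (t + t ^ 2) * s3) / 2 = b2
  generalize (s2 + (1 + t + t ^ 2) * s3) / 2 = b3
  ext i j
  fin_cases i <;> fin_cases j
  · simp [qm, Matrix.mul_apply, Fin.sum_univ_two]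
    linear_combination (a1 * b1 + a3 * b3) * hI
  · simp [qm, Matrix.mul_apply, Fin.sum_univ_two]
    linear_combination (a1 * b3 - a3 * b1) * hI
  · simp [qm, Matrix.mul_apply, Fin.sum_univ_two]
    linear_combination (a3 * b1 - a1 * b3) * hI
  · simp [qm, Matrix.mul_apply, Fin.sum_univ_two]
    linear_combination (a1 * b1 + a3 * b3) * hI

lemma elt_one (t : ℂ) : elt t 1 0 0 0 = 1 := by
  ext i j
  fin_cases i <;> fin_cases j <;> simp [elt, qm]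

lemma elt_det (t : ℂ) (h : t ^ 4 = t + 1) (r0 r1 r2 r3 : ℂ) :
    (elt t r0 r1 r2 r3).det = nn t r0 r1 r2 r3 := by
  have hI : Complex.I ^ 2 = -1 := Complex.I_sq
  rw [Matrix.det_fin_two]
  simp only [elt, qm, nn, Matrix.of_apply, Matrix.cons_val_zero, Matrix.cons_val_one,
    Matrix.cons_val', Matrix.cons_val_fin_one]
  linear_combination (-((r1 + (r2 + r3) / 2) ^ 2) - ((r2 + (1 + t + t ^ 2) * r3) / 2) ^ 2) * hI
    + (1 / 2 * r3 ^ 2) * h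

end

end Pool.Agent.Lib.MP_b3e290_gt
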