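import Mathlib
import Pool.Agent.Lib.MP_b3e290_gt.Order

set_option autoImplicit false
open Matrix Polynomial

namespace Pool.Agent.Lib.MP_b3e290_gt

noncomputable section

/-- the four roots of `X^4 = X + 1`: a complex pair and two real roots -/
structure Roots where
  θ : Fin 4 → ℂ
  eq : ∀ i, θ i ^ 4 = θ i + 1
  inj : Function.Injective θ
  conj : θ 1 = star (θ 0)
  re2 : ∃ a : ℝ, θ 2 = (a : ℂ)
  re3 : ∃ a : ℝ, θ 3 = (a : ℂ)

variable (Θ : Roots)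

/-- the element of the order with polynomial coordinates `p` at the root `t` -/
def eltp (t : ℂ) (p : Fin 4 → ℤ[X]) : M2 :=
  elt t (aeval t (p 0)) (aeval t (p 1)) (aeval t (p 2)) (aeval t (p 3))

/-- the order, embedded at all four roots -/
def OO : Set (Fin 4 → M2) := {x | ∃ p : Fin 4 → ℤ[X], ∀ i, x i = eltp (Θ.θ i) p}

lemma OO_mul {x y : Fin 4 → M2} (hx : x ∈ OO Θ) (hy : y ∈ OO Θ) : x * y ∈ OO Θ := by
  obtain ⟨p, hp⟩ := hx
  obtain ⟨q, hq⟩ := hy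
  refine ⟨![m0 X (p 0) (p 1) (p 2) (p 3) (q 0) (q 1) (q 2) (q 3),
    m1 X (p 0) (p 1) (p 2) (p 3) (q 0) (q 1) (q 2) (q 3),
    m2 X (p 0) (p 1) (p 2) (p 3) (q 0) (q 1) (q 2) (q 3),
    m3 X (p 0) (p 1) (p 2) (p 3) (q 0) (q 1) (q 2) (q 3)], fun i => ?_⟩
  rw [Pi.mul_apply, hp, hq, eltp, eltp, elt_mul _ (Θ.eq i), eltp]
  congr 1 <;> simp [m0, m1, m2, m3, map_ofNat]

lemma OO_one : (1 : Fin 4 → M2) ∈ OO Θ := by
  refine ⟨![1, 0, 0, 0], fun i => ?_⟩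
  rw [eltp, Pi.one_apply]
  simp [elt_one]

lemma units_det {x y : M2} (h : x * y = 1) : x.det * y.det = 1 := by
  rw [← Matrix.det_mul, h, Matrix.det_one]

/-- the arithmetic group -/
def Gam : Subgroup (Matrix.GeneralLinearGroup (Fin 4) ℝ) where
  carrier := {g | ∃ x y : Fin 4 → M2, x ∈ OO Θ ∧ y ∈ OO Θ ∧ x * y = 1 ∧ y * x = 1 ∧
    (g : Matrix (Fin 4) (Fin 4) ℝ) = Psi (x 0)}
  mul_mem' := by
    rintro g h ⟨x, y, hx, hy, hxy, hyx, hg⟩ ⟨x', y', hx', hy', hxy', hyx', hg'⟩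
    refine ⟨x * x', y' * y, OO_mul Θ hx hx', OO_mul Θ hy' hy, ?_, ?_, ?_⟩
    · rw [mul_assoc, ← mul_assoc x', hxy', one_mul, hxy]
    · rw [mul_assoc, ← mul_assoc y, hyx, one_mul, hyx']
    · rw [Units.val_mul, hg, hg', Pi.mul_apply, map_mul]
  one_mem' := ⟨1, 1, OO_one Θ, OO_one Θ, by simp, by simp, by simp⟩
  inv_mem' := by
    rintro g ⟨x, y, hx, hy, hxy, hyx, hg⟩
    refine ⟨y, x, hy, hx, hyx, hxy, ?_⟩
    have h1 : (g : Matrix (Fin 4) (Fin 4) ℝ) * Psi (y 0) = 1 := by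
      rw [hg, ← map_mul]
      have : x 0 * y 0 = 1 := congrFun hxy 0
      rw [this, map_one]
    have h2 : g⁻¹ = ((⟨(g : Matrix (Fin 4) (Fin 4) ℝ), Psi (y 0), h1, by
        rw [hg, ← map_mul]
        have : y 0 * x 0 = 1 := congrFun hyx 0
        rw [this, map_one]⟩ : (Matrix (Fin 4) (Fin 4) ℝ)ˣ))⁻¹ := by
      congr 1
      exact Units.ext rfl
    rw [h2]
    rfl

lemma Gam_props (g : Matrix.GeneralLinearGroup (Fin 4) ℝ) (hg : g ∈ Gam Θ) :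
    (g : Matrix (Fin 4) (Fin 4) ℝ)ᵀ * Matrix.diagonal ![(-1 : ℝ), 1, 1, 1]
          * (g : Matrix (Fin 4) (Fin 4) ℝ) = Matrix.diagonal ![(-1 : ℝ), 1, 1, 1] ∧
      (g : Matrix (Fin 4) (Fin 4) ℝ).det = 1 ∧
      0 < (g : Matrix (Fin 4) (Fin 4) ℝ) 0 0 := by
  obtain ⟨x, y, hx, hy, hxy, hyx, hg⟩ := hg
  have hd : (x 0).det ≠ 0 := by
    have := units_det (congrFun hxy 0)
    intro h0
    rw [h0, zero_mul] at this
    exact zero_ne_one this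
  rw [hg]
  exact ⟨Psi_preserves _ hd, Psi_det _ hd, Psi_00_pos _ hd⟩

/-- a unit of the order gives an element of the group -/
lemma mem_Gam (p : Fin 4 → ℤ[X]) (u : ℤ[X])
    (h : ∀ t : ℂ, t ^ 4 = t + 1 →
      nn t (aeval t (p 0)) (aeval t (p 1)) (aeval t (p 2)) (aeval t (p 3)) * aeval t u = 1) :
    ∃ g ∈ Gam Θ, (g : Matrix (Fin 4) (Fin 4) ℝ) = Psi (eltp (Θ.θ 0) p) := by
  set q : Fin 4 → ℤ[X] := ![(p 0 + p 2) * u, -p 1 * u, -p 2 * u, -p 3 * u] with hq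
  have key : ∀ t : ℂ, t ^ 4 = t + 1 → eltp t p * eltp t q = 1 := by
    intro t ht
    have h1 := h t ht
    rw [eltp, eltp, elt_mul t ht, ← elt_one t]
    congr 1
    · rw [← h1]
      simp [hq, m0, nn]
      ring
    · simp [hq, m1]
      ring
    · simp [hq, m2]
      ring
    · simp [hq, m3]
      ring
  have key2 : ∀ t : ℂ, t ^ 4 = t + 1 → eltp t q * eltp t p = 1 := by
    intro t ht
    exact mul_eq_one_comm.mp (key t ht)
  have e1 : Psi (eltp (Θ.θ 0) p) * Psi (eltp (Θ.θ 0) q) = 1 := by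
    rw [← map_mul, key _ (Θ.eq 0), map_one]
  have e2 : Psi (eltp (Θ.θ 0) q) * Psi (eltp (Θ.θ 0) p) = 1 := by
    rw [← map_mul, key2 _ (Θ.eq 0), map_one]
  refine ⟨⟨_, _, e1, e2⟩, ⟨fun i => eltp (Θ.θ i) p, fun i => eltp (Θ.θ i) q, ⟨p, fun _ => rfl⟩,
    ⟨q, fun _ => rfl⟩, ?_, ?_, rfl⟩, rfl⟩
  · funext i; exact key _ (Θ.eq i)
  · funext i; exact key2 _ (Θ.eq i)

end

end Pool.Agent.Lib.MP_b3e290_gt
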