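import Mathlib
import Pool.Agent.Lib.MP_b3e290_gt.Group

set_option autoImplicit false
open Matrix Polynomial

namespace Pool.Agent.Lib.MP_b3e290_gt

noncomputable section

variable (Θ : Roots)

lemma ff_monic : (X ^ 4 - X - 1 : ℤ[X]).Monic := by
  monicity!

/-- integer coordinates -/
lemma exists_coords (p : ℤ[X]) : ∃ c : Fin 4 → ℤ, ∀ i,
    aeval (Θ.θ i) p = ∑ k : Fin 4, (c k : ℂ) * (Θ.θ i) ^ (k : ℕ) := by
  set f : ℤ[X] := X ^ 4 - X - 1 with hf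
  have hm : f.Monic := ff_monic
  have hdeg : f.natDegree = 4 := by
    rw [hf]; compute_degree!
  set r := p %ₘ f with hr
  refine ⟨fun k => r.coeff k, fun i => ?_⟩
  have h1 : aeval (Θ.θ i) p = aeval (Θ.θ i) r := by
    have h2 := Polynomial.modByMonic_add_div p f
    have h3 : aeval (Θ.θ i) f = 0 := by
      rw [hf]
      simp [Θ.eq i]
    conv_lhs => rw [← h2]
    rw [map_add, map_mul, h3, zero_mul, add_zero]
  rw [h1]
  have hlt : r.natDegree < 4 := by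
    have := Polynomial.natDegree_modByMonic_lt p hm (by
      intro h
      rw [h] at hdeg
      simp at hdeg)
    rwa [hdeg] at this
  rw [Polynomial.aeval_eq_sum_range' hlt, ← Fin.sum_univ_eq_sum_range
    (fun k => r.coeff k • (Θ.θ i) ^ k) 4]
  apply Finset.sum_congr rfl
  intro k _
  simp

lemma fin_lemma : ∃ ε > 0, ∀ p : ℤ[X], ‖aeval (Θ.θ 2) p‖ ≤ 4 → ‖aeval (Θ.θ 3) p‖ ≤ 4 →
    ‖aeval (Θ.θ 0) p‖ < ε → aeval (Θ.θ 0) p = 0 := by
  set V := Matrix.vandermonde Θ.θ with hV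
  have hdet : IsUnit V.det := by
    rw [isUnit_iff_ne_zero]
    exact Matrix.det_vandermonde_ne_zero_iff.mpr Θ.inj
  -- bound for the coefficients
  set B : ℝ := ∑ k : Fin 4, ∑ i : Fin 4, ‖V⁻¹ k i‖ * 4 with hB
  obtain ⟨N, hN⟩ := exists_nat_ge B
  set S : Set (Fin 4 → ℤ) := Set.Icc (fun _ => -(N : ℤ)) (fun _ => (N : ℤ)) with hS
  have hSf : S.Finite := Set.finite_Icc _ _
  set T : Set ℂ := (fun c : Fin 4 → ℤ => ∑ k : Fin 4, (c k : ℂ) * (Θ.θ 0) ^ (k : ℕ)) '' S \ {0}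
    with hT
  have hTf : T.Finite := (hSf.image _).subset Set.sdiff_subset
  have h0 : (0 : ℂ) ∈ Tᶜ := by simp [hT]
  obtain ⟨ε, hε, hball⟩ := Metric.isOpen_iff.mp hTf.isClosed.isOpen_compl 0 h0
  refine ⟨min ε 4, lt_min hε (by norm_num), fun p h2 h3 h4 => ?_⟩
  obtain ⟨c, hc⟩ := exists_coords Θ p
  have hlt : ‖aeval (Θ.θ 0) p‖ < ε := lt_of_lt_of_le h4 (min_le_left _ _)
  have hle : ‖aeval (Θ.θ 0) p‖ ≤ 4 := (lt_of_lt_of_le h4 (min_le_right _ _)).le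
  have hle1 : ‖aeval (Θ.θ 1) p‖ ≤ 4 := by
    have : aeval (Θ.θ 1) p = star (aeval (Θ.θ 0) p) := by
      rw [hc 0, hc 1, star_sum]
      apply Finset.sum_congr rfl
      intro k _
      rw [Θ.conj]
      simp
    rw [this, norm_star]
    exact hle
  have hall : ∀ i, ‖aeval (Θ.θ i) p‖ ≤ 4 := by
    intro i; fin_cases i
    · exact hle
    · exact hle1
    · exact h2
    · exact h3
  -- coefficient vector
  have hvec : V *ᵥ (fun k => (c k : ℂ)) = fun i => aeval (Θ.θ i) p := by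
    funext i
    rw [hc i, Matrix.mulVec, dotProduct]
    apply Finset.sum_congr rfl
    intro k _
    rw [hV, Matrix.vandermonde_apply, mul_comm]
  have hinv : (fun k => (c k : ℂ)) = V⁻¹ *ᵥ (fun i => aeval (Θ.θ i) p) := by
    rw [← hvec, Matrix.mulVec_mulVec, Matrix.nonsing_inv_mul _ hdet, Matrix.one_mulVec]
  have hck : ∀ k, |(c k : ℝ)| ≤ B := by
    intro k
    have h5 : (c k : ℂ) = ∑ i, V⁻¹ k i * aeval (Θ.θ i) p := congrFun hinv k
    have h6 : |(c k : ℝ)| = ‖(c k : ℂ)‖ := by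
      rw [Complex.norm_intCast]
    rw [h6, h5]
    calc ‖∑ i, V⁻¹ k i * aeval (Θ.θ i) p‖ ≤ ∑ i, ‖V⁻¹ k i * aeval (Θ.θ i) p‖ :=
          norm_sum_le _ _
      _ ≤ ∑ i, ‖V⁻¹ k i‖ * 4 := by
          apply Finset.sum_le_sum
          intro i _
          rw [norm_mul]
          exact mul_le_mul_of_nonneg_left (hall i) (norm_nonneg _)
      _ ≤ B := by
          rw [hB]
          exact Finset.single_le_sum (f := fun k => ∑ i : Fin 4, ‖V⁻¹ k i‖ * 4)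
            (fun k _ => Finset.sum_nonneg (fun i _ => by positivity)) (Finset.mem_univ k)
  have hcS : c ∈ S := by
    rw [hS, Set.mem_Icc]
    constructor
    · intro k
      have := (abs_le.mp ((hck k).trans hN)).1
      exact_mod_cast this
    · intro k
      have := (abs_le.mp ((hck k).trans hN)).2
      exact_mod_cast this
  by_contra hne
  have hmem : aeval (Θ.θ 0) p ∈ T := by
    refine ⟨⟨c, hcS, (hc 0).symm⟩, hne⟩
  have hmem2 : aeval (Θ.θ 0) p ∈ Tᶜ := hball (by simpa using hlt)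
  exact hmem2 hmem


lemma det_qm (a b c d : ℂ) : (qm a b c d).det = a ^ 2 + b ^ 2 + c ^ 2 + d ^ 2 := by
  have hI : Complex.I ^ 2 = -1 := Complex.I_sq
  rw [Matrix.det_fin_two]
  simp only [qm, Matrix.of_apply, Matrix.cons_val_zero, Matrix.cons_val_one,
    Matrix.cons_val', Matrix.cons_val_fin_one]
  linear_combination (-b ^ 2 - d ^ 2) * hI

lemma Phi_qm_00 (a b c d : ℂ) : Phi (qm a b c d) 0 0
    = ‖a‖ ^ 2 + ‖b‖ ^ 2 + ‖c‖ ^ 2 + ‖d‖ ^ 2 := by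
  rw [aux1 (Phi (qm a b c d)) 0 0, Phi_mulVec]
  simp only [← Complex.normSq_eq_norm_sq, Complex.normSq_apply]
  simp only [hc, Matrix.cons_val_zero, entry00, entry11]
  have f0 : (Pi.single 0 1 : Fin 4 → ℝ) 0 = 1 := by simp
  have f1 : (Pi.single 0 1 : Fin 4 → ℝ) 1 = 0 := by simp
  have f2 : (Pi.single 0 1 : Fin 4 → ℝ) 2 = 0 := by simp
  have f3 : (Pi.single 0 1 : Fin 4 → ℝ) 3 = 0 := by simp
  rw [f0, f1, f2, f3]
  have g0 : qm a b c d 0 0 = a + Complex.I * b := rfl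
  have g1 : qm a b c d 0 1 = c + Complex.I * d := rfl
  have g2 : qm a b c d 1 0 = -c + Complex.I * d := rfl
  have g3 : qm a b c d 1 1 = a - Complex.I * b := rfl
  rw [g0, g1, g2, g3]
  simp only [Complex.add_re, Complex.mul_re, Complex.add_im, Complex.mul_im, Complex.sub_re,
    Complex.sub_im, Complex.I_re, Complex.I_im, Complex.neg_re, Complex.neg_im]
  ring

lemma Phi_qm_11 (a b c d : ℂ) : Phi (qm a b c d) 1 1
    = ‖a‖ ^ 2 + ‖d‖ ^ 2 - ‖b‖ ^ 2 - ‖c‖ ^ 2 := by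
  rw [aux1 (Phi (qm a b c d)) 1 1, Phi_mulVec]
  simp only [← Complex.normSq_eq_norm_sq, Complex.normSq_apply]
  simp only [hc, Matrix.cons_val_one, Matrix.cons_val_zero, entry01re]
  have f0 : (Pi.single 1 1 : Fin 4 → ℝ) 0 = 0 := by simp
  have f1 : (Pi.single 1 1 : Fin 4 → ℝ) 1 = 1 := by simp
  have f2 : (Pi.single 1 1 : Fin 4 → ℝ) 2 = 0 := by simp
  have f3 : (Pi.single 1 1 : Fin 4 → ℝ) 3 = 0 := by simp
  rw [f0, f1, f2, f3]
  have g0 : qm a b c d 0 0 = a + Complex.I * b := rfl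
  have g1 : qm a b c d 0 1 = c + Complex.I * d := rfl
  have g2 : qm a b c d 1 0 = -c + Complex.I * d := rfl
  have g3 : qm a b c d 1 1 = a - Complex.I * b := rfl
  rw [g0, g1, g2, g3]
  simp only [Complex.add_re, Complex.mul_re, Complex.add_im, Complex.mul_im, Complex.sub_re,
    Complex.sub_im, Complex.I_re, Complex.I_im, Complex.neg_re, Complex.neg_im]
  ring

lemma Phi_qm_33 (a b c d : ℂ) : Phi (qm a b c d) 3 3
    = ‖a‖ ^ 2 + ‖b‖ ^ 2 - ‖c‖ ^ 2 - ‖d‖ ^ 2 := by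
  rw [aux1 (Phi (qm a b c d)) 3 3, Phi_mulVec]
  simp only [← Complex.normSq_eq_norm_sq, Complex.normSq_apply]
  simp only [hc, Matrix.cons_val, entry00, entry11]
  have f0 : (Pi.single 3 1 : Fin 4 → ℝ) 0 = 0 := by simp
  have f1 : (Pi.single 3 1 : Fin 4 → ℝ) 1 = 0 := by simp
  have f2 : (Pi.single 3 1 : Fin 4 → ℝ) 2 = 0 := by simp
  have f3 : (Pi.single 3 1 : Fin 4 → ℝ) 3 = 1 := by simp
  rw [f0, f1, f2, f3]
  have g0 : qm a b c d 0 0 = a + Complex.I * b := rfl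
  have g1 : qm a b c d 0 1 = c + Complex.I * d := rfl
  have g2 : qm a b c d 1 0 = -c + Complex.I * d := rfl
  have g3 : qm a b c d 1 1 = a - Complex.I * b := rfl
  rw [g0, g1, g2, g3]
  simp only [Complex.add_re, Complex.mul_re, Complex.add_im, Complex.mul_im, Complex.sub_re,
    Complex.sub_im, Complex.I_re, Complex.I_im, Complex.neg_re, Complex.neg_im]
  ring


/-- evaluation at a real point is real -/
lemma aeval_real (a : ℝ) (p : ℤ[X]) : ∃ b : ℝ, aeval (a : ℂ) p = (b : ℂ) := by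
  refine ⟨aeval a p, ?_⟩
  have : ((aeval a p : ℝ) : ℂ) = algebraMap ℝ ℂ (aeval a p) := rfl
  rw [this, ← Polynomial.aeval_algebraMap_apply]
  rfl

/-- coordinate polynomials (doubled) -/
def P1 (p : Fin 4 → ℤ[X]) : ℤ[X] := 2 * p 1 + p 2 + p 3
def P2 (p : Fin 4 → ℤ[X]) : ℤ[X] := p 2 + (X + X ^ 2) * p 3
def P3 (p : Fin 4 → ℤ[X]) : ℤ[X] := p 2 + (1 + X + X ^ 2) * p 3
def Nn (p : Fin 4 → ℤ[X]) : ℤ[X] := nn X (p 0) (p 1) (p 2) (p 3)

lemma eltp_eq (t : ℂ) (p : Fin 4 → ℤ[X]) : eltp t p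
    = qm (aeval t (p 0) + aeval t (p 2) / 2) (aeval t (P1 p) / 2) (aeval t (P2 p) / 2)
      (aeval t (P3 p) / 2) := by
  unfold eltp elt P1 P2 P3
  congr 1
  · simp [map_ofNat]
    ring
  · simp
  · simp

lemma Nn_eq (t : ℂ) (ht : t ^ 4 = t + 1) (p : Fin 4 → ℤ[X]) :
    aeval t (Nn p) = (eltp t p).det := by
  unfold eltp Nn
  rw [elt_det t ht]
  simp [nn]

/-- bound at a real place -/
lemma real_bound (t : ℂ) (ht : t ^ 4 = t + 1) (hr : ∃ a : ℝ, t = (a : ℂ)) (p q : Fin 4 → ℤ[X])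
    (h : eltp t p * eltp t q = 1) :
    ‖aeval t (P1 p ^ 2 * Nn q)‖ ≤ 4 ∧ ‖aeval t (P2 p ^ 2 * Nn q)‖ ≤ 4 ∧
      ‖aeval t (P3 p ^ 2 * Nn q)‖ ≤ 4 := by
  obtain ⟨s, rfl⟩ := hr
  have hd := units_det h
  rw [← Nn_eq _ ht q] at hd
  obtain ⟨b0, hb0⟩ := aeval_real s (p 0)
  obtain ⟨b2, hb2⟩ := aeval_real s (p 2)
  obtain ⟨c1, hc1⟩ := aeval_real s (P1 p)
  obtain ⟨c2, hc2⟩ := aeval_real s (P2 p)
  obtain ⟨c3, hc3⟩ := aeval_real s (P3 p)
  have hdet : (eltp (s : ℂ) p).det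
      = (((b0 + b2 / 2) ^ 2 + (c1 / 2) ^ 2 + (c2 / 2) ^ 2 + (c3 / 2) ^ 2 : ℝ) : ℂ) := by
    rw [eltp_eq, det_qm, hb0, hb2, hc1, hc2, hc3]
    push_cast
    ring
  rw [hdet] at hd
  have hn := congrArg norm hd
  rw [norm_mul, norm_one, Complex.norm_real, Real.norm_eq_abs, abs_of_nonneg (by positivity)] at hn
  set m := ‖aeval (s : ℂ) (Nn q)‖ with hm
  have hm0 : 0 ≤ m := norm_nonneg _
  have key : ∀ c : ℝ, c ^ 2 / 4 ≤ (b0 + b2 / 2) ^ 2 + (c1 / 2) ^ 2 + (c2 / 2) ^ 2 + (c3 / 2) ^ 2 →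
      ‖((c : ℝ) : ℂ)‖ ^ 2 * m ≤ 4 := by
    intro c hc
    rw [Complex.norm_real, Real.norm_eq_abs, sq_abs]
    have := mul_le_mul_of_nonneg_right hc hm0
    rw [hn] at this
    linarith
  refine ⟨?_, ?_, ?_⟩
  · rw [map_mul, map_pow, norm_mul, norm_pow, hc1]
    exact key c1 (by nlinarith [sq_nonneg (b0 + b2 / 2), sq_nonneg c2, sq_nonneg c3])
  · rw [map_mul, map_pow, norm_mul, norm_pow, hc2]
    exact key c2 (by nlinarith [sq_nonneg (b0 + b2 / 2), sq_nonneg c1, sq_nonneg c3])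
  · rw [map_mul, map_pow, norm_mul, norm_pow, hc3]
    exact key c3 (by nlinarith [sq_nonneg (b0 + b2 / 2), sq_nonneg c1, sq_nonneg c2])

lemma Psi_scalar (a : ℂ) (ha : a ≠ 0) : Psi (qm a 0 0 0) = 1 := by
  have hdet : (qm a 0 0 0).det = a ^ 2 := by rw [det_qm]; ring
  have hq : qm a 0 0 0 = a • (1 : M2) := by
    ext i j
    fin_cases i <;> fin_cases j <;> simp [qm]
  rw [Psi_apply, hdet]
  apply mulVec_ext
  intro v
  apply herm_inj
  rw [Matrix.smul_mulVec, herm_smul, herm_Phi, hq, Matrix.one_mulVec]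
  rw [Matrix.conjTranspose_smul, Matrix.conjTranspose_one, Matrix.smul_mul, Matrix.one_mul,
    Matrix.mul_smul, Matrix.smul_mul, Matrix.mul_one, smul_smul, smul_smul]
  have h1 : a * star a = ((‖a‖ ^ 2 : ℝ) : ℂ) := by
    rw [← Complex.normSq_eq_norm_sq]
    exact Complex.mul_conj _
  rw [mul_assoc, mul_comm (star a), h1, norm_pow, ← Complex.ofReal_mul, inv_mul_cancel₀]
  · simp
  · have : ‖a‖ ≠ 0 := norm_ne_zero_iff.mpr ha
    positivity

lemma small_aux (x1 x2 x3 x0 n m δ : ℝ) (hx1 : 0 ≤ x1) (hx2 : 0 ≤ x2) (hx3 : 0 ≤ x3)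
    (hm : 0 ≤ m) (hnm : n * m = 1)
    (h1 : n⁻¹ * (x0 + x1 / 4 + x2 / 4 + x3 / 4) - n⁻¹ * (x0 + x3 / 4 - x1 / 4 - x2 / 4) < δ)
    (h3 : n⁻¹ * (x0 + x1 / 4 + x2 / 4 + x3 / 4) - n⁻¹ * (x0 + x1 / 4 - x2 / 4 - x3 / 4) < δ) :
    x1 * m < 2 * δ ∧ x2 * m < 2 * δ ∧ x3 * m < 2 * δ := by
  have hn : n⁻¹ = m := by
    exact inv_eq_of_mul_eq_one_right hnm
  rw [hn] at h1 h3
  have g1 : 0 ≤ x1 * m := by positivity
  have g2 : 0 ≤ x2 * m := by positivity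
  have g3 : 0 ≤ x3 * m := by positivity
  refine ⟨?_, ?_, ?_⟩ <;> nlinarith

lemma small (t : ℂ) (p q : Fin 4 → ℤ[X]) (hd : (eltp t p).det * aeval t (Nn q) = 1) (δ : ℝ)
    (h1 : Psi (eltp t p) 0 0 - Psi (eltp t p) 1 1 < δ)
    (h3 : Psi (eltp t p) 0 0 - Psi (eltp t p) 3 3 < δ) :
    ‖aeval t (P1 p)‖ ^ 2 * ‖aeval t (Nn q)‖ < 2 * δ ∧
    ‖aeval t (P2 p)‖ ^ 2 * ‖aeval t (Nn q)‖ < 2 * δ ∧
    ‖aeval t (P3 p)‖ ^ 2 * ‖aeval t (Nn q)‖ < 2 * δ := by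
  have hE : Psi (eltp t p) = ‖(eltp t p).det‖⁻¹ • Phi (eltp t p) := Psi_apply _
  have hnm : ‖(eltp t p).det‖ * ‖aeval t (Nn q)‖ = 1 := by
    rw [← norm_mul, hd, norm_one]
  rw [hE, Matrix.smul_apply, Matrix.smul_apply, smul_eq_mul, smul_eq_mul] at h1 h3
  have hEq := eltp_eq t p
  have e : ∀ c : ℂ, ‖c / 2‖ ^ 2 = ‖c‖ ^ 2 / 4 := by
    intro c
    rw [norm_div, div_pow]; norm_num
  have f0 : Phi (eltp t p) 0 0 = ‖aeval t (p 0) + aeval t (p 2) / 2‖ ^ 2 + ‖aeval t (P1 p)‖ ^ 2 / 4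
      + ‖aeval t (P2 p)‖ ^ 2 / 4 + ‖aeval t (P3 p)‖ ^ 2 / 4 := by
    rw [hEq, Phi_qm_00, e, e, e]
  have f1 : Phi (eltp t p) 1 1 = ‖aeval t (p 0) + aeval t (p 2) / 2‖ ^ 2 + ‖aeval t (P3 p)‖ ^ 2 / 4
      - ‖aeval t (P1 p)‖ ^ 2 / 4 - ‖aeval t (P2 p)‖ ^ 2 / 4 := by
    rw [hEq, Phi_qm_11, e, e, e]
  have f3 : Phi (eltp t p) 3 3 = ‖aeval t (p 0) + aeval t (p 2) / 2‖ ^ 2 + ‖aeval t (P1 p)‖ ^ 2 / 4
      - ‖aeval t (P2 p)‖ ^ 2 / 4 - ‖aeval t (P3 p)‖ ^ 2 / 4 := by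
    rw [hEq, Phi_qm_33, e, e, e]
  rw [f0, f1] at h1
  rw [f0, f3] at h3
  exact small_aux _ _ _ _ _ _ _ (by positivity) (by positivity) (by positivity) (norm_nonneg _)
    hnm h1 h3

lemma sq_zero_aux {a b c : ℂ} (hd : c * b = 1) (h : a ^ 2 * b = 0) : a = 0 := by
  rcases mul_eq_zero.mp h with h6 | h6
  · exact pow_eq_zero_iff (two_ne_zero) |>.mp h6
  · exfalso
    rw [h6, mul_zero] at hd
    exact zero_ne_one hd

/-- an element of the group close to the identity is the identity -/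
lemma near_one : ∃ ε > 0, ∀ x ∈ OO Θ, ∀ y ∈ OO Θ, x * y = 1 →
    (Psi (x 0)) 0 0 - (Psi (x 0)) 1 1 < ε → (Psi (x 0)) 0 0 - (Psi (x 0)) 3 3 < ε →
    Psi (x 0) = 1 := by
  obtain ⟨ε, hε, hfin⟩ := fin_lemma Θ
  refine ⟨ε / 2, by positivity, fun x hx y hy hxy h1 h3 => ?_⟩
  obtain ⟨p, hp⟩ := hx
  obtain ⟨q, hq⟩ := hy
  have hpq : ∀ i, eltp (Θ.θ i) p * eltp (Θ.θ i) q = 1 := by
    intro i
    rw [← hp, ← hq]
    exact congrFun hxy i
  have b2 := real_bound _ (Θ.eq 2) Θ.re2 p q (hpq 2)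
  have b3 := real_bound _ (Θ.eq 3) Θ.re3 p q (hpq 3)
  have hd := units_det (hpq 0)
  rw [← Nn_eq _ (Θ.eq 0) q] at hd
  rw [hp 0] at h1 h3 ⊢
  obtain ⟨s1, s2, s3⟩ := small _ p q hd _ h1 h3
  have z1 : aeval (Θ.θ 0) (P1 p) = 0 := by
    have h5 : aeval (Θ.θ 0) (P1 p ^ 2 * Nn q) = 0 := by
      apply hfin _ b2.1 b3.1
      rw [map_mul, map_pow, norm_mul, norm_pow]
      linarith
    rw [map_mul, map_pow] at h5
    exact sq_zero_aux hd h5
  have z2 : aeval (Θ.θ 0) (P2 p) = 0 := by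
    have h5 : aeval (Θ.θ 0) (P2 p ^ 2 * Nn q) = 0 := by
      apply hfin _ b2.2.1 b3.2.1
      rw [map_mul, map_pow, norm_mul, norm_pow]
      linarith
    rw [map_mul, map_pow] at h5
    exact sq_zero_aux hd h5
  have z3 : aeval (Θ.θ 0) (P3 p) = 0 := by
    have h5 : aeval (Θ.θ 0) (P3 p ^ 2 * Nn q) = 0 := by
      apply hfin _ b2.2.2 b3.2.2
      rw [map_mul, map_pow, norm_mul, norm_pow]
      linarith
    rw [map_mul, map_pow] at h5
    exact sq_zero_aux hd h5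
  have hEq := eltp_eq (Θ.θ 0) p
  rw [z1, z2, z3] at hEq
  simp only [zero_div] at hEq
  rw [hEq]
  apply Psi_scalar
  intro h0
  rw [h0] at hEq
  have : (eltp (Θ.θ 0) p).det = 0 := by rw [hEq, det_qm]; ring
  rw [this, zero_mul] at hd
  exact zero_ne_one hd

/-- discreteness of the arithmetic group -/
lemma discrete : DiscreteTopology
      ((fun g : Matrix.GeneralLinearGroup (Fin 4) ℝ => (g : Matrix (Fin 4) (Fin 4) ℝ)) ''
        (Gam Θ : Set (Matrix.GeneralLinearGroup (Fin 4) ℝ))) := by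
  obtain ⟨ε, hε, hone⟩ := near_one Θ
  set S := ((fun g : Matrix.GeneralLinearGroup (Fin 4) ℝ => (g : Matrix (Fin 4) (Fin 4) ℝ)) ''
        (Gam Θ : Set (Matrix.GeneralLinearGroup (Fin 4) ℝ))) with hS
  rw [discreteTopology_iff_isOpen_singleton]
  rintro ⟨A, g, hg, hgA⟩
  simp only at hgA
  set ginv : Matrix (Fin 4) (Fin 4) ℝ := ((g⁻¹ : Matrix.GeneralLinearGroup (Fin 4) ℝ) :
    Matrix (Fin 4) (Fin 4) ℝ) with hginv
  set U : Set (Matrix (Fin 4) (Fin 4) ℝ) :=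
    {B | (ginv * B) 0 0 - (ginv * B) 1 1 < ε ∧ (ginv * B) 0 0 - (ginv * B) 3 3 < ε} with hU
  have hUo : IsOpen U := by
    have hc : ∀ i : Fin 4, Continuous fun B : Matrix (Fin 4) (Fin 4) ℝ => (ginv * B) i i := by
      intro i
      exact (Continuous.matrix_elem (Continuous.matrix_mul continuous_const continuous_id) i i)
    apply IsOpen.inter
    · exact isOpen_lt ((hc 0).sub (hc 1)) continuous_const
    · exact isOpen_lt ((hc 0).sub (hc 3)) continuous_const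
  have hset : ({⟨A, g, hg, hgA⟩} : Set S) = Subtype.val ⁻¹' U := by
    ext ⟨B, k, hk, hkB⟩
    simp only at hkB
    constructor
    · intro h
      have hBA : B = A := congrArg Subtype.val h
      show B ∈ U
      rw [hBA, ← hgA, hU]
      have : ginv * (g : Matrix (Fin 4) (Fin 4) ℝ) = 1 := by
        rw [hginv, ← Units.val_mul, inv_mul_cancel]; rfl
      simp only [Set.mem_ofPred_eq, this]
      simp [hε]
    · intro h
      have hBU : B ∈ U := h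
      rw [hU, Set.mem_ofPred_eq, ← hkB] at hBU
      have hmem : g⁻¹ * k ∈ Gam Θ := (Gam Θ).mul_mem ((Gam Θ).inv_mem hg) hk
      obtain ⟨x, y, hx, hy, hxy, hyx, hxg⟩ := hmem
      have hval : ginv * (k : Matrix (Fin 4) (Fin 4) ℝ) = Psi (x 0) := by
        rw [← hxg, Units.val_mul]
      rw [hval] at hBU
      have h1 := hone x hx y hy hxy hBU.1 hBU.2
      have h2 : g⁻¹ * k = 1 := by
        apply Units.ext
        rw [hxg, h1]; rfl
      have h3 : k = g := by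
        have := congrArg (fun z => g * z) h2
        simpa using this
      show (⟨B, k, hk, hkB⟩ : S) = ⟨A, g, hg, hgA⟩
      apply Subtype.ext
      show B = A
      rw [← hkB, ← hgA, h3]
  rw [hset]
  exact hUo.preimage continuous_subtype_val

end

end Pool.Agent.Lib.MP_b3e290_gt
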