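import Mathlib
import Pool.Agent.Lib.MP_b3e290_gt.Group

set_option autoImplicit false
open Matrix Polynomial

namespace Pool.Agent.Lib.MP_b3e290_gt

noncomputable section

lemma exists_alpha : ∃ a : ℝ, -0.2481260629 ≤ a ∧ a ≤ -0.2481260627 ∧
    64 * a ^ 6 + 16 * a ^ 2 - 1 = 0 := by
  have hc : ContinuousOn (fun a : ℝ => -(64 * a ^ 6 + 16 * a ^ 2 - 1))
      (Set.Icc (-0.2481260629) (-0.2481260627)) := by fun_prop
  have h := intermediate_value_Icc (by norm_num) hc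
  have h0 : (0 : ℝ) ∈ Set.Icc ((fun a : ℝ => -(64 * a ^ 6 + 16 * a ^ 2 - 1)) (-0.2481260629))
      ((fun a : ℝ => -(64 * a ^ 6 + 16 * a ^ 2 - 1)) (-0.2481260627)) := by
    constructor <;> norm_num
  obtain ⟨a, ⟨h1, h2⟩, h3⟩ := h h0
  refine ⟨a, h1, h2, ?_⟩
  simp only at h3
  linarith

lemma exists_r1 : ∃ a : ℝ, 1 ≤ a ∧ a ≤ 2 ∧ a ^ 4 = a + 1 := by
  have hc : ContinuousOn (fun a : ℝ => a ^ 4 - a - 1) (Set.Icc 1 2) := by fun_prop
  have h := intermediate_value_Icc (by norm_num) hc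
  have h0 : (0 : ℝ) ∈ Set.Icc ((fun a : ℝ => a ^ 4 - a - 1) 1)
      ((fun a : ℝ => a ^ 4 - a - 1) 2) := by
    constructor <;> norm_num
  obtain ⟨a, ⟨h1, h2⟩, h3⟩ := h h0
  refine ⟨a, h1, h2, ?_⟩
  simp only at h3
  linarith

lemma exists_r2 : ∃ a : ℝ, -1 ≤ a ∧ a ≤ 0 ∧ a ^ 4 = a + 1 := by
  have hc : ContinuousOn (fun a : ℝ => -(a ^ 4 - a - 1)) (Set.Icc (-1) 0) := by fun_prop
  have h := intermediate_value_Icc (by norm_num) hc
  have h0 : (0 : ℝ) ∈ Set.Icc ((fun a : ℝ => -(a ^ 4 - a - 1)) (-1))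
      ((fun a : ℝ => -(a ^ 4 - a - 1)) 0) := by
    constructor <;> norm_num
  obtain ⟨a, ⟨h1, h2⟩, h3⟩ := h h0
  refine ⟨a, h1, h2, ?_⟩
  simp only at h3
  linarith

lemma exists_roots : ∃ Θ : Roots, ∃ a b : ℝ, Θ.θ 0 = (a : ℂ) + (b : ℂ) * Complex.I ∧
    |a - (-0.2481260628)| ≤ 1 / 10 ^ 9 ∧ |b - 1.033982061| ≤ 1 / 10 ^ 9 := by
  obtain ⟨a, ha1, ha2, ha⟩ := exists_alpha
  obtain ⟨r, hr1, hr2, hr⟩ := exists_r1
  obtain ⟨s, hs1, hs2, hs⟩ := exists_r2
  have han : a < 0 := by linarith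
  set B : ℝ := a ^ 2 - 1 / (4 * a) with hB
  have hBa : 4 * a * (a ^ 2 - B) = 1 := by
    have h5 : a ≠ 0 := han.ne
    have : 4 * a * (a ^ 2 - B) = a / a := by rw [hB]; field_simp; ring
    rw [this, div_self h5]
  -- bounds for B
  have hinv1 : 1 / (4 * a) ≤ -1.0075523589 := by
    rw [div_le_iff_of_neg (by linarith)]
    linarith
  have hinv2 : -1.0075523599 ≤ 1 / (4 * a) := by
    rw [le_div_iff_of_neg (by linarith)]
    linarith
  have ha21 : a ^ 2 ≤ 0.0615665432 := by nlinarith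
  have ha22 : 0.0615665429 ≤ a ^ 2 := by nlinarith
  have hB1 : B ≤ 1.0691189031 := by rw [hB]; linarith
  have hB2 : 1.0691189018 ≤ B := by rw [hB]; linarith
  set b : ℝ := √B with hb
  have hbsq : b ^ 2 = B := Real.sq_sqrt (by linarith)
  have hb0 : 0 < b := Real.sqrt_pos.mpr (by linarith)
  have hb1 : b ≤ 1.0339820614 := by
    rw [hb]
    apply Real.sqrt_le_iff.mpr
    constructor
    · norm_num
    · refine hB1.trans (by norm_num)
  have hb2 : 1.0339820606 ≤ b := by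
    rw [hb]
    apply Real.le_sqrt_of_sq_le
    refine le_trans (by norm_num) hB2
  have him : 4 * a ^ 3 * b - 4 * a * b ^ 3 = b := by
    have : 4 * a ^ 3 * b - 4 * a * b ^ 3 = (4 * a * (a ^ 2 - b ^ 2)) * b := by ring
    rw [this, hbsq, hBa, one_mul]
  have hre : a ^ 4 - 6 * a ^ 2 * b ^ 2 + b ^ 4 = a + 1 := by
    have h4 : b ^ 4 = B ^ 2 := by rw [← hbsq]; ring
    rw [h4, hbsq]
    have h5 : a ≠ 0 := han.ne
    have h6 : 4 * a ^ 2 * (a ^ 4 - 6 * a ^ 2 * B + B ^ 2 - (a + 1)) = 0 := by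
      have h7 : 4 * a * B = 4 * a ^ 3 - 1 := by linarith
      have e : 4 * a ^ 2 * (a ^ 4 - 6 * a ^ 2 * B + B ^ 2 - (a + 1))
        = 4 * a ^ 6 - 6 * a ^ 3 * (4 * a * B) + (4 * a * B) ^ 2 / 4 - 4 * a ^ 3 - 4 * a ^ 2 := by
        ring
      rw [e, h7]
      linarith
    have h8 : 4 * a ^ 2 ≠ 0 := by positivity
    rcases mul_eq_zero.mp h6 with h9 | h9
    · exact absurd h9 h8
    · linarith
  have ht : ((a : ℂ) + (b : ℂ) * Complex.I) ^ 4 = ((a : ℂ) + (b : ℂ) * Complex.I) + 1 := by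
    have hI : Complex.I ^ 2 = -1 := Complex.I_sq
    have hre' : (a : ℂ) ^ 4 - 6 * a ^ 2 * b ^ 2 + b ^ 4 = a + 1 := by exact_mod_cast hre
    have him' : 4 * (a : ℂ) ^ 3 * b - 4 * a * b ^ 3 = b := by exact_mod_cast him
    linear_combination (6 * (a : ℂ) ^ 2 * b ^ 2 + 4 * a * b ^ 3 * Complex.I
      + b ^ 4 * (Complex.I ^ 2 - 1)) * hI + hre' + Complex.I * him'
  have ht' : ((a : ℂ) - (b : ℂ) * Complex.I) ^ 4 = ((a : ℂ) - (b : ℂ) * Complex.I) + 1 := by
    have hI : Complex.I ^ 2 = -1 := Complex.I_sq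
    have hre' : (a : ℂ) ^ 4 - 6 * a ^ 2 * b ^ 2 + b ^ 4 = a + 1 := by exact_mod_cast hre
    have him' : 4 * (a : ℂ) ^ 3 * b - 4 * a * b ^ 3 = b := by exact_mod_cast him
    linear_combination (6 * (a : ℂ) ^ 2 * b ^ 2 - 4 * a * b ^ 3 * Complex.I
      + b ^ 4 * (Complex.I ^ 2 - 1)) * hI + hre' - Complex.I * him'
  have hr' : (r : ℂ) ^ 4 = r + 1 := by exact_mod_cast hr
  have hs' : (s : ℂ) ^ 4 = s + 1 := by exact_mod_cast hs
  have hs3 : s < 0 := by
    rcases hs2.lt_or_eq with h | h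
    · exact h
    · rw [h] at hs; norm_num at hs
  refine ⟨⟨![(a : ℂ) + (b : ℂ) * Complex.I, (a : ℂ) - (b : ℂ) * Complex.I, (r : ℂ), (s : ℂ)],
    ?_, ?_, ?_, ⟨r, rfl⟩, ⟨s, rfl⟩⟩, a, b, rfl, ?_, ?_⟩
  · intro i
    fin_cases i
    · exact ht
    · exact ht'
    · exact hr'
    · exact hs'
  · intro i j hij
    have h1 := congrArg Complex.im hij
    have h2 := congrArg Complex.re hij
    fin_cases i <;> fin_cases j
    · rfl
    · exfalso; simp at h1; linarith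
    · exfalso; simp at h1; linarith
    · exfalso; simp at h1; linarith
    · exfalso; simp at h1; linarith
    · rfl
    · exfalso; simp at h1; linarith
    · exfalso; simp at h1; linarith
    · exfalso; simp at h1; linarith
    · exfalso; simp at h1; linarith
    · rfl
    · exfalso; simp at h2; linarith
    · exfalso; simp at h1; linarith
    · exfalso; simp at h1; linarith
    · exfalso; simp at h2; linarith
    · rfl
  · show (a : ℂ) - (b : ℂ) * Complex.I = star ((a : ℂ) + (b : ℂ) * Complex.I)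
    simp
    ring
  · rw [abs_le]; constructor <;> linarith
  · rw [abs_le]; constructor <;> linarith

end

end Pool.Agent.Lib.MP_b3e290_gt
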