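import Mathlib
import Pool.Agent.Lib.MP_b3e290_gt.RootsEx
import Pool.Agent.Lib.MP_b3e290_gt.Discrete

set_option autoImplicit false
set_option linter.unusedSimpArgs false
open Matrix Polynomial

namespace Pool.Agent.Lib.MP_b3e290_gt

noncomputable section

/-- the base vector -/
def PP : Fin 4 → ℝ := ![8, 3, -1, 0]

/-- quadratic forms giving the image of the base vector -/
def Gv (e : Fin 8 → ℝ) : Fin 4 → ℝ :=
  ![((8 * (e 0 ^ 2 + e 1 ^ 2 + e 2 ^ 2 + e 3 ^ 2)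
        + 2 * (3 * (e 0 * e 2 + e 1 * e 3) + (e 1 * e 2 - e 0 * e 3)))
      + (8 * (e 4 ^ 2 + e 5 ^ 2 + e 6 ^ 2 + e 7 ^ 2)
        + 2 * (3 * (e 4 * e 6 + e 5 * e 7) + (e 5 * e 6 - e 4 * e 7)))) / 2,
    8 * (e 0 * e 4 + e 1 * e 5) + 8 * (e 2 * e 6 + e 3 * e 7) + 3 * (e 0 * e 6 + e 1 * e 7)
      + (e 1 * e 6 - e 0 * e 7) + 3 * (e 2 * e 4 + e 3 * e 5) - (e 3 * e 4 - e 2 * e 5),
    8 * (e 1 * e 4 - e 0 * e 5) + 8 * (e 3 * e 6 - e 2 * e 7) + 3 * (e 1 * e 6 - e 0 * e 7)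
      - (e 0 * e 6 + e 1 * e 7) + 3 * (e 3 * e 4 - e 2 * e 5) + (e 2 * e 4 + e 3 * e 5),
    ((8 * (e 0 ^ 2 + e 1 ^ 2 + e 2 ^ 2 + e 3 ^ 2)
        + 2 * (3 * (e 0 * e 2 + e 1 * e 3) + (e 1 * e 2 - e 0 * e 3)))
      - (8 * (e 4 ^ 2 + e 5 ^ 2 + e 6 ^ 2 + e 7 ^ 2)
        + 2 * (3 * (e 4 * e 6 + e 5 * e 7) + (e 5 * e 6 - e 4 * e 7)))) / 2]

lemma Phi_PP (x : M2) : Phi x *ᵥ PP = Gv ![(x 0 0).re, (x 0 0).im, (x 0 1).re, (x 0 1).im,
    (x 1 0).re, (x 1 0).im, (x 1 1).re, (x 1 1).im] := by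
  rw [Phi_mulVec]
  have f0 : PP 0 = 8 := rfl
  have f1 : PP 1 = 3 := rfl
  have f2 : PP 2 = -1 := rfl
  have f3 : PP 3 = 0 := rfl
  have h00 := entry00 x PP
  have h11 := entry11 x PP
  have h01 := entry01re x PP
  have h01' := entry01im x PP
  rw [f0, f1, f2, f3] at h00 h11 h01 h01'
  funext i
  fin_cases i
  · show (((x * herm PP * xᴴ) 0 0).re + ((x * herm PP * xᴴ) 1 1).re) / 2 = _
    rw [h00, h11]
    simp [Gv]
    ring
  · show ((x * herm PP * xᴴ) 0 1).re = _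
    rw [h01]
    simp [Gv]
    ring
  · show ((x * herm PP * xᴴ) 0 1).im = _
    rw [h01']
    simp [Gv]
    ring
  · show (((x * herm PP * xᴴ) 0 0).re - ((x * herm PP * xᴴ) 1 1).re) / 2 = _
    rw [h00, h11]
    simp [Gv]
    ring

lemma prod_close {a b A B η : ℝ} (ha : |a - A| ≤ η) (hb : |b - B| ≤ η) (hA : |A| ≤ 2)
    (hB : |B| ≤ 2) (hη : η ≤ 1) : |a * b - A * B| ≤ 5 * η := by
  have h0 : 0 ≤ η := (abs_nonneg _).trans ha
  have e : a * b - A * B = (a - A) * (b - B) + A * (b - B) + (a - A) * B := by ring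
  rw [e]
  calc |(a - A) * (b - B) + A * (b - B) + (a - A) * B|
      ≤ |(a - A) * (b - B)| + |A * (b - B)| + |(a - A) * B| := by
        refine (abs_add_le _ _).trans ?_
        gcongr
        exact abs_add_le _ _
    _ = |a - A| * |b - B| + |A| * |b - B| + |a - A| * |B| := by
        rw [abs_mul, abs_mul, abs_mul]
    _ ≤ η * 1 + 2 * η + η * 2 := by
        gcongr
        exact hb.trans hη
    _ = 5 * η := by ring

lemma perturb {e E : Fin 8 → ℝ} {η : ℝ} (he : ∀ k, |e k - E k| ≤ η) (hE : ∀ k, |E k| ≤ 2)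
    (hη : η ≤ 1) : ∀ i, |Gv e i - Gv E i| ≤ 240 * η := by
  have h00 := abs_le.mp (prod_close (he 0) (he 0) (hE 0) (hE 0) hη)
  have h11 := abs_le.mp (prod_close (he 1) (he 1) (hE 1) (hE 1) hη)
  have h22 := abs_le.mp (prod_close (he 2) (he 2) (hE 2) (hE 2) hη)
  have h33 := abs_le.mp (prod_close (he 3) (he 3) (hE 3) (hE 3) hη)
  have h44 := abs_le.mp (prod_close (he 4) (he 4) (hE 4) (hE 4) hη)
  have h55 := abs_le.mp (prod_close (he 5) (he 5) (hE 5) (hE 5) hη)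
  have h66 := abs_le.mp (prod_close (he 6) (he 6) (hE 6) (hE 6) hη)
  have h77 := abs_le.mp (prod_close (he 7) (he 7) (hE 7) (hE 7) hη)
  have h02 := abs_le.mp (prod_close (he 0) (he 2) (hE 0) (hE 2) hη)
  have h13 := abs_le.mp (prod_close (he 1) (he 3) (hE 1) (hE 3) hη)
  have h12 := abs_le.mp (prod_close (he 1) (he 2) (hE 1) (hE 2) hη)
  have h03 := abs_le.mp (prod_close (he 0) (he 3) (hE 0) (hE 3) hη)
  have h46 := abs_le.mp (prod_close (he 4) (he 6) (hE 4) (hE 6) hη)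
  have h57 := abs_le.mp (prod_close (he 5) (he 7) (hE 5) (hE 7) hη)
  have h56 := abs_le.mp (prod_close (he 5) (he 6) (hE 5) (hE 6) hη)
  have h47 := abs_le.mp (prod_close (he 4) (he 7) (hE 4) (hE 7) hη)
  have h04 := abs_le.mp (prod_close (he 0) (he 4) (hE 0) (hE 4) hη)
  have h15 := abs_le.mp (prod_close (he 1) (he 5) (hE 1) (hE 5) hη)
  have h26 := abs_le.mp (prod_close (he 2) (he 6) (hE 2) (hE 6) hη)
  have h37 := abs_le.mp (prod_close (he 3) (he 7) (hE 3) (hE 7) hη)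
  have h06 := abs_le.mp (prod_close (he 0) (he 6) (hE 0) (hE 6) hη)
  have h17 := abs_le.mp (prod_close (he 1) (he 7) (hE 1) (hE 7) hη)
  have h16 := abs_le.mp (prod_close (he 1) (he 6) (hE 1) (hE 6) hη)
  have h07 := abs_le.mp (prod_close (he 0) (he 7) (hE 0) (hE 7) hη)
  have h24 := abs_le.mp (prod_close (he 2) (he 4) (hE 2) (hE 4) hη)
  have h35 := abs_le.mp (prod_close (he 3) (he 5) (hE 3) (hE 5) hη)
  have h34 := abs_le.mp (prod_close (he 3) (he 4) (hE 3) (hE 4) hη)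
  have h25 := abs_le.mp (prod_close (he 2) (he 5) (hE 2) (hE 5) hη)
  have h14 := abs_le.mp (prod_close (he 1) (he 4) (hE 1) (hE 4) hη)
  have h05 := abs_le.mp (prod_close (he 0) (he 5) (hE 0) (hE 5) hη)
  have h36 := abs_le.mp (prod_close (he 3) (he 6) (hE 3) (hE 6) hη)
  have h27 := abs_le.mp (prod_close (he 2) (he 7) (hE 2) (hE 7) hη)
  intro i
  fin_cases i
  · simp only [Gv, Fin.zero_eta, Fin.mk_one, Fin.reduceFinMk, Matrix.cons_val_zero, Matrix.cons_val_one, Matrix.cons_val]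
    rw [abs_le]
    constructor <;> linarith [h00.1, h00.2, h11.1, h11.2, h22.1, h22.2, h33.1, h33.2, h44.1, h44.2, h55.1, h55.2, h66.1, h66.2, h77.1, h77.2, h02.1, h02.2, h13.1, h13.2, h12.1, h12.2, h03.1, h03.2, h46.1, h46.2, h57.1, h57.2, h56.1, h56.2, h47.1, h47.2]
  · simp only [Gv, Fin.zero_eta, Fin.mk_one, Fin.reduceFinMk, Matrix.cons_val_zero, Matrix.cons_val_one, Matrix.cons_val]
    rw [abs_le]
    constructor <;> linarith [h04.1, h04.2, h15.1, h15.2, h26.1, h26.2, h37.1, h37.2, h06.1, h06.2, h17.1, h17.2, h16.1, h16.2, h07.1, h07.2, h24.1, h24.2, h35.1, h35.2, h34.1, h34.2, h25.1, h25.2]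
  · simp only [Gv, Fin.zero_eta, Fin.mk_one, Fin.reduceFinMk, Matrix.cons_val_zero, Matrix.cons_val_one, Matrix.cons_val]
    rw [abs_le]
    constructor <;> linarith [h14.1, h14.2, h05.1, h05.2, h36.1, h36.2, h27.1, h27.2, h16.1, h16.2, h07.1, h07.2, h06.1, h06.2, h17.1, h17.2, h34.1, h34.2, h25.1, h25.2, h24.1, h24.2, h35.1, h35.2]
  · simp only [Gv, Fin.zero_eta, Fin.mk_one, Fin.reduceFinMk, Matrix.cons_val_zero, Matrix.cons_val_one, Matrix.cons_val]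
    rw [abs_le]
    constructor <;> linarith [h00.1, h00.2, h11.1, h11.2, h22.1, h22.2, h33.1, h33.2, h44.1, h44.2, h55.1, h55.2, h66.1, h66.2, h77.1, h77.2, h02.1, h02.2, h13.1, h13.2, h12.1, h12.2, h03.1, h03.2, h46.1, h46.2, h57.1, h57.2, h56.1, h56.2, h47.1, h47.2]

/-- enclosures for the powers of the complex root -/
structure Encl (a b : ℝ) : Prop where
  ha : |a - (-0.2481260628)| ≤ 1 / 10 ^ 9
  hb : |b - 1.033982061| ≤ 1 / 10 ^ 9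

lemma encl2 {a b : ℝ} (h : Encl a b) : |(a ^ 2 - b ^ 2) - (-1.007552359)| ≤ 2 / 10 ^ 8 ∧
    |2 * a * b - (-0.513115796)| ≤ 2 / 10 ^ 8 ∧
    |(a * (a ^ 2 - b ^ 2) - b * (2 * a * b)) - 0.78055253| ≤ 3 / 10 ^ 7 ∧
    |(a * (2 * a * b) + b * (a ^ 2 - b ^ 2)) - (-0.91447366)| ≤ 3 / 10 ^ 7 := by
  have haa := abs_le.mp (prod_close h.ha h.ha (by rw [abs_le]; constructor <;> norm_num)
    (by rw [abs_le]; constructor <;> norm_num) (by norm_num))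
  have hbb := abs_le.mp (prod_close h.hb h.hb (by rw [abs_le]; constructor <;> norm_num)
    (by rw [abs_le]; constructor <;> norm_num) (by norm_num))
  have hab := abs_le.mp (prod_close h.ha h.hb (by rw [abs_le]; constructor <;> norm_num)
    (by rw [abs_le]; constructor <;> norm_num) (by norm_num))
  have h1 : |(a ^ 2 - b ^ 2) - (-1.007552359)| ≤ 2 / 10 ^ 8 := by
    rw [abs_le]; constructor <;> linarith [haa.1, haa.2, hbb.1, hbb.2]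
  have h2 : |2 * a * b - (-0.513115796)| ≤ 2 / 10 ^ 8 := by
    rw [abs_le]; constructor <;> linarith [hab.1, hab.2]
  have ha' : |a - (-0.2481260628)| ≤ 2 / 10 ^ 8 := h.ha.trans (by norm_num)
  have hb' : |b - 1.033982061| ≤ 2 / 10 ^ 8 := h.hb.trans (by norm_num)
  have k1 := abs_le.mp (prod_close ha' h1 (by rw [abs_le]; constructor <;> norm_num)
    (by rw [abs_le]; constructor <;> norm_num) (by norm_num))
  have k2 := abs_le.mp (prod_close hb' h2 (by rw [abs_le]; constructor <;> norm_num)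
    (by rw [abs_le]; constructor <;> norm_num) (by norm_num))
  have k3 := abs_le.mp (prod_close ha' h2 (by rw [abs_le]; constructor <;> norm_num)
    (by rw [abs_le]; constructor <;> norm_num) (by norm_num))
  have k4 := abs_le.mp (prod_close hb' h1 (by rw [abs_le]; constructor <;> norm_num)
    (by rw [abs_le]; constructor <;> norm_num) (by norm_num))
  refine ⟨h1, h2, ?_, ?_⟩
  · rw [abs_le]; constructor <;> linarith [k1.1, k1.2, k2.1, k2.2]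
  · rw [abs_le]; constructor <;> linarith [k3.1, k3.2, k4.1, k4.2]

/-- the standing data: roots with an enclosure of the complex one -/
structure Dat (Θ : Roots) (a b : ℝ) : Prop where
  h0 : Θ.θ 0 = (a : ℂ) + (b : ℂ) * Complex.I
  ha : |a - (-0.2481260628)| ≤ 1 / 10 ^ 9
  hb : |b - 1.033982061| ≤ 1 / 10 ^ 9

lemma pow2 (a b : ℝ) : ((a : ℂ) + (b : ℂ) * Complex.I) ^ 2
    = ((a ^ 2 - b ^ 2 : ℝ) : ℂ) + ((2 * a * b : ℝ) : ℂ) * Complex.I := by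
  have hI : Complex.I ^ 2 = -1 := Complex.I_sq
  push_cast
  linear_combination ((b : ℂ) ^ 2) * hI

lemma pow3 (a b : ℝ) : ((a : ℂ) + (b : ℂ) * Complex.I) ^ 3
    = ((a * (a ^ 2 - b ^ 2) - b * (2 * a * b) : ℝ) : ℂ)
      + ((a * (2 * a * b) + b * (a ^ 2 - b ^ 2) : ℝ) : ℂ) * Complex.I := by
  have hI : Complex.I ^ 2 = -1 := Complex.I_sq
  push_cast
  linear_combination (3 * (a : ℂ) * (b : ℂ) ^ 2 + (b : ℂ) ^ 3 * Complex.I) * hI

/-- entries of a quaternion matrix with given real and imaginary parts -/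
lemma qm_entries (a b : Fin 4 → ℝ) :
    (![(qm (a 0 + b 0 * Complex.I) (a 1 + b 1 * Complex.I) (a 2 + b 2 * Complex.I)
      (a 3 + b 3 * Complex.I) 0 0).re,
    (qm (a 0 + b 0 * Complex.I) (a 1 + b 1 * Complex.I) (a 2 + b 2 * Complex.I)
      (a 3 + b 3 * Complex.I) 0 0).im,
    (qm (a 0 + b 0 * Complex.I) (a 1 + b 1 * Complex.I) (a 2 + b 2 * Complex.I)
      (a 3 + b 3 * Complex.I) 0 1).re,
    (qm (a 0 + b 0 * Complex.I) (a 1 + b 1 * Complex.I) (a 2 + b 2 * Complex.I)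
      (a 3 + b 3 * Complex.I) 0 1).im,
    (qm (a 0 + b 0 * Complex.I) (a 1 + b 1 * Complex.I) (a 2 + b 2 * Complex.I)
      (a 3 + b 3 * Complex.I) 1 0).re,
    (qm (a 0 + b 0 * Complex.I) (a 1 + b 1 * Complex.I) (a 2 + b 2 * Complex.I)
      (a 3 + b 3 * Complex.I) 1 0).im,
    (qm (a 0 + b 0 * Complex.I) (a 1 + b 1 * Complex.I) (a 2 + b 2 * Complex.I)
      (a 3 + b 3 * Complex.I) 1 1).re,
    (qm (a 0 + b 0 * Complex.I) (a 1 + b 1 * Complex.I) (a 2 + b 2 * Complex.I)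
      (a 3 + b 3 * Complex.I) 1 1).im] : Fin 8 → ℝ)
    = ![a 0 - b 1, b 0 + a 1, a 2 - b 3, b 2 + a 3, -a 2 - b 3, -b 2 + a 3, a 0 + b 1,
      b 0 - a 1] := by
  funext k
  fin_cases k <;> simp [qm] <;> ring

/-- coordinates of element 0 -/
def e0 : Fin 4 → ℤ[X] := ![X + X ^ 2, -1 + X + X ^ 2, -2 * X - 2 * X ^ 2, 2]

lemma e0_eq (t : ℂ) (ht : t ^ 4 = t + 1) : eltp t e0 = qm ((0) / 2) ((0) / 2)
    ((0) / 2) ((2) / 2) := by
  unfold eltp elt e0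
  simp only [Matrix.cons_val_zero, Matrix.cons_val_one, Matrix.cons_val, map_add, map_sub, map_neg,
    map_mul, map_pow, map_one, map_zero, map_ofNat, aeval_X]
  congr 1
  · ring
  · ring
  · linear_combination ((0) / 2) * ht
  · linear_combination ((0) / 2) * ht

lemma e0_mem (Θ : Roots) : ∃ g ∈ Gam Θ, (g : Matrix (Fin 4) (Fin 4) ℝ)
    = Psi (eltp (Θ.θ 0) e0) := by
  apply mem_Gam Θ e0 (1)
  intro t ht
  unfold e0 nn
  simp only [Matrix.cons_val_zero, Matrix.cons_val_one, Matrix.cons_val, map_add, map_sub, map_neg,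
    map_mul, map_pow, map_one, map_zero, map_ofNat, aeval_X]
  linear_combination (-2) * ht

lemma e0_det (t : ℂ) (ht : t ^ 4 = t + 1) : (eltp t e0).det = 1 := by
  rw [e0_eq t ht, det_qm]
  linear_combination (0) * ht

lemma e0_img (Θ : Roots) (a b : ℝ) (h : Dat Θ a b) :
    ∀ i, |(Phi (eltp (Θ.θ 0) e0) *ᵥ PP) i - (![8, 3, 1, 0] : Fin 4 → ℝ) i|
      ≤ 13 / 10 ^ 5 := by
  have ht := Θ.eq 0
  obtain ⟨h2, h2', h3, h3'⟩ := encl2 ⟨h.ha, h.hb⟩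
  have ha := abs_le.mp h.ha
  have hb := abs_le.mp h.hb
  have k2 := abs_le.mp h2
  have k2' := abs_le.mp h2'
  have k3 := abs_le.mp h3
  have k3' := abs_le.mp h3'
  rw [e0_eq _ ht]
  try rw [h.h0]
  have hq : qm ((0) / 2)
      ((0) / 2)
      ((0) / 2)
      ((2) / 2)
      = qm (((![(0) / 2, (0) / 2,
          (0) / 2, (2) / 2] : Fin 4 → ℝ) 0 : ℝ) + ((![(0) / 2,
          (0) / 2, (0) / 2, (0) / 2] : Fin 4 → ℝ) 0 : ℝ) * Complex.I)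
        (((![(0) / 2, (0) / 2,
          (0) / 2, (2) / 2] : Fin 4 → ℝ) 1 : ℝ) + ((![(0) / 2,
          (0) / 2, (0) / 2, (0) / 2] : Fin 4 → ℝ) 1 : ℝ) * Complex.I)
        (((![(0) / 2, (0) / 2,
          (0) / 2, (2) / 2] : Fin 4 → ℝ) 2 : ℝ) + ((![(0) / 2,
          (0) / 2, (0) / 2, (0) / 2] : Fin 4 → ℝ) 2 : ℝ) * Complex.I)
        (((![(0) / 2, (0) / 2,
          (0) / 2, (2) / 2] : Fin 4 → ℝ) 3 : ℝ) + ((![(0) / 2,
          (0) / 2, (0) / 2, (0) / 2] : Fin 4 → ℝ) 3 : ℝ) * Complex.I) := by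
    simp only [pow2, pow3, Matrix.cons_val_zero, Matrix.cons_val_one, Matrix.cons_val]
    congr 1 <;> push_cast <;> ring
  rw [hq, Phi_PP, qm_entries]
  intro i
  have hE : ∀ k, |(![0, 0, 0, 1, 0, 1, 0, 0] : Fin 8 → ℝ) k| ≤ 2 := by
    intro k; fin_cases k <;> simp <;> rw [abs_le] <;> constructor <;> norm_num
  refine (abs_sub_le _ (Gv ![0, 0, 0, 1, 0, 1, 0, 0] i) _).trans ?_
  have hp := perturb (η := 5 / 10 ^ 7) (e := ![((0) / 2) - ((0) / 2), ((0) / 2) + ((0) / 2),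
    ((0) / 2) - ((0) / 2), ((0) / 2) + ((2) / 2),
    -((0) / 2) - ((0) / 2), -((0) / 2) + ((2) / 2),
    ((0) / 2) + ((0) / 2), ((0) / 2) - ((0) / 2)])
    (E := ![0, 0, 0, 1, 0, 1, 0, 0]) ?_ hE (by norm_num) i
  · have hg : |Gv ![0, 0, 0, 1, 0, 1, 0, 0] i
        - (![8, 3, 1, 0] : Fin 4 → ℝ) i| ≤ 1 / 10 ^ 5 := by
      rw [abs_le]
      fin_cases i <;> simp [Gv] <;> norm_num
    refine (add_le_add hp hg).trans (by norm_num)
  · intro k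
    rw [abs_le]
    fin_cases k <;> simp <;> first | (constructor <;> linarith) | norm_num

/-- coordinates of element 1 -/
def e1 : Fin 4 → ℤ[X] := ![X ^ 3, 1, -2 * X ^ 3, -2 + X + X ^ 3]

lemma e1_eq (t : ℂ) (ht : t ^ 4 = t + 1) : eltp t e1 = qm ((0) / 2) ((t - t ^ 3) / 2)
    ((1 - t ^ 3) / 2) ((-1 + t) / 2) := by
  unfold eltp elt e1
  simp only [Matrix.cons_val_zero, Matrix.cons_val_one, Matrix.cons_val, map_add, map_sub, map_neg,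
    map_mul, map_pow, map_one, map_zero, map_ofNat, aeval_X]
  congr 1
  · ring
  · ring
  · linear_combination ((1 + t) / 2) * ht
  · linear_combination ((1 + t) / 2) * ht

lemma e1_mem (Θ : Roots) : ∃ g ∈ Gam Θ, (g : Matrix (Fin 4) (Fin 4) ℝ)
    = Psi (eltp (Θ.θ 0) e1) := by
  apply mem_Gam Θ e1 (X ^ 2 + X + 1)
  intro t ht
  unfold e1 nn
  simp only [Matrix.cons_val_zero, Matrix.cons_val_one, Matrix.cons_val, map_add, map_sub, map_neg,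
    map_mul, map_pow, map_one, map_zero, map_ofNat, aeval_X]
  linear_combination (-2 - 2 * t - 3 * t ^ 2 + t ^ 3 - t ^ 4 + t ^ 5 + t ^ 7) * ht

lemma e1_det (t : ℂ) (ht : t ^ 4 = t + 1) : (eltp t e1).det = t ^ 2 - t := by
  rw [e1_eq t ht, det_qm]
  linear_combination (-1 / 2 + 1 / 2 * t ^ 2) * ht

lemma e1_img (Θ : Roots) (a b : ℝ) (h : Dat Θ a b) :
    ∀ i, |(Phi (eltp (Θ.θ 0) e1) *ᵥ PP) i - (![13.99547, 3.47485, (-4.83132), 0.25279] : Fin 4 → ℝ) i|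
      ≤ 13 / 10 ^ 5 := by
  have ht := Θ.eq 0
  obtain ⟨h2, h2', h3, h3'⟩ := encl2 ⟨h.ha, h.hb⟩
  have ha := abs_le.mp h.ha
  have hb := abs_le.mp h.hb
  have k2 := abs_le.mp h2
  have k2' := abs_le.mp h2'
  have k3 := abs_le.mp h3
  have k3' := abs_le.mp h3'
  rw [e1_eq _ ht]
  try rw [h.h0]
  have hq : qm ((0) / 2)
      ((((a : ℂ) + (b : ℂ) * Complex.I) - ((a : ℂ) + (b : ℂ) * Complex.I) ^ 3) / 2)
      ((1 - ((a : ℂ) + (b : ℂ) * Complex.I) ^ 3) / 2)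
      ((-1 + ((a : ℂ) + (b : ℂ) * Complex.I)) / 2)
      = qm (((![(0) / 2, (a - (a * (a ^ 2 - b ^ 2) - b * (2 * a * b))) / 2,
          (1 - (a * (a ^ 2 - b ^ 2) - b * (2 * a * b))) / 2, (-1 + a) / 2] : Fin 4 → ℝ) 0 : ℝ) + ((![(0) / 2,
          (b - (a * (2 * a * b) + b * (a ^ 2 - b ^ 2))) / 2, (-(a * (2 * a * b) + b * (a ^ 2 - b ^ 2))) / 2, (b) / 2] : Fin 4 → ℝ) 0 : ℝ) * Complex.I)
        (((![(0) / 2, (a - (a * (a ^ 2 - b ^ 2) - b * (2 * a * b))) / 2,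
          (1 - (a * (a ^ 2 - b ^ 2) - b * (2 * a * b))) / 2, (-1 + a) / 2] : Fin 4 → ℝ) 1 : ℝ) + ((![(0) / 2,
          (b - (a * (2 * a * b) + b * (a ^ 2 - b ^ 2))) / 2, (-(a * (2 * a * b) + b * (a ^ 2 - b ^ 2))) / 2, (b) / 2] : Fin 4 → ℝ) 1 : ℝ) * Complex.I)
        (((![(0) / 2, (a - (a * (a ^ 2 - b ^ 2) - b * (2 * a * b))) / 2,
          (1 - (a * (a ^ 2 - b ^ 2) - b * (2 * a * b))) / 2, (-1 + a) / 2] : Fin 4 → ℝ) 2 : ℝ) + ((![(0) / 2,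
          (b - (a * (2 * a * b) + b * (a ^ 2 - b ^ 2))) / 2, (-(a * (2 * a * b) + b * (a ^ 2 - b ^ 2))) / 2, (b) / 2] : Fin 4 → ℝ) 2 : ℝ) * Complex.I)
        (((![(0) / 2, (a - (a * (a ^ 2 - b ^ 2) - b * (2 * a * b))) / 2,
          (1 - (a * (a ^ 2 - b ^ 2) - b * (2 * a * b))) / 2, (-1 + a) / 2] : Fin 4 → ℝ) 3 : ℝ) + ((![(0) / 2,
          (b - (a * (2 * a * b) + b * (a ^ 2 - b ^ 2))) / 2, (-(a * (2 * a * b) + b * (a ^ 2 - b ^ 2))) / 2, (b) / 2] : Fin 4 → ℝ) 3 : ℝ) * Complex.I) := by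
    simp only [pow2, pow3, Matrix.cons_val_zero, Matrix.cons_val_one, Matrix.cons_val]
    congr 1 <;> push_cast <;> ring
  rw [hq, Phi_PP, qm_entries]
  intro i
  have hE : ∀ k, |(![(-0.9742279), (-0.5143393), (-0.4072673), (-0.1668262), (-0.6267148), (-1.0812999), 0.9742279, 0.5143393] : Fin 8 → ℝ) k| ≤ 2 := by
    intro k; fin_cases k <;> simp <;> rw [abs_le] <;> constructor <;> norm_num
  refine (abs_sub_le _ (Gv ![(-0.9742279), (-0.5143393), (-0.4072673), (-0.1668262), (-0.6267148), (-1.0812999), 0.9742279, 0.5143393] i) _).trans ?_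
  have hp := perturb (η := 5 / 10 ^ 7) (e := ![((0) / 2) - ((b - (a * (2 * a * b) + b * (a ^ 2 - b ^ 2))) / 2), ((0) / 2) + ((a - (a * (a ^ 2 - b ^ 2) - b * (2 * a * b))) / 2),
    ((1 - (a * (a ^ 2 - b ^ 2) - b * (2 * a * b))) / 2) - ((b) / 2), ((-(a * (2 * a * b) + b * (a ^ 2 - b ^ 2))) / 2) + ((-1 + a) / 2),
    -((1 - (a * (a ^ 2 - b ^ 2) - b * (2 * a * b))) / 2) - ((b) / 2), -((-(a * (2 * a * b) + b * (a ^ 2 - b ^ 2))) / 2) + ((-1 + a) / 2),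
    ((0) / 2) + ((b - (a * (2 * a * b) + b * (a ^ 2 - b ^ 2))) / 2), ((0) / 2) - ((a - (a * (a ^ 2 - b ^ 2) - b * (2 * a * b))) / 2)])
    (E := ![(-0.9742279), (-0.5143393), (-0.4072673), (-0.1668262), (-0.6267148), (-1.0812999), 0.9742279, 0.5143393]) ?_ hE (by norm_num) i
  · have hg : |Gv ![(-0.9742279), (-0.5143393), (-0.4072673), (-0.1668262), (-0.6267148), (-1.0812999), 0.9742279, 0.5143393] i
        - (![13.99547, 3.47485, (-4.83132), 0.25279] : Fin 4 → ℝ) i| ≤ 1 / 10 ^ 5 := by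
      rw [abs_le]
      fin_cases i <;> simp [Gv] <;> norm_num
    refine (add_le_add hp hg).trans (by norm_num)
  · intro k
    rw [abs_le]
    fin_cases k <;> simp <;> first | (constructor <;> linarith) | norm_num

/-- coordinates of element 2 -/
def e2 : Fin 4 → ℤ[X] := ![X ^ 3, X, -X - X ^ 3, -1 + X ^ 3]

lemma e2_eq (t : ℂ) (ht : t ^ 4 = t + 1) : eltp t e2 = qm ((-t + t ^ 3) / 2) ((-1 + t) / 2)
    ((1 - t ^ 3) / 2) ((0) / 2) := by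
  unfold eltp elt e2
  simp only [Matrix.cons_val_zero, Matrix.cons_val_one, Matrix.cons_val, map_add, map_sub, map_neg,
    map_mul, map_pow, map_one, map_zero, map_ofNat, aeval_X]
  congr 1
  · ring
  · ring
  · linear_combination ((1 + t) / 2) * ht
  · linear_combination ((1 + t) / 2) * ht

lemma e2_mem (Θ : Roots) : ∃ g ∈ Gam Θ, (g : Matrix (Fin 4) (Fin 4) ℝ)
    = Psi (eltp (Θ.θ 0) e2) := by
  apply mem_Gam Θ e2 (X ^ 2 + X + 1)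
  intro t ht
  unfold e2 nn
  simp only [Matrix.cons_val_zero, Matrix.cons_val_one, Matrix.cons_val, map_add, map_sub, map_neg,
    map_mul, map_pow, map_one, map_zero, map_ofNat, aeval_X]
  linear_combination (-2 * t - 3 * t ^ 2 - 2 * t ^ 3 - t ^ 4 + t ^ 5 + t ^ 6 + t ^ 7) * ht

lemma e2_det (t : ℂ) (ht : t ^ 4 = t + 1) : (eltp t e2).det = t ^ 2 - t := by
  rw [e2_eq t ht, det_qm]
  linear_combination (-1 / 2 + 1 / 2 * t ^ 2) * ht

lemma e2_img (Θ : Roots) (a b : ℝ) (h : Dat Θ a b) :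
    ∀ i, |(Phi (eltp (Θ.θ 0) e2) *ᵥ PP) i - (![13.99547, 4.83131, (-0.25279), 3.47485] : Fin 4 → ℝ) i|
      ≤ 13 / 10 ^ 5 := by
  have ht := Θ.eq 0
  obtain ⟨h2, h2', h3, h3'⟩ := encl2 ⟨h.ha, h.hb⟩
  have ha := abs_le.mp h.ha
  have hb := abs_le.mp h.hb
  have k2 := abs_le.mp h2
  have k2' := abs_le.mp h2'
  have k3 := abs_le.mp h3
  have k3' := abs_le.mp h3'
  rw [e2_eq _ ht]
  try rw [h.h0]
  have hq : qm ((-((a : ℂ) + (b : ℂ) * Complex.I) + ((a : ℂ) + (b : ℂ) * Complex.I) ^ 3) / 2)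
      ((-1 + ((a : ℂ) + (b : ℂ) * Complex.I)) / 2)
      ((1 - ((a : ℂ) + (b : ℂ) * Complex.I) ^ 3) / 2)
      ((0) / 2)
      = qm (((![(-a + (a * (a ^ 2 - b ^ 2) - b * (2 * a * b))) / 2, (-1 + a) / 2,
          (1 - (a * (a ^ 2 - b ^ 2) - b * (2 * a * b))) / 2, (0) / 2] : Fin 4 → ℝ) 0 : ℝ) + ((![(-b + (a * (2 * a * b) + b * (a ^ 2 - b ^ 2))) / 2,
          (b) / 2, (-(a * (2 * a * b) + b * (a ^ 2 - b ^ 2))) / 2, (0) / 2] : Fin 4 → ℝ) 0 : ℝ) * Complex.I)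
        (((![(-a + (a * (a ^ 2 - b ^ 2) - b * (2 * a * b))) / 2, (-1 + a) / 2,
          (1 - (a * (a ^ 2 - b ^ 2) - b * (2 * a * b))) / 2, (0) / 2] : Fin 4 → ℝ) 1 : ℝ) + ((![(-b + (a * (2 * a * b) + b * (a ^ 2 - b ^ 2))) / 2,
          (b) / 2, (-(a * (2 * a * b) + b * (a ^ 2 - b ^ 2))) / 2, (0) / 2] : Fin 4 → ℝ) 1 : ℝ) * Complex.I)
        (((![(-a + (a * (a ^ 2 - b ^ 2) - b * (2 * a * b))) / 2, (-1 + a) / 2,
          (1 - (a * (a ^ 2 - b ^ 2) - b * (2 * a * b))) / 2, (0) / 2] : Fin 4 → ℝ) 2 : ℝ) + ((![(-b + (a * (2 * a * b) + b * (a ^ 2 - b ^ 2))) / 2,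
          (b) / 2, (-(a * (2 * a * b) + b * (a ^ 2 - b ^ 2))) / 2, (0) / 2] : Fin 4 → ℝ) 2 : ℝ) * Complex.I)
        (((![(-a + (a * (a ^ 2 - b ^ 2) - b * (2 * a * b))) / 2, (-1 + a) / 2,
          (1 - (a * (a ^ 2 - b ^ 2) - b * (2 * a * b))) / 2, (0) / 2] : Fin 4 → ℝ) 3 : ℝ) + ((![(-b + (a * (2 * a * b) + b * (a ^ 2 - b ^ 2))) / 2,
          (b) / 2, (-(a * (2 * a * b) + b * (a ^ 2 - b ^ 2))) / 2, (0) / 2] : Fin 4 → ℝ) 3 : ℝ) * Complex.I) := by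
    simp only [pow2, pow3, Matrix.cons_val_zero, Matrix.cons_val_one, Matrix.cons_val]
    congr 1 <;> push_cast <;> ring
  rw [hq, Phi_PP, qm_entries]
  intro i
  have hE : ∀ k, |(![(-0.0026517), (-1.5982909), 0.1097237, 0.4572368, (-0.1097237), (-0.4572368), 1.0313303, (-0.3501648)] : Fin 8 → ℝ) k| ≤ 2 := by
    intro k; fin_cases k <;> simp <;> rw [abs_le] <;> constructor <;> norm_num
  refine (abs_sub_le _ (Gv ![(-0.0026517), (-1.5982909), 0.1097237, 0.4572368, (-0.1097237), (-0.4572368), 1.0313303, (-0.3501648)] i) _).trans ?_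
  have hp := perturb (η := 5 / 10 ^ 7) (e := ![((-a + (a * (a ^ 2 - b ^ 2) - b * (2 * a * b))) / 2) - ((b) / 2), ((-b + (a * (2 * a * b) + b * (a ^ 2 - b ^ 2))) / 2) + ((-1 + a) / 2),
    ((1 - (a * (a ^ 2 - b ^ 2) - b * (2 * a * b))) / 2) - ((0) / 2), ((-(a * (2 * a * b) + b * (a ^ 2 - b ^ 2))) / 2) + ((0) / 2),
    -((1 - (a * (a ^ 2 - b ^ 2) - b * (2 * a * b))) / 2) - ((0) / 2), -((-(a * (2 * a * b) + b * (a ^ 2 - b ^ 2))) / 2) + ((0) / 2),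
    ((-a + (a * (a ^ 2 - b ^ 2) - b * (2 * a * b))) / 2) + ((b) / 2), ((-b + (a * (2 * a * b) + b * (a ^ 2 - b ^ 2))) / 2) - ((-1 + a) / 2)])
    (E := ![(-0.0026517), (-1.5982909), 0.1097237, 0.4572368, (-0.1097237), (-0.4572368), 1.0313303, (-0.3501648)]) ?_ hE (by norm_num) i
  · have hg : |Gv ![(-0.0026517), (-1.5982909), 0.1097237, 0.4572368, (-0.1097237), (-0.4572368), 1.0313303, (-0.3501648)] i
        - (![13.99547, 4.83131, (-0.25279), 3.47485] : Fin 4 → ℝ) i| ≤ 1 / 10 ^ 5 := by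
      rw [abs_le]
      fin_cases i <;> simp [Gv] <;> norm_num
    refine (add_le_add hp hg).trans (by norm_num)
  · intro k
    rw [abs_le]
    fin_cases k <;> simp <;> first | (constructor <;> linarith) | norm_num

/-- coordinates of element 3 -/
def e3 : Fin 4 → ℤ[X] := ![-X, -X, X + X ^ 3, 1 - X ^ 3]

lemma e3_eq (t : ℂ) (ht : t ^ 4 = t + 1) : eltp t e3 = qm ((-t + t ^ 3) / 2) ((1 - t) / 2)
    ((-1 + t ^ 3) / 2) ((0) / 2) := by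
  unfold eltp elt e3
  simp only [Matrix.cons_val_zero, Matrix.cons_val_one, Matrix.cons_val, map_add, map_sub, map_neg,
    map_mul, map_pow, map_one, map_zero, map_ofNat, aeval_X]
  congr 1
  · ring
  · ring
  · linear_combination ((-1 - t) / 2) * ht
  · linear_combination ((-1 - t) / 2) * ht

lemma e3_mem (Θ : Roots) : ∃ g ∈ Gam Θ, (g : Matrix (Fin 4) (Fin 4) ℝ)
    = Psi (eltp (Θ.θ 0) e3) := by
  apply mem_Gam Θ e3 (X ^ 2 + X + 1)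
  intro t ht
  unfold e3 nn
  simp only [Matrix.cons_val_zero, Matrix.cons_val_one, Matrix.cons_val, map_add, map_sub, map_neg,
    map_mul, map_pow, map_one, map_zero, map_ofNat, aeval_X]
  linear_combination (-2 * t - 3 * t ^ 2 - 2 * t ^ 3 - t ^ 4 + t ^ 5 + t ^ 6 + t ^ 7) * ht

lemma e3_det (t : ℂ) (ht : t ^ 4 = t + 1) : (eltp t e3).det = t ^ 2 - t := by
  rw [e3_eq t ht, det_qm]
  linear_combination (-1 / 2 + 1 / 2 * t ^ 2) * ht

lemma e3_img (Θ : Roots) (a b : ℝ) (h : Dat Θ a b) :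
    ∀ i, |(Phi (eltp (Θ.θ 0) e3) *ᵥ PP) i - (![15.36375, 8.1299, (-1.30328), (-2.8032)] : Fin 4 → ℝ) i|
      ≤ 13 / 10 ^ 5 := by
  have ht := Θ.eq 0
  obtain ⟨h2, h2', h3, h3'⟩ := encl2 ⟨h.ha, h.hb⟩
  have ha := abs_le.mp h.ha
  have hb := abs_le.mp h.hb
  have k2 := abs_le.mp h2
  have k2' := abs_le.mp h2'
  have k3 := abs_le.mp h3
  have k3' := abs_le.mp h3'
  rw [e3_eq _ ht]
  try rw [h.h0]
  have hq : qm ((-((a : ℂ) + (b : ℂ) * Complex.I) + ((a : ℂ) + (b : ℂ) * Complex.I) ^ 3) / 2)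
      ((1 - ((a : ℂ) + (b : ℂ) * Complex.I)) / 2)
      ((-1 + ((a : ℂ) + (b : ℂ) * Complex.I) ^ 3) / 2)
      ((0) / 2)
      = qm (((![(-a + (a * (a ^ 2 - b ^ 2) - b * (2 * a * b))) / 2, (1 - a) / 2,
          (-1 + (a * (a ^ 2 - b ^ 2) - b * (2 * a * b))) / 2, (0) / 2] : Fin 4 → ℝ) 0 : ℝ) + ((![(-b + (a * (2 * a * b) + b * (a ^ 2 - b ^ 2))) / 2,
          (-b) / 2, ((a * (2 * a * b) + b * (a ^ 2 - b ^ 2))) / 2, (0) / 2] : Fin 4 → ℝ) 0 : ℝ) * Complex.I)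
        (((![(-a + (a * (a ^ 2 - b ^ 2) - b * (2 * a * b))) / 2, (1 - a) / 2,
          (-1 + (a * (a ^ 2 - b ^ 2) - b * (2 * a * b))) / 2, (0) / 2] : Fin 4 → ℝ) 1 : ℝ) + ((![(-b + (a * (2 * a * b) + b * (a ^ 2 - b ^ 2))) / 2,
          (-b) / 2, ((a * (2 * a * b) + b * (a ^ 2 - b ^ 2))) / 2, (0) / 2] : Fin 4 → ℝ) 1 : ℝ) * Complex.I)
        (((![(-a + (a * (a ^ 2 - b ^ 2) - b * (2 * a * b))) / 2, (1 - a) / 2,
          (-1 + (a * (a ^ 2 - b ^ 2) - b * (2 * a * b))) / 2, (0) / 2] : Fin 4 → ℝ) 2 : ℝ) + ((![(-b + (a * (2 * a * b) + b * (a ^ 2 - b ^ 2))) / 2,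
          (-b) / 2, ((a * (2 * a * b) + b * (a ^ 2 - b ^ 2))) / 2, (0) / 2] : Fin 4 → ℝ) 2 : ℝ) * Complex.I)
        (((![(-a + (a * (a ^ 2 - b ^ 2) - b * (2 * a * b))) / 2, (1 - a) / 2,
          (-1 + (a * (a ^ 2 - b ^ 2) - b * (2 * a * b))) / 2, (0) / 2] : Fin 4 → ℝ) 3 : ℝ) + ((![(-b + (a * (2 * a * b) + b * (a ^ 2 - b ^ 2))) / 2,
          (-b) / 2, ((a * (2 * a * b) + b * (a ^ 2 - b ^ 2))) / 2, (0) / 2] : Fin 4 → ℝ) 3 : ℝ) * Complex.I) := by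
    simp only [pow2, pow3, Matrix.cons_val_zero, Matrix.cons_val_one, Matrix.cons_val]
    congr 1 <;> push_cast <;> ring
  rw [hq, Phi_PP, qm_entries]
  intro i
  have hE : ∀ k, |(![1.0313303, (-0.3501648), (-0.1097237), (-0.4572368), 0.1097237, 0.4572368, (-0.0026517), (-1.5982909)] : Fin 8 → ℝ) k| ≤ 2 := by
    intro k; fin_cases k <;> simp <;> rw [abs_le] <;> constructor <;> norm_num
  refine (abs_sub_le _ (Gv ![1.0313303, (-0.3501648), (-0.1097237), (-0.4572368), 0.1097237, 0.4572368, (-0.0026517), (-1.5982909)] i) _).trans ?_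
  have hp := perturb (η := 5 / 10 ^ 7) (e := ![((-a + (a * (a ^ 2 - b ^ 2) - b * (2 * a * b))) / 2) - ((-b) / 2), ((-b + (a * (2 * a * b) + b * (a ^ 2 - b ^ 2))) / 2) + ((1 - a) / 2),
    ((-1 + (a * (a ^ 2 - b ^ 2) - b * (2 * a * b))) / 2) - ((0) / 2), (((a * (2 * a * b) + b * (a ^ 2 - b ^ 2))) / 2) + ((0) / 2),
    -((-1 + (a * (a ^ 2 - b ^ 2) - b * (2 * a * b))) / 2) - ((0) / 2), -(((a * (2 * a * b) + b * (a ^ 2 - b ^ 2))) / 2) + ((0) / 2),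
    ((-a + (a * (a ^ 2 - b ^ 2) - b * (2 * a * b))) / 2) + ((-b) / 2), ((-b + (a * (2 * a * b) + b * (a ^ 2 - b ^ 2))) / 2) - ((1 - a) / 2)])
    (E := ![1.0313303, (-0.3501648), (-0.1097237), (-0.4572368), 0.1097237, 0.4572368, (-0.0026517), (-1.5982909)]) ?_ hE (by norm_num) i
  · have hg : |Gv ![1.0313303, (-0.3501648), (-0.1097237), (-0.4572368), 0.1097237, 0.4572368, (-0.0026517), (-1.5982909)] i
        - (![15.36375, 8.1299, (-1.30328), (-2.8032)] : Fin 4 → ℝ) i| ≤ 1 / 10 ^ 5 := by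
      rw [abs_le]
      fin_cases i <;> simp [Gv] <;> norm_num
    refine (add_le_add hp hg).trans (by norm_num)
  · intro k
    rw [abs_le]
    fin_cases k <;> simp <;> first | (constructor <;> linarith) | norm_num

/-- coordinates of element 6 -/
def e6 : Fin 4 → ℤ[X] := ![-X - X ^ 3, -1 - X, 1 + 2 * X + 2 * X ^ 3, 1 - X ^ 2 - X ^ 3]

lemma e6_eq (t : ℂ) (ht : t ^ 4 = t + 1) : eltp t e6 = qm ((1) / 2) ((-t ^ 2 + t ^ 3) / 2)
    ((-1 + t ^ 3) / 2) ((-t ^ 2) / 2) := by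
  unfold eltp elt e6
  simp only [Matrix.cons_val_zero, Matrix.cons_val_one, Matrix.cons_val, map_add, map_sub, map_neg,
    map_mul, map_pow, map_one, map_zero, map_ofNat, aeval_X]
  congr 1
  · ring
  · ring
  · linear_combination ((-2 - t) / 2) * ht
  · linear_combination ((-2 - t) / 2) * ht

lemma e6_mem (Θ : Roots) : ∃ g ∈ Gam Θ, (g : Matrix (Fin 4) (Fin 4) ℝ)
    = Psi (eltp (Θ.θ 0) e6) := by
  apply mem_Gam Θ e6 (1)
  intro t ht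
  unfold e6 nn
  simp only [Matrix.cons_val_zero, Matrix.cons_val_one, Matrix.cons_val, map_add, map_sub, map_neg,
    map_mul, map_pow, map_one, map_zero, map_ofNat, aeval_X]
  linear_combination (-1 - 4 * t + t ^ 4 + t ^ 5) * ht

lemma e6_det (t : ℂ) (ht : t ^ 4 = t + 1) : (eltp t e6).det = 1 := by
  rw [e6_eq t ht, det_qm]
  linear_combination (1 / 2 - 1 / 2 * t + 1 / 2 * t ^ 2) * ht

lemma e6_img (Θ : Roots) (a b : ℝ) (h : Dat Θ a b) :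
    ∀ i, |(Phi (eltp (Θ.θ 0) e6) *ᵥ PP) i - (![9.48429, 3.91615, (-4.5397), (-0.08181)] : Fin 4 → ℝ) i|
      ≤ 13 / 10 ^ 5 := by
  have ht := Θ.eq 0
  obtain ⟨h2, h2', h3, h3'⟩ := encl2 ⟨h.ha, h.hb⟩
  have ha := abs_le.mp h.ha
  have hb := abs_le.mp h.hb
  have k2 := abs_le.mp h2
  have k2' := abs_le.mp h2'
  have k3 := abs_le.mp h3
  have k3' := abs_le.mp h3'
  rw [e6_eq _ ht]
  try rw [h.h0]
  have hq : qm ((1) / 2)
      ((-((a : ℂ) + (b : ℂ) * Complex.I) ^ 2 + ((a : ℂ) + (b : ℂ) * Complex.I) ^ 3) / 2)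
      ((-1 + ((a : ℂ) + (b : ℂ) * Complex.I) ^ 3) / 2)
      ((-((a : ℂ) + (b : ℂ) * Complex.I) ^ 2) / 2)
      = qm (((![(1) / 2, (-(a ^ 2 - b ^ 2) + (a * (a ^ 2 - b ^ 2) - b * (2 * a * b))) / 2,
          (-1 + (a * (a ^ 2 - b ^ 2) - b * (2 * a * b))) / 2, (-(a ^ 2 - b ^ 2)) / 2] : Fin 4 → ℝ) 0 : ℝ) + ((![(0) / 2,
          (-(2 * a * b) + (a * (2 * a * b) + b * (a ^ 2 - b ^ 2))) / 2, ((a * (2 * a * b) + b * (a ^ 2 - b ^ 2))) / 2, (-(2 * a * b)) / 2] : Fin 4 → ℝ) 0 : ℝ) * Complex.I)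
        (((![(1) / 2, (-(a ^ 2 - b ^ 2) + (a * (a ^ 2 - b ^ 2) - b * (2 * a * b))) / 2,
          (-1 + (a * (a ^ 2 - b ^ 2) - b * (2 * a * b))) / 2, (-(a ^ 2 - b ^ 2)) / 2] : Fin 4 → ℝ) 1 : ℝ) + ((![(0) / 2,
          (-(2 * a * b) + (a * (2 * a * b) + b * (a ^ 2 - b ^ 2))) / 2, ((a * (2 * a * b) + b * (a ^ 2 - b ^ 2))) / 2, (-(2 * a * b)) / 2] : Fin 4 → ℝ) 1 : ℝ) * Complex.I)
        (((![(1) / 2, (-(a ^ 2 - b ^ 2) + (a * (a ^ 2 - b ^ 2) - b * (2 * a * b))) / 2,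
          (-1 + (a * (a ^ 2 - b ^ 2) - b * (2 * a * b))) / 2, (-(a ^ 2 - b ^ 2)) / 2] : Fin 4 → ℝ) 2 : ℝ) + ((![(0) / 2,
          (-(2 * a * b) + (a * (2 * a * b) + b * (a ^ 2 - b ^ 2))) / 2, ((a * (2 * a * b) + b * (a ^ 2 - b ^ 2))) / 2, (-(2 * a * b)) / 2] : Fin 4 → ℝ) 2 : ℝ) * Complex.I)
        (((![(1) / 2, (-(a ^ 2 - b ^ 2) + (a * (a ^ 2 - b ^ 2) - b * (2 * a * b))) / 2,
          (-1 + (a * (a ^ 2 - b ^ 2) - b * (2 * a * b))) / 2, (-(a ^ 2 - b ^ 2)) / 2] : Fin 4 → ℝ) 3 : ℝ) + ((![(0) / 2,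
          (-(2 * a * b) + (a * (2 * a * b) + b * (a ^ 2 - b ^ 2))) / 2, ((a * (2 * a * b) + b * (a ^ 2 - b ^ 2))) / 2, (-(2 * a * b)) / 2] : Fin 4 → ℝ) 3 : ℝ) * Complex.I) := by
    simp only [pow2, pow3, Matrix.cons_val_zero, Matrix.cons_val_one, Matrix.cons_val]
    congr 1 <;> push_cast <;> ring
  rw [hq, Phi_PP, qm_entries]
  intro i
  have hE : ∀ k, |(![0.7006789, 0.8940524, (-0.3662816), 0.0465393, (-0.1468342), 0.961013, 0.2993211, (-0.8940524)] : Fin 8 → ℝ) k| ≤ 2 := by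
    intro k; fin_cases k <;> simp <;> rw [abs_le] <;> constructor <;> norm_num
  refine (abs_sub_le _ (Gv ![0.7006789, 0.8940524, (-0.3662816), 0.0465393, (-0.1468342), 0.961013, 0.2993211, (-0.8940524)] i) _).trans ?_
  have hp := perturb (η := 5 / 10 ^ 7) (e := ![((1) / 2) - ((-(2 * a * b) + (a * (2 * a * b) + b * (a ^ 2 - b ^ 2))) / 2), ((0) / 2) + ((-(a ^ 2 - b ^ 2) + (a * (a ^ 2 - b ^ 2) - b * (2 * a * b))) / 2),
    ((-1 + (a * (a ^ 2 - b ^ 2) - b * (2 * a * b))) / 2) - ((-(2 * a * b)) / 2), (((a * (2 * a * b) + b * (a ^ 2 - b ^ 2))) / 2) + ((-(a ^ 2 - b ^ 2)) / 2),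
    -((-1 + (a * (a ^ 2 - b ^ 2) - b * (2 * a * b))) / 2) - ((-(2 * a * b)) / 2), -(((a * (2 * a * b) + b * (a ^ 2 - b ^ 2))) / 2) + ((-(a ^ 2 - b ^ 2)) / 2),
    ((1) / 2) + ((-(2 * a * b) + (a * (2 * a * b) + b * (a ^ 2 - b ^ 2))) / 2), ((0) / 2) - ((-(a ^ 2 - b ^ 2) + (a * (a ^ 2 - b ^ 2) - b * (2 * a * b))) / 2)])
    (E := ![0.7006789, 0.8940524, (-0.3662816), 0.0465393, (-0.1468342), 0.961013, 0.2993211, (-0.8940524)]) ?_ hE (by norm_num) i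
  · have hg : |Gv ![0.7006789, 0.8940524, (-0.3662816), 0.0465393, (-0.1468342), 0.961013, 0.2993211, (-0.8940524)] i
        - (![9.48429, 3.91615, (-4.5397), (-0.08181)] : Fin 4 → ℝ) i| ≤ 1 / 10 ^ 5 := by
      rw [abs_le]
      fin_cases i <;> simp [Gv] <;> norm_num
    refine (add_le_add hp hg).trans (by norm_num)
  · intro k
    rw [abs_le]
    fin_cases k <;> simp <;> first | (constructor <;> linarith) | norm_num

/-- coordinates of element 7 -/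
def e7 : Fin 4 → ℤ[X] := ![1 + X + X ^ 3, 1 + X, -1 - 2 * X - 2 * X ^ 3, -1 + X ^ 2 + X ^ 3]

lemma e7_eq (t : ℂ) (ht : t ^ 4 = t + 1) : eltp t e7 = qm ((1) / 2) ((t ^ 2 - t ^ 3) / 2)
    ((1 - t ^ 3) / 2) ((t ^ 2) / 2) := by
  unfold eltp elt e7
  simp only [Matrix.cons_val_zero, Matrix.cons_val_one, Matrix.cons_val, map_add, map_sub, map_neg,
    map_mul, map_pow, map_one, map_zero, map_ofNat, aeval_X]
  congr 1
  · ring
  · ring
  · linear_combination ((2 + t) / 2) * ht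
  · linear_combination ((2 + t) / 2) * ht

lemma e7_mem (Θ : Roots) : ∃ g ∈ Gam Θ, (g : Matrix (Fin 4) (Fin 4) ℝ)
    = Psi (eltp (Θ.θ 0) e7) := by
  apply mem_Gam Θ e7 (1)
  intro t ht
  unfold e7 nn
  simp only [Matrix.cons_val_zero, Matrix.cons_val_one, Matrix.cons_val, map_add, map_sub, map_neg,
    map_mul, map_pow, map_one, map_zero, map_ofNat, aeval_X]
  linear_combination (-1 - 4 * t + t ^ 4 + t ^ 5) * ht

lemma e7_det (t : ℂ) (ht : t ^ 4 = t + 1) : (eltp t e7).det = 1 := by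
  rw [e7_eq t ht, det_qm]
  linear_combination (1 / 2 - 1 / 2 * t + 1 / 2 * t ^ 2) * ht

lemma e7_img (Θ : Roots) (a b : ℝ) (h : Dat Θ a b) :
    ∀ i, |(Phi (eltp (Θ.θ 0) e7) *ᵥ PP) i - (![10.10916, 6.23297, (-2.58822), (-1.62678)] : Fin 4 → ℝ) i|
      ≤ 13 / 10 ^ 5 := by
  have ht := Θ.eq 0
  obtain ⟨h2, h2', h3, h3'⟩ := encl2 ⟨h.ha, h.hb⟩
  have ha := abs_le.mp h.ha
  have hb := abs_le.mp h.hb
  have k2 := abs_le.mp h2
  have k2' := abs_le.mp h2'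
  have k3 := abs_le.mp h3
  have k3' := abs_le.mp h3'
  rw [e7_eq _ ht]
  try rw [h.h0]
  have hq : qm ((1) / 2)
      ((((a : ℂ) + (b : ℂ) * Complex.I) ^ 2 - ((a : ℂ) + (b : ℂ) * Complex.I) ^ 3) / 2)
      ((1 - ((a : ℂ) + (b : ℂ) * Complex.I) ^ 3) / 2)
      ((((a : ℂ) + (b : ℂ) * Complex.I) ^ 2) / 2)
      = qm (((![(1) / 2, ((a ^ 2 - b ^ 2) - (a * (a ^ 2 - b ^ 2) - b * (2 * a * b))) / 2,
          (1 - (a * (a ^ 2 - b ^ 2) - b * (2 * a * b))) / 2, ((a ^ 2 - b ^ 2)) / 2] : Fin 4 → ℝ) 0 : ℝ) + ((![(0) / 2,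
          ((2 * a * b) - (a * (2 * a * b) + b * (a ^ 2 - b ^ 2))) / 2, (-(a * (2 * a * b) + b * (a ^ 2 - b ^ 2))) / 2, ((2 * a * b)) / 2] : Fin 4 → ℝ) 0 : ℝ) * Complex.I)
        (((![(1) / 2, ((a ^ 2 - b ^ 2) - (a * (a ^ 2 - b ^ 2) - b * (2 * a * b))) / 2,
          (1 - (a * (a ^ 2 - b ^ 2) - b * (2 * a * b))) / 2, ((a ^ 2 - b ^ 2)) / 2] : Fin 4 → ℝ) 1 : ℝ) + ((![(0) / 2,
          ((2 * a * b) - (a * (2 * a * b) + b * (a ^ 2 - b ^ 2))) / 2, (-(a * (2 * a * b) + b * (a ^ 2 - b ^ 2))) / 2, ((2 * a * b)) / 2] : Fin 4 → ℝ) 1 : ℝ) * Complex.I)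
        (((![(1) / 2, ((a ^ 2 - b ^ 2) - (a * (a ^ 2 - b ^ 2) - b * (2 * a * b))) / 2,
          (1 - (a * (a ^ 2 - b ^ 2) - b * (2 * a * b))) / 2, ((a ^ 2 - b ^ 2)) / 2] : Fin 4 → ℝ) 2 : ℝ) + ((![(0) / 2,
          ((2 * a * b) - (a * (2 * a * b) + b * (a ^ 2 - b ^ 2))) / 2, (-(a * (2 * a * b) + b * (a ^ 2 - b ^ 2))) / 2, ((2 * a * b)) / 2] : Fin 4 → ℝ) 2 : ℝ) * Complex.I)
        (((![(1) / 2, ((a ^ 2 - b ^ 2) - (a * (a ^ 2 - b ^ 2) - b * (2 * a * b))) / 2,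
          (1 - (a * (a ^ 2 - b ^ 2) - b * (2 * a * b))) / 2, ((a ^ 2 - b ^ 2)) / 2] : Fin 4 → ℝ) 3 : ℝ) + ((![(0) / 2,
          ((2 * a * b) - (a * (2 * a * b) + b * (a ^ 2 - b ^ 2))) / 2, (-(a * (2 * a * b) + b * (a ^ 2 - b ^ 2))) / 2, ((2 * a * b)) / 2] : Fin 4 → ℝ) 3 : ℝ) * Complex.I) := by
    simp only [pow2, pow3, Matrix.cons_val_zero, Matrix.cons_val_one, Matrix.cons_val]
    congr 1 <;> push_cast <;> ring
  rw [hq, Phi_PP, qm_entries]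
  intro i
  have hE : ∀ k, |(![0.2993211, (-0.8940524), 0.3662816, (-0.0465393), 0.1468342, (-0.961013), 0.7006789, 0.8940524] : Fin 8 → ℝ) k| ≤ 2 := by
    intro k; fin_cases k <;> simp <;> rw [abs_le] <;> constructor <;> norm_num
  refine (abs_sub_le _ (Gv ![0.2993211, (-0.8940524), 0.3662816, (-0.0465393), 0.1468342, (-0.961013), 0.7006789, 0.8940524] i) _).trans ?_
  have hp := perturb (η := 5 / 10 ^ 7) (e := ![((1) / 2) - (((2 * a * b) - (a * (2 * a * b) + b * (a ^ 2 - b ^ 2))) / 2), ((0) / 2) + (((a ^ 2 - b ^ 2) - (a * (a ^ 2 - b ^ 2) - b * (2 * a * b))) / 2),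
    ((1 - (a * (a ^ 2 - b ^ 2) - b * (2 * a * b))) / 2) - (((2 * a * b)) / 2), ((-(a * (2 * a * b) + b * (a ^ 2 - b ^ 2))) / 2) + (((a ^ 2 - b ^ 2)) / 2),
    -((1 - (a * (a ^ 2 - b ^ 2) - b * (2 * a * b))) / 2) - (((2 * a * b)) / 2), -((-(a * (2 * a * b) + b * (a ^ 2 - b ^ 2))) / 2) + (((a ^ 2 - b ^ 2)) / 2),
    ((1) / 2) + (((2 * a * b) - (a * (2 * a * b) + b * (a ^ 2 - b ^ 2))) / 2), ((0) / 2) - (((a ^ 2 - b ^ 2) - (a * (a ^ 2 - b ^ 2) - b * (2 * a * b))) / 2)])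
    (E := ![0.2993211, (-0.8940524), 0.3662816, (-0.0465393), 0.1468342, (-0.961013), 0.7006789, 0.8940524]) ?_ hE (by norm_num) i
  · have hg : |Gv ![0.2993211, (-0.8940524), 0.3662816, (-0.0465393), 0.1468342, (-0.961013), 0.7006789, 0.8940524] i
        - (![10.10916, 6.23297, (-2.58822), (-1.62678)] : Fin 4 → ℝ) i| ≤ 1 / 10 ^ 5 := by
      rw [abs_le]
      fin_cases i <;> simp [Gv] <;> norm_num
    refine (add_le_add hp hg).trans (by norm_num)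
  · intro k
    rw [abs_le]
    fin_cases k <;> simp <;> first | (constructor <;> linarith) | norm_num

/-- coordinates of element 8 -/
def e8 : Fin 4 → ℤ[X] := ![0, -1 + X ^ 3, 0, 2 - X ^ 3]

lemma e8_eq (t : ℂ) (ht : t ^ 4 = t + 1) : eltp t e8 = qm ((0) / 2) ((t ^ 3) / 2)
    ((-1 + t ^ 2) / 2) ((1 + t ^ 2 - t ^ 3) / 2) := by
  unfold eltp elt e8
  simp only [Matrix.cons_val_zero, Matrix.cons_val_one, Matrix.cons_val, map_add, map_sub, map_neg,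
    map_mul, map_pow, map_one, map_zero, map_ofNat, aeval_X]
  congr 1
  · ring
  · ring
  · linear_combination ((-1 - t) / 2) * ht
  · linear_combination ((-1 - t) / 2) * ht

lemma e8_mem (Θ : Roots) : ∃ g ∈ Gam Θ, (g : Matrix (Fin 4) (Fin 4) ℝ)
    = Psi (eltp (Θ.θ 0) e8) := by
  apply mem_Gam Θ e8 (1)
  intro t ht
  unfold e8 nn
  simp only [Matrix.cons_val_zero, Matrix.cons_val_one, Matrix.cons_val, map_add, map_sub, map_neg,
    map_mul, map_pow, map_one, map_zero, map_ofNat, aeval_X]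
  linear_combination (-2 - 2 * t - 2 * t ^ 2 + t ^ 3 + t ^ 4 + t ^ 5) * ht

lemma e8_det (t : ℂ) (ht : t ^ 4 = t + 1) : (eltp t e8).det = 1 := by
  rw [e8_eq t ht, det_qm]
  linear_combination (1 / 2 - 1 / 2 * t + 1 / 2 * t ^ 2) * ht

lemma e8_img (Θ : Roots) (a b : ℝ) (h : Dat Θ a b) :
    ∀ i, |(Phi (eltp (Θ.θ 0) e8) *ᵥ PP) i - (![9.89171, 5.91592, (-0.95111), 2.81838] : Fin 4 → ℝ) i|
      ≤ 13 / 10 ^ 5 := by
  have ht := Θ.eq 0
  obtain ⟨h2, h2', h3, h3'⟩ := encl2 ⟨h.ha, h.hb⟩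
  have ha := abs_le.mp h.ha
  have hb := abs_le.mp h.hb
  have k2 := abs_le.mp h2
  have k2' := abs_le.mp h2'
  have k3 := abs_le.mp h3
  have k3' := abs_le.mp h3'
  rw [e8_eq _ ht]
  try rw [h.h0]
  have hq : qm ((0) / 2)
      ((((a : ℂ) + (b : ℂ) * Complex.I) ^ 3) / 2)
      ((-1 + ((a : ℂ) + (b : ℂ) * Complex.I) ^ 2) / 2)
      ((1 + ((a : ℂ) + (b : ℂ) * Complex.I) ^ 2 - ((a : ℂ) + (b : ℂ) * Complex.I) ^ 3) / 2)
      = qm (((![(0) / 2, ((a * (a ^ 2 - b ^ 2) - b * (2 * a * b))) / 2,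
          (-1 + (a ^ 2 - b ^ 2)) / 2, (1 + (a ^ 2 - b ^ 2) - (a * (a ^ 2 - b ^ 2) - b * (2 * a * b))) / 2] : Fin 4 → ℝ) 0 : ℝ) + ((![(0) / 2,
          ((a * (2 * a * b) + b * (a ^ 2 - b ^ 2))) / 2, ((2 * a * b)) / 2, ((2 * a * b) - (a * (2 * a * b) + b * (a ^ 2 - b ^ 2))) / 2] : Fin 4 → ℝ) 0 : ℝ) * Complex.I)
        (((![(0) / 2, ((a * (a ^ 2 - b ^ 2) - b * (2 * a * b))) / 2,
          (-1 + (a ^ 2 - b ^ 2)) / 2, (1 + (a ^ 2 - b ^ 2) - (a * (a ^ 2 - b ^ 2) - b * (2 * a * b))) / 2] : Fin 4 → ℝ) 1 : ℝ) + ((![(0) / 2,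
          ((a * (2 * a * b) + b * (a ^ 2 - b ^ 2))) / 2, ((2 * a * b)) / 2, ((2 * a * b) - (a * (2 * a * b) + b * (a ^ 2 - b ^ 2))) / 2] : Fin 4 → ℝ) 1 : ℝ) * Complex.I)
        (((![(0) / 2, ((a * (a ^ 2 - b ^ 2) - b * (2 * a * b))) / 2,
          (-1 + (a ^ 2 - b ^ 2)) / 2, (1 + (a ^ 2 - b ^ 2) - (a * (a ^ 2 - b ^ 2) - b * (2 * a * b))) / 2] : Fin 4 → ℝ) 2 : ℝ) + ((![(0) / 2,
          ((a * (2 * a * b) + b * (a ^ 2 - b ^ 2))) / 2, ((2 * a * b)) / 2, ((2 * a * b) - (a * (2 * a * b) + b * (a ^ 2 - b ^ 2))) / 2] : Fin 4 → ℝ) 2 : ℝ) * Complex.I)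
        (((![(0) / 2, ((a * (a ^ 2 - b ^ 2) - b * (2 * a * b))) / 2,
          (-1 + (a ^ 2 - b ^ 2)) / 2, (1 + (a ^ 2 - b ^ 2) - (a * (a ^ 2 - b ^ 2) - b * (2 * a * b))) / 2] : Fin 4 → ℝ) 3 : ℝ) + ((![(0) / 2,
          ((a * (2 * a * b) + b * (a ^ 2 - b ^ 2))) / 2, ((2 * a * b)) / 2, ((2 * a * b) - (a * (2 * a * b) + b * (a ^ 2 - b ^ 2))) / 2] : Fin 4 → ℝ) 3 : ℝ) * Complex.I) := by
    simp only [pow2, pow3, Matrix.cons_val_zero, Matrix.cons_val_one, Matrix.cons_val]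
    congr 1 <;> push_cast <;> ring
  rw [hq, Phi_PP, qm_entries]
  intro i
  have hE : ∀ k, |(![0.4572368, 0.3902763, (-1.2044551), (-0.6506103), 0.8030972, (-0.1374945), (-0.4572368), (-0.3902763)] : Fin 8 → ℝ) k| ≤ 2 := by
    intro k; fin_cases k <;> simp <;> rw [abs_le] <;> constructor <;> norm_num
  refine (abs_sub_le _ (Gv ![0.4572368, 0.3902763, (-1.2044551), (-0.6506103), 0.8030972, (-0.1374945), (-0.4572368), (-0.3902763)] i) _).trans ?_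
  have hp := perturb (η := 5 / 10 ^ 7) (e := ![((0) / 2) - (((a * (2 * a * b) + b * (a ^ 2 - b ^ 2))) / 2), ((0) / 2) + (((a * (a ^ 2 - b ^ 2) - b * (2 * a * b))) / 2),
    ((-1 + (a ^ 2 - b ^ 2)) / 2) - (((2 * a * b) - (a * (2 * a * b) + b * (a ^ 2 - b ^ 2))) / 2), (((2 * a * b)) / 2) + ((1 + (a ^ 2 - b ^ 2) - (a * (a ^ 2 - b ^ 2) - b * (2 * a * b))) / 2),
    -((-1 + (a ^ 2 - b ^ 2)) / 2) - (((2 * a * b) - (a * (2 * a * b) + b * (a ^ 2 - b ^ 2))) / 2), -(((2 * a * b)) / 2) + ((1 + (a ^ 2 - b ^ 2) - (a * (a ^ 2 - b ^ 2) - b * (2 * a * b))) / 2),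
    ((0) / 2) + (((a * (2 * a * b) + b * (a ^ 2 - b ^ 2))) / 2), ((0) / 2) - (((a * (a ^ 2 - b ^ 2) - b * (2 * a * b))) / 2)])
    (E := ![0.4572368, 0.3902763, (-1.2044551), (-0.6506103), 0.8030972, (-0.1374945), (-0.4572368), (-0.3902763)]) ?_ hE (by norm_num) i
  · have hg : |Gv ![0.4572368, 0.3902763, (-1.2044551), (-0.6506103), 0.8030972, (-0.1374945), (-0.4572368), (-0.3902763)] i
        - (![9.89171, 5.91592, (-0.95111), 2.81838] : Fin 4 → ℝ) i| ≤ 1 / 10 ^ 5 := by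
      rw [abs_le]
      fin_cases i <;> simp [Gv] <;> norm_num
    refine (add_le_add hp hg).trans (by norm_num)
  · intro k
    rw [abs_le]
    fin_cases k <;> simp <;> first | (constructor <;> linarith) | norm_num

/-- coordinates of element 9 -/
def e9 : Fin 4 → ℤ[X] := ![1, 0, -1, 0]

lemma e9_eq (t : ℂ) (ht : t ^ 4 = t + 1) : eltp t e9 = qm ((1) / 2) ((-1) / 2)
    ((-1) / 2) ((-1) / 2) := by
  unfold eltp elt e9
  simp only [Matrix.cons_val_zero, Matrix.cons_val_one, Matrix.cons_val, map_add, map_sub, map_neg,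
    map_mul, map_pow, map_one, map_zero, map_ofNat, aeval_X]
  congr 1
  · ring
  · ring
  · linear_combination ((0) / 2) * ht
  · linear_combination ((0) / 2) * ht

lemma e9_mem (Θ : Roots) : ∃ g ∈ Gam Θ, (g : Matrix (Fin 4) (Fin 4) ℝ)
    = Psi (eltp (Θ.θ 0) e9) := by
  apply mem_Gam Θ e9 (1)
  intro t ht
  unfold e9 nn
  simp only [Matrix.cons_val_zero, Matrix.cons_val_one, Matrix.cons_val, map_add, map_sub, map_neg,
    map_mul, map_pow, map_one, map_zero, map_ofNat, aeval_X]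
  linear_combination (0) * ht

lemma e9_det (t : ℂ) (ht : t ^ 4 = t + 1) : (eltp t e9).det = 1 := by
  rw [e9_eq t ht, det_qm]
  linear_combination (0) * ht

lemma e9_img (Θ : Roots) (a b : ℝ) (h : Dat Θ a b) :
    ∀ i, |(Phi (eltp (Θ.θ 0) e9) *ᵥ PP) i - (![8, 0, (-3), 1] : Fin 4 → ℝ) i|
      ≤ 13 / 10 ^ 5 := by
  have ht := Θ.eq 0
  obtain ⟨h2, h2', h3, h3'⟩ := encl2 ⟨h.ha, h.hb⟩
  have ha := abs_le.mp h.ha
  have hb := abs_le.mp h.hb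
  have k2 := abs_le.mp h2
  have k2' := abs_le.mp h2'
  have k3 := abs_le.mp h3
  have k3' := abs_le.mp h3'
  rw [e9_eq _ ht]
  try rw [h.h0]
  have hq : qm ((1) / 2)
      ((-1) / 2)
      ((-1) / 2)
      ((-1) / 2)
      = qm (((![(1) / 2, (-1) / 2,
          (-1) / 2, (-1) / 2] : Fin 4 → ℝ) 0 : ℝ) + ((![(0) / 2,
          (0) / 2, (0) / 2, (0) / 2] : Fin 4 → ℝ) 0 : ℝ) * Complex.I)
        (((![(1) / 2, (-1) / 2,
          (-1) / 2, (-1) / 2] : Fin 4 → ℝ) 1 : ℝ) + ((![(0) / 2,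
          (0) / 2, (0) / 2, (0) / 2] : Fin 4 → ℝ) 1 : ℝ) * Complex.I)
        (((![(1) / 2, (-1) / 2,
          (-1) / 2, (-1) / 2] : Fin 4 → ℝ) 2 : ℝ) + ((![(0) / 2,
          (0) / 2, (0) / 2, (0) / 2] : Fin 4 → ℝ) 2 : ℝ) * Complex.I)
        (((![(1) / 2, (-1) / 2,
          (-1) / 2, (-1) / 2] : Fin 4 → ℝ) 3 : ℝ) + ((![(0) / 2,
          (0) / 2, (0) / 2, (0) / 2] : Fin 4 → ℝ) 3 : ℝ) * Complex.I) := by
    simp only [pow2, pow3, Matrix.cons_val_zero, Matrix.cons_val_one, Matrix.cons_val]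
    congr 1 <;> push_cast <;> ring
  rw [hq, Phi_PP, qm_entries]
  intro i
  have hE : ∀ k, |(![0.5, (-0.5), (-0.5), (-0.5), 0.5, (-0.5), 0.5, 0.5] : Fin 8 → ℝ) k| ≤ 2 := by
    intro k; fin_cases k <;> simp <;> rw [abs_le] <;> constructor <;> norm_num
  refine (abs_sub_le _ (Gv ![0.5, (-0.5), (-0.5), (-0.5), 0.5, (-0.5), 0.5, 0.5] i) _).trans ?_
  have hp := perturb (η := 5 / 10 ^ 7) (e := ![((1) / 2) - ((0) / 2), ((0) / 2) + ((-1) / 2),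
    ((-1) / 2) - ((0) / 2), ((0) / 2) + ((-1) / 2),
    -((-1) / 2) - ((0) / 2), -((0) / 2) + ((-1) / 2),
    ((1) / 2) + ((0) / 2), ((0) / 2) - ((-1) / 2)])
    (E := ![0.5, (-0.5), (-0.5), (-0.5), 0.5, (-0.5), 0.5, 0.5]) ?_ hE (by norm_num) i
  · have hg : |Gv ![0.5, (-0.5), (-0.5), (-0.5), 0.5, (-0.5), 0.5, 0.5] i
        - (![8, 0, (-3), 1] : Fin 4 → ℝ) i| ≤ 1 / 10 ^ 5 := by
      rw [abs_le]
      fin_cases i <;> simp [Gv] <;> norm_num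
    refine (add_le_add hp hg).trans (by norm_num)
  · intro k
    rw [abs_le]
    fin_cases k <;> simp <;> first | (constructor <;> linarith) | norm_num

/-- coordinates of element 11 -/
def e11 : Fin 4 → ℤ[X] := ![1, 1, -1, 0]

lemma e11_eq (t : ℂ) (ht : t ^ 4 = t + 1) : eltp t e11 = qm ((1) / 2) ((1) / 2)
    ((-1) / 2) ((-1) / 2) := by
  unfold eltp elt e11
  simp only [Matrix.cons_val_zero, Matrix.cons_val_one, Matrix.cons_val, map_add, map_sub, map_neg,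
    map_mul, map_pow, map_one, map_zero, map_ofNat, aeval_X]
  congr 1
  · ring
  · ring
  · linear_combination ((0) / 2) * ht
  · linear_combination ((0) / 2) * ht

lemma e11_mem (Θ : Roots) : ∃ g ∈ Gam Θ, (g : Matrix (Fin 4) (Fin 4) ℝ)
    = Psi (eltp (Θ.θ 0) e11) := by
  apply mem_Gam Θ e11 (1)
  intro t ht
  unfold e11 nn
  simp only [Matrix.cons_val_zero, Matrix.cons_val_one, Matrix.cons_val, map_add, map_sub, map_neg,
    map_mul, map_pow, map_one, map_zero, map_ofNat, aeval_X]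
  linear_combination (0) * ht

lemma e11_det (t : ℂ) (ht : t ^ 4 = t + 1) : (eltp t e11).det = 1 := by
  rw [e11_eq t ht, det_qm]
  linear_combination (0) * ht

lemma e11_img (Θ : Roots) (a b : ℝ) (h : Dat Θ a b) :
    ∀ i, |(Phi (eltp (Θ.θ 0) e11) *ᵥ PP) i - (![8, 1, 0, (-3)] : Fin 4 → ℝ) i|
      ≤ 13 / 10 ^ 5 := by
  have ht := Θ.eq 0
  obtain ⟨h2, h2', h3, h3'⟩ := encl2 ⟨h.ha, h.hb⟩
  have ha := abs_le.mp h.ha
  have hb := abs_le.mp h.hb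
  have k2 := abs_le.mp h2
  have k2' := abs_le.mp h2'
  have k3 := abs_le.mp h3
  have k3' := abs_le.mp h3'
  rw [e11_eq _ ht]
  try rw [h.h0]
  have hq : qm ((1) / 2)
      ((1) / 2)
      ((-1) / 2)
      ((-1) / 2)
      = qm (((![(1) / 2, (1) / 2,
          (-1) / 2, (-1) / 2] : Fin 4 → ℝ) 0 : ℝ) + ((![(0) / 2,
          (0) / 2, (0) / 2, (0) / 2] : Fin 4 → ℝ) 0 : ℝ) * Complex.I)
        (((![(1) / 2, (1) / 2,
          (-1) / 2, (-1) / 2] : Fin 4 → ℝ) 1 : ℝ) + ((![(0) / 2,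
          (0) / 2, (0) / 2, (0) / 2] : Fin 4 → ℝ) 1 : ℝ) * Complex.I)
        (((![(1) / 2, (1) / 2,
          (-1) / 2, (-1) / 2] : Fin 4 → ℝ) 2 : ℝ) + ((![(0) / 2,
          (0) / 2, (0) / 2, (0) / 2] : Fin 4 → ℝ) 2 : ℝ) * Complex.I)
        (((![(1) / 2, (1) / 2,
          (-1) / 2, (-1) / 2] : Fin 4 → ℝ) 3 : ℝ) + ((![(0) / 2,
          (0) / 2, (0) / 2, (0) / 2] : Fin 4 → ℝ) 3 : ℝ) * Complex.I) := by
    simp only [pow2, pow3, Matrix.cons_val_zero, Matrix.cons_val_one, Matrix.cons_val]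
    congr 1 <;> push_cast <;> ring
  rw [hq, Phi_PP, qm_entries]
  intro i
  have hE : ∀ k, |(![0.5, 0.5, (-0.5), (-0.5), 0.5, (-0.5), 0.5, (-0.5)] : Fin 8 → ℝ) k| ≤ 2 := by
    intro k; fin_cases k <;> simp <;> rw [abs_le] <;> constructor <;> norm_num
  refine (abs_sub_le _ (Gv ![0.5, 0.5, (-0.5), (-0.5), 0.5, (-0.5), 0.5, (-0.5)] i) _).trans ?_
  have hp := perturb (η := 5 / 10 ^ 7) (e := ![((1) / 2) - ((0) / 2), ((0) / 2) + ((1) / 2),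
    ((-1) / 2) - ((0) / 2), ((0) / 2) + ((-1) / 2),
    -((-1) / 2) - ((0) / 2), -((0) / 2) + ((-1) / 2),
    ((1) / 2) + ((0) / 2), ((0) / 2) - ((1) / 2)])
    (E := ![0.5, 0.5, (-0.5), (-0.5), 0.5, (-0.5), 0.5, (-0.5)]) ?_ hE (by norm_num) i
  · have hg : |Gv ![0.5, 0.5, (-0.5), (-0.5), 0.5, (-0.5), 0.5, (-0.5)] i
        - (![8, 1, 0, (-3)] : Fin 4 → ℝ) i| ≤ 1 / 10 ^ 5 := by
      rw [abs_le]
      fin_cases i <;> simp [Gv] <;> norm_num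
    refine (add_le_add hp hg).trans (by norm_num)
  · intro k
    rw [abs_le]
    fin_cases k <;> simp <;> first | (constructor <;> linarith) | norm_num

/-- coordinates of element 12 -/
def e12 : Fin 4 → ℤ[X] := ![0, 0, 1, 0]

lemma e12_eq (t : ℂ) (ht : t ^ 4 = t + 1) : eltp t e12 = qm ((1) / 2) ((1) / 2)
    ((1) / 2) ((1) / 2) := by
  unfold eltp elt e12
  simp only [Matrix.cons_val_zero, Matrix.cons_val_one, Matrix.cons_val, map_add, map_sub, map_neg,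
    map_mul, map_pow, map_one, map_zero, map_ofNat, aeval_X]
  congr 1
  · ring
  · ring
  · linear_combination ((0) / 2) * ht
  · linear_combination ((0) / 2) * ht

lemma e12_mem (Θ : Roots) : ∃ g ∈ Gam Θ, (g : Matrix (Fin 4) (Fin 4) ℝ)
    = Psi (eltp (Θ.θ 0) e12) := by
  apply mem_Gam Θ e12 (1)
  intro t ht
  unfold e12 nn
  simp only [Matrix.cons_val_zero, Matrix.cons_val_one, Matrix.cons_val, map_add, map_sub, map_neg,
    map_mul, map_pow, map_one, map_zero, map_ofNat, aeval_X]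
  linear_combination (0) * ht

lemma e12_det (t : ℂ) (ht : t ^ 4 = t + 1) : (eltp t e12).det = 1 := by
  rw [e12_eq t ht, det_qm]
  linear_combination (0) * ht

lemma e12_img (Θ : Roots) (a b : ℝ) (h : Dat Θ a b) :
    ∀ i, |(Phi (eltp (Θ.θ 0) e12) *ᵥ PP) i - (![8, 1, 0, 3] : Fin 4 → ℝ) i|
      ≤ 13 / 10 ^ 5 := by
  have ht := Θ.eq 0
  obtain ⟨h2, h2', h3, h3'⟩ := encl2 ⟨h.ha, h.hb⟩
  have ha := abs_le.mp h.ha
  have hb := abs_le.mp h.hb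
  have k2 := abs_le.mp h2
  have k2' := abs_le.mp h2'
  have k3 := abs_le.mp h3
  have k3' := abs_le.mp h3'
  rw [e12_eq _ ht]
  try rw [h.h0]
  have hq : qm ((1) / 2)
      ((1) / 2)
      ((1) / 2)
      ((1) / 2)
      = qm (((![(1) / 2, (1) / 2,
          (1) / 2, (1) / 2] : Fin 4 → ℝ) 0 : ℝ) + ((![(0) / 2,
          (0) / 2, (0) / 2, (0) / 2] : Fin 4 → ℝ) 0 : ℝ) * Complex.I)
        (((![(1) / 2, (1) / 2,
          (1) / 2, (1) / 2] : Fin 4 → ℝ) 1 : ℝ) + ((![(0) / 2,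
          (0) / 2, (0) / 2, (0) / 2] : Fin 4 → ℝ) 1 : ℝ) * Complex.I)
        (((![(1) / 2, (1) / 2,
          (1) / 2, (1) / 2] : Fin 4 → ℝ) 2 : ℝ) + ((![(0) / 2,
          (0) / 2, (0) / 2, (0) / 2] : Fin 4 → ℝ) 2 : ℝ) * Complex.I)
        (((![(1) / 2, (1) / 2,
          (1) / 2, (1) / 2] : Fin 4 → ℝ) 3 : ℝ) + ((![(0) / 2,
          (0) / 2, (0) / 2, (0) / 2] : Fin 4 → ℝ) 3 : ℝ) * Complex.I) := by
    simp only [pow2, pow3, Matrix.cons_val_zero, Matrix.cons_val_one, Matrix.cons_val]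
    congr 1 <;> push_cast <;> ring
  rw [hq, Phi_PP, qm_entries]
  intro i
  have hE : ∀ k, |(![0.5, 0.5, 0.5, 0.5, (-0.5), 0.5, 0.5, (-0.5)] : Fin 8 → ℝ) k| ≤ 2 := by
    intro k; fin_cases k <;> simp <;> rw [abs_le] <;> constructor <;> norm_num
  refine (abs_sub_le _ (Gv ![0.5, 0.5, 0.5, 0.5, (-0.5), 0.5, 0.5, (-0.5)] i) _).trans ?_
  have hp := perturb (η := 5 / 10 ^ 7) (e := ![((1) / 2) - ((0) / 2), ((0) / 2) + ((1) / 2),
    ((1) / 2) - ((0) / 2), ((0) / 2) + ((1) / 2),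
    -((1) / 2) - ((0) / 2), -((0) / 2) + ((1) / 2),
    ((1) / 2) + ((0) / 2), ((0) / 2) - ((1) / 2)])
    (E := ![0.5, 0.5, 0.5, 0.5, (-0.5), 0.5, 0.5, (-0.5)]) ?_ hE (by norm_num) i
  · have hg : |Gv ![0.5, 0.5, 0.5, 0.5, (-0.5), 0.5, 0.5, (-0.5)] i
        - (![8, 1, 0, 3] : Fin 4 → ℝ) i| ≤ 1 / 10 ^ 5 := by
      rw [abs_le]
      fin_cases i <;> simp [Gv] <;> norm_num
    refine (add_le_add hp hg).trans (by norm_num)
  · intro k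
    rw [abs_le]
    fin_cases k <;> simp <;> first | (constructor <;> linarith) | norm_num


lemma Psi_unit (x : M2) (h : x.det = 1) : Psi x = Phi x := by
  rw [Psi_apply, h, norm_one, inv_one, one_smul]

lemma sq_bd {x A B : ℝ} (h1 : -A ≤ x) (h2 : x ≤ -B) (hB : 0 < B) :
    B ^ 2 ≤ x ^ 2 ∧ x ^ 2 ≤ A ^ 2 := by
  constructor <;> nlinarith

lemma le_of_sq_le_sq' {x y : ℝ} (h : x ^ 2 ≤ y ^ 2) (hy : 0 ≤ y) : x ≤ y := by
  by_contra hcon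
  push Not at hcon
  nlinarith

lemma kap_bd (Θ : Roots) (a b : ℝ) (h : Dat Θ a b) :
    |‖(Θ.θ 0) ^ 2 - Θ.θ 0‖ - 1.7234385| ≤ 1 / 10 ^ 6 := by
  obtain ⟨h2, h2', h3, h3'⟩ := encl2 ⟨h.ha, h.hb⟩
  have ha := abs_le.mp h.ha
  have hb := abs_le.mp h.hb
  have k2 := abs_le.mp h2
  have k2' := abs_le.mp h2'
  have hz : (Θ.θ 0) ^ 2 - Θ.θ 0 = ((a ^ 2 - b ^ 2 - a : ℝ) : ℂ)
      + ((2 * a * b - b : ℝ) : ℂ) * Complex.I := by
    rw [h.h0, pow2]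
    push_cast
    ring
  rw [hz]
  set z : ℂ := ((a ^ 2 - b ^ 2 - a : ℝ) : ℂ) + ((2 * a * b - b : ℝ) : ℂ) * Complex.I with hzd
  have hsq : ‖z‖ ^ 2 = (a ^ 2 - b ^ 2 - a) ^ 2 + (2 * a * b - b) ^ 2 := by
    rw [← Complex.normSq_eq_norm_sq, Complex.normSq_apply]
    have e1 : z.re = a ^ 2 - b ^ 2 - a := by
      rw [hzd]
      simp only [Complex.add_re, Complex.mul_re, Complex.ofReal_re, Complex.ofReal_im,
        Complex.I_re, Complex.I_im]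
      ring
    have e2 : z.im = 2 * a * b - b := by
      rw [hzd]
      simp only [Complex.add_im, Complex.mul_im, Complex.ofReal_re, Complex.ofReal_im,
        Complex.I_re, Complex.I_im]
      ring
    rw [e1, e2]
    ring
  have hu := sq_bd (x := a ^ 2 - b ^ 2 - a) (A := 0.7594264) (B := 0.7594262)
    (by linarith) (by linarith) (by norm_num)
  have hv := sq_bd (x := 2 * a * b - b) (A := 1.547098) (B := 1.5470977)
    (by linarith) (by linarith) (by norm_num)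
  have hn := norm_nonneg z
  have s1 : ‖z‖ ^ 2 ≤ 1.7234390 ^ 2 := by
    rw [hsq]; linarith
  have s2 : 1.7234380 ^ 2 ≤ ‖z‖ ^ 2 := by
    rw [hsq]; linarith
  have t1 : ‖z‖ ≤ 1.7234390 := le_of_sq_le_sq' s1 (by norm_num)
  have t2 : 1.7234380 ≤ ‖z‖ := le_of_sq_le_sq' s2 hn
  rw [abs_le]
  constructor <;> linarith

lemma e0_w (Θ : Roots) (a b : ℝ) (h : Dat Θ a b) :
    ∀ i, |(Psi (eltp (Θ.θ 0) e0) *ᵥ PP) i - (![8, 3, 1, 0] : Fin 4 → ℝ) i|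
      ≤ 2 / 10 ^ 4 := by
  intro i
  rw [Psi_unit _ (e0_det _ (Θ.eq 0))]
  have h1 := abs_le.mp (e0_img Θ a b h i)
  rw [abs_le]
  fin_cases i <;> simp at h1 ⊢ <;> constructor <;> linarith [h1.1, h1.2]

lemma e1_w (Θ : Roots) (a b : ℝ) (h : Dat Θ a b) :
    ∀ i, |(Psi (eltp (Θ.θ 0) e1) *ᵥ PP) i - (![8.12066, 2.01623, (-2.8033), 0.14668] : Fin 4 → ℝ) i|
      ≤ 2 / 10 ^ 4 := by
  have hk := abs_le.mp (kap_bd Θ a b h)
  intro i
  rw [Psi_apply, e1_det _ (Θ.eq 0), Matrix.smul_mulVec, Pi.smul_apply, smul_eq_mul]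
  have h1 := abs_le.mp (e1_img Θ a b h i)
  generalize ‖(Θ.θ 0) ^ 2 - Θ.θ 0‖ = κ at hk ⊢
  have hk0 : 0 < κ := by linarith
  have hki : κ⁻¹ ≤ 1 := inv_le_one_of_one_le₀ (by linarith)
  have hki0 : 0 < κ⁻¹ := inv_pos.mpr hk0
  have key : ∀ u v : ℝ, |u - κ * v| ≤ 2 / 10 ^ 4 → |κ⁻¹ * u - v| ≤ 2 / 10 ^ 4 := by
    intro u v huv
    have e : κ⁻¹ * u - v = κ⁻¹ * (u - κ * v) := by field_simp
    rw [e, abs_mul, abs_of_pos hki0]
    calc κ⁻¹ * |u - κ * v| ≤ 1 * |u - κ * v| := by gcongr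
      _ ≤ 2 / 10 ^ 4 := by linarith
  apply key
  rw [abs_le]
  fin_cases i <;> simp at h1 ⊢ <;> constructor <;> linarith [h1.1, h1.2]

lemma e2_w (Θ : Roots) (a b : ℝ) (h : Dat Θ a b) :
    ∀ i, |(Psi (eltp (Θ.θ 0) e2) *ᵥ PP) i - (![8.12066, 2.8033, (-0.14668), 2.01623] : Fin 4 → ℝ) i|
      ≤ 2 / 10 ^ 4 := by
  have hk := abs_le.mp (kap_bd Θ a b h)
  intro i
  rw [Psi_apply, e2_det _ (Θ.eq 0), Matrix.smul_mulVec, Pi.smul_apply, smul_eq_mul]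
  have h1 := abs_le.mp (e2_img Θ a b h i)
  generalize ‖(Θ.θ 0) ^ 2 - Θ.θ 0‖ = κ at hk ⊢
  have hk0 : 0 < κ := by linarith
  have hki : κ⁻¹ ≤ 1 := inv_le_one_of_one_le₀ (by linarith)
  have hki0 : 0 < κ⁻¹ := inv_pos.mpr hk0
  have key : ∀ u v : ℝ, |u - κ * v| ≤ 2 / 10 ^ 4 → |κ⁻¹ * u - v| ≤ 2 / 10 ^ 4 := by
    intro u v huv
    have e : κ⁻¹ * u - v = κ⁻¹ * (u - κ * v) := by field_simp
    rw [e, abs_mul, abs_of_pos hki0]
    calc κ⁻¹ * |u - κ * v| ≤ 1 * |u - κ * v| := by gcongr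
      _ ≤ 2 / 10 ^ 4 := by linarith
  apply key
  rw [abs_le]
  fin_cases i <;> simp at h1 ⊢ <;> constructor <;> linarith [h1.1, h1.2]

lemma e3_w (Θ : Roots) (a b : ℝ) (h : Dat Θ a b) :
    ∀ i, |(Psi (eltp (Θ.θ 0) e3) *ᵥ PP) i - (![8.91459, 4.71726, (-0.75621), (-1.62652)] : Fin 4 → ℝ) i|
      ≤ 2 / 10 ^ 4 := by
  have hk := abs_le.mp (kap_bd Θ a b h)
  intro i
  rw [Psi_apply, e3_det _ (Θ.eq 0), Matrix.smul_mulVec, Pi.smul_apply, smul_eq_mul]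
  have h1 := abs_le.mp (e3_img Θ a b h i)
  generalize ‖(Θ.θ 0) ^ 2 - Θ.θ 0‖ = κ at hk ⊢
  have hk0 : 0 < κ := by linarith
  have hki : κ⁻¹ ≤ 1 := inv_le_one_of_one_le₀ (by linarith)
  have hki0 : 0 < κ⁻¹ := inv_pos.mpr hk0
  have key : ∀ u v : ℝ, |u - κ * v| ≤ 2 / 10 ^ 4 → |κ⁻¹ * u - v| ≤ 2 / 10 ^ 4 := by
    intro u v huv
    have e : κ⁻¹ * u - v = κ⁻¹ * (u - κ * v) := by field_simp
    rw [e, abs_mul, abs_of_pos hki0]
    calc κ⁻¹ * |u - κ * v| ≤ 1 * |u - κ * v| := by gcongr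
      _ ≤ 2 / 10 ^ 4 := by linarith
  apply key
  rw [abs_le]
  fin_cases i <;> simp at h1 ⊢ <;> constructor <;> linarith [h1.1, h1.2]

lemma e6_w (Θ : Roots) (a b : ℝ) (h : Dat Θ a b) :
    ∀ i, |(Psi (eltp (Θ.θ 0) e6) *ᵥ PP) i - (![9.48429, 3.91615, (-4.5397), (-0.08181)] : Fin 4 → ℝ) i|
      ≤ 2 / 10 ^ 4 := by
  intro i
  rw [Psi_unit _ (e6_det _ (Θ.eq 0))]
  have h1 := abs_le.mp (e6_img Θ a b h i)
  rw [abs_le]
  fin_cases i <;> simp at h1 ⊢ <;> constructor <;> linarith [h1.1, h1.2]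

lemma e7_w (Θ : Roots) (a b : ℝ) (h : Dat Θ a b) :
    ∀ i, |(Psi (eltp (Θ.θ 0) e7) *ᵥ PP) i - (![10.10916, 6.23297, (-2.58823), (-1.62678)] : Fin 4 → ℝ) i|
      ≤ 2 / 10 ^ 4 := by
  intro i
  rw [Psi_unit _ (e7_det _ (Θ.eq 0))]
  have h1 := abs_le.mp (e7_img Θ a b h i)
  rw [abs_le]
  fin_cases i <;> simp at h1 ⊢ <;> constructor <;> linarith [h1.1, h1.2]

lemma e8_w (Θ : Roots) (a b : ℝ) (h : Dat Θ a b) :
    ∀ i, |(Psi (eltp (Θ.θ 0) e8) *ᵥ PP) i - (![9.89171, 5.91592, (-0.95111), 2.81838] : Fin 4 → ℝ) i|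
      ≤ 2 / 10 ^ 4 := by
  intro i
  rw [Psi_unit _ (e8_det _ (Θ.eq 0))]
  have h1 := abs_le.mp (e8_img Θ a b h i)
  rw [abs_le]
  fin_cases i <;> simp at h1 ⊢ <;> constructor <;> linarith [h1.1, h1.2]

lemma e9_w (Θ : Roots) (a b : ℝ) (h : Dat Θ a b) :
    ∀ i, |(Psi (eltp (Θ.θ 0) e9) *ᵥ PP) i - (![8, 0, (-3), 1] : Fin 4 → ℝ) i|
      ≤ 2 / 10 ^ 4 := by
  intro i
  rw [Psi_unit _ (e9_det _ (Θ.eq 0))]
  have h1 := abs_le.mp (e9_img Θ a b h i)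
  rw [abs_le]
  fin_cases i <;> simp at h1 ⊢ <;> constructor <;> linarith [h1.1, h1.2]

lemma e11_w (Θ : Roots) (a b : ℝ) (h : Dat Θ a b) :
    ∀ i, |(Psi (eltp (Θ.θ 0) e11) *ᵥ PP) i - (![8, 1, 0, (-3)] : Fin 4 → ℝ) i|
      ≤ 2 / 10 ^ 4 := by
  intro i
  rw [Psi_unit _ (e11_det _ (Θ.eq 0))]
  have h1 := abs_le.mp (e11_img Θ a b h i)
  rw [abs_le]
  fin_cases i <;> simp at h1 ⊢ <;> constructor <;> linarith [h1.1, h1.2]

lemma e12_w (Θ : Roots) (a b : ℝ) (h : Dat Θ a b) :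
    ∀ i, |(Psi (eltp (Θ.θ 0) e12) *ᵥ PP) i - (![8, 1, 0, 3] : Fin 4 → ℝ) i|
      ≤ 2 / 10 ^ 4 := by
  intro i
  rw [Psi_unit _ (e12_det _ (Θ.eq 0))]
  have h1 := abs_le.mp (e12_img Θ a b h i)
  rw [abs_le]
  fin_cases i <;> simp at h1 ⊢ <;> constructor <;> linarith [h1.1, h1.2]

lemma fut_bd {y : Fin 4 → ℝ} (hy : bl' y y = -1) (hy0 : 0 < y 0) :
    |y 1| ≤ y 0 ∧ |y 2| ≤ y 0 ∧ |y 3| ≤ y 0 := by
  have h : y 0 ^ 2 = 1 + y 1 ^ 2 + y 2 ^ 2 + y 3 ^ 2 := by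
    simp only [bl'] at hy
    linarith
  refine ⟨?_, ?_, ?_⟩ <;> apply abs_le_of_sq_le_sq _ hy0.le <;>
    nlinarith [sq_nonneg (y 1), sq_nonneg (y 2), sq_nonneg (y 3)]

lemma dot_close {y w W : Fin 4 → ℝ} (hy : bl' y y = -1) (hy0 : 0 < y 0)
    (h : ∀ i, |w i - W i| ≤ 2 / 10 ^ 4) : -bl' y w ≤ -bl' y W + 8 / 10 ^ 4 * y 0 := by
  obtain ⟨h1, h2, h3⟩ := fut_bd hy hy0
  have key : ∀ i, |y i * (w i - W i)| ≤ 2 / 10 ^ 4 * y 0 := by
    intro i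
    rw [abs_mul, mul_comm]
    have hi : |y i| ≤ y 0 := by
      fin_cases i
      · exact (abs_of_pos hy0).le
      · exact h1
      · exact h2
      · exact h3
    exact mul_le_mul (h i) hi (abs_nonneg _) (by norm_num)
  have k0 := abs_le.mp (key 0)
  have k1 := abs_le.mp (key 1)
  have k2 := abs_le.mp (key 2)
  have k3 := abs_le.mp (key 3)
  simp only [bl']
  linarith [k0.1, k0.2, k1.1, k1.2, k2.1, k2.2, k3.1, k3.2]

/-- the descent step -/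
lemma descent (Θ : Roots) (a b : ℝ) (h : Dat Θ a b) (y : Fin 4 → ℝ) (hy : bl' y y = -1)
    (hy0 : 0 < y 0) (hbig : 65.34 < (bl' y PP) ^ 2) :
    ∃ g ∈ Gam Θ, -bl' y ((g : Matrix (Fin 4) (Fin 4) ℝ) *ᵥ PP) < 999 / 1000 * -bl' y PP := by
  by_contra hcon
  push Not at hcon
  have L0 : 0 ≤ -bl' y ![8, 3, 1, 0] + 8 / 10 ^ 4 * y 0 - 999 / 1000 * -bl' y PP := by
    obtain ⟨g, hg, hgm⟩ := e0_mem Θ
    have h1 := hcon g hg
    rw [hgm] at h1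
    have h2 := dot_close hy hy0 (e0_w Θ a b h)
    linarith
  have L1 : 0 ≤ -bl' y ![8.12066, 2.01623, (-2.8033), 0.14668] + 8 / 10 ^ 4 * y 0 - 999 / 1000 * -bl' y PP := by
    obtain ⟨g, hg, hgm⟩ := e1_mem Θ
    have h1 := hcon g hg
    rw [hgm] at h1
    have h2 := dot_close hy hy0 (e1_w Θ a b h)
    linarith
  have L2 : 0 ≤ -bl' y ![8.12066, 2.8033, (-0.14668), 2.01623] + 8 / 10 ^ 4 * y 0 - 999 / 1000 * -bl' y PP := by
    obtain ⟨g, hg, hgm⟩ := e2_mem Θ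
    have h1 := hcon g hg
    rw [hgm] at h1
    have h2 := dot_close hy hy0 (e2_w Θ a b h)
    linarith
  have L3 : 0 ≤ -bl' y ![8.91459, 4.71726, (-0.75621), (-1.62652)] + 8 / 10 ^ 4 * y 0 - 999 / 1000 * -bl' y PP := by
    obtain ⟨g, hg, hgm⟩ := e3_mem Θ
    have h1 := hcon g hg
    rw [hgm] at h1
    have h2 := dot_close hy hy0 (e3_w Θ a b h)
    linarith
  have L6 : 0 ≤ -bl' y ![9.48429, 3.91615, (-4.5397), (-0.08181)] + 8 / 10 ^ 4 * y 0 - 999 / 1000 * -bl' y PP := by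
    obtain ⟨g, hg, hgm⟩ := e6_mem Θ
    have h1 := hcon g hg
    rw [hgm] at h1
    have h2 := dot_close hy hy0 (e6_w Θ a b h)
    linarith
  have L7 : 0 ≤ -bl' y ![10.10916, 6.23297, (-2.58823), (-1.62678)] + 8 / 10 ^ 4 * y 0 - 999 / 1000 * -bl' y PP := by
    obtain ⟨g, hg, hgm⟩ := e7_mem Θ
    have h1 := hcon g hg
    rw [hgm] at h1
    have h2 := dot_close hy hy0 (e7_w Θ a b h)
    linarith
  have L8 : 0 ≤ -bl' y ![9.89171, 5.91592, (-0.95111), 2.81838] + 8 / 10 ^ 4 * y 0 - 999 / 1000 * -bl' y PP := by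
    obtain ⟨g, hg, hgm⟩ := e8_mem Θ
    have h1 := hcon g hg
    rw [hgm] at h1
    have h2 := dot_close hy hy0 (e8_w Θ a b h)
    linarith
  have L9 : 0 ≤ -bl' y ![8, 0, (-3), 1] + 8 / 10 ^ 4 * y 0 - 999 / 1000 * -bl' y PP := by
    obtain ⟨g, hg, hgm⟩ := e9_mem Θ
    have h1 := hcon g hg
    rw [hgm] at h1
    have h2 := dot_close hy hy0 (e9_w Θ a b h)
    linarith
  have L11 : 0 ≤ -bl' y ![8, 1, 0, (-3)] + 8 / 10 ^ 4 * y 0 - 999 / 1000 * -bl' y PP := by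
    obtain ⟨g, hg, hgm⟩ := e11_mem Θ
    have h1 := hcon g hg
    rw [hgm] at h1
    have h2 := dot_close hy hy0 (e11_w Θ a b h)
    linarith
  have L12 : 0 ≤ -bl' y ![8, 1, 0, 3] + 8 / 10 ^ 4 * y 0 - 999 / 1000 * -bl' y PP := by
    obtain ⟨g, hg, hgm⟩ := e12_mem Θ
    have h1 := hcon g hg
    rw [hgm] at h1
    have h2 := dot_close hy hy0 (e12_w Θ a b h)
    linarith
  simp only [bl', PP, Matrix.cons_val_zero, Matrix.cons_val_one, Matrix.cons_val] at L0 L1 L2 L3 L6 L7 L8 L9 L11 L12 hy hbig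
  linarith [mul_nonneg L0 L1, mul_nonneg L0 L6, mul_nonneg L1 L2, mul_nonneg L2 L3, mul_nonneg L3 L12, mul_nonneg L6 L11, mul_nonneg L7 L9, mul_nonneg L7 L12, mul_nonneg L8 L11, sq_nonneg (y 0)]

end

end Pool.Agent.Lib.MP_b3e290_gt
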