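import Mathlib
import Pool.Agent.Lib.MP_b3e290_gt.Cover

set_option autoImplicit false
open Matrix Polynomial

namespace Pool.Agent.Lib.MP_b3e290_gt

noncomputable section

lemma bl'_pres {A : Matrix (Fin 4) (Fin 4) ℝ}
    (hA : Aᵀ * Matrix.diagonal ![(-1 : ℝ), 1, 1, 1] * A = Matrix.diagonal ![(-1 : ℝ), 1, 1, 1])
    (y z : Fin 4 → ℝ) : bl' (A *ᵥ y) (A *ᵥ z) = bl' y z := by
  rw [← bl'_eq, ← bl'_eq]
  conv_rhs => rw [← hA]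
  rw [Matrix.dotProduct_mulVec, ← Matrix.mulVec_transpose, Matrix.dotProduct_mulVec,
    ← Matrix.mulVec_transpose, Matrix.dotProduct_mulVec, ← Matrix.mulVec_transpose]
  simp only [Matrix.transpose_mul, Matrix.transpose_transpose, Matrix.mulVec_mulVec,
    Matrix.mul_assoc]

lemma row_norm {A : Matrix (Fin 4) (Fin 4) ℝ}
    (hA : Aᵀ * Matrix.diagonal ![(-1 : ℝ), 1, 1, 1] * A = Matrix.diagonal ![(-1 : ℝ), 1, 1, 1]) :
    -(A 0 0) ^ 2 + (A 0 1) ^ 2 + (A 0 2) ^ 2 + (A 0 3) ^ 2 = -1 := by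
  set J := Matrix.diagonal ![(-1 : ℝ), 1, 1, 1] with hJ
  have hJJ : J * J = 1 := by
    rw [hJ, Matrix.diagonal_mul_diagonal, ← Matrix.diagonal_one]
    congr 1
    funext i
    fin_cases i <;> simp
  have h1 : (J * Aᵀ * J) * A = 1 := by
    rw [Matrix.mul_assoc, Matrix.mul_assoc, ← Matrix.mul_assoc Aᵀ, hA, hJJ]
  have h2 : A * (J * Aᵀ * J) = 1 := mul_eq_one_comm.mp h1
  have h3 : A * J * Aᵀ = J := by
    have : A * J * Aᵀ = (A * (J * Aᵀ * J)) * J := by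
      simp only [Matrix.mul_assoc, hJJ, Matrix.mul_one]
    rw [this, h2, Matrix.one_mul]
  have h4 := congrFun (congrFun h3 0) 0
  rw [Matrix.mul_apply] at h4
  simp [hJ, Fin.sum_univ_four, Matrix.mul_diagonal] at h4
  linarith

lemma future_pres {A : Matrix (Fin 4) (Fin 4) ℝ}
    (hA : Aᵀ * Matrix.diagonal ![(-1 : ℝ), 1, 1, 1] * A = Matrix.diagonal ![(-1 : ℝ), 1, 1, 1])
    (h0 : 0 < A 0 0) {y : Fin 4 → ℝ} (hy : bl' y y = -1) (hy0 : 0 < y 0) :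
    0 < (A *ᵥ y) 0 := by
  have hr := row_norm hA
  have e : (A *ᵥ y) 0 = A 0 0 * y 0 + A 0 1 * y 1 + A 0 2 * y 2 + A 0 3 * y 3 := by
    simp [Matrix.mulVec, dotProduct, Fin.sum_univ_four]
  rw [e]
  set p := A 0 1 * y 1 + A 0 2 * y 2 + A 0 3 * y 3 with hp
  have hcs : p ^ 2 ≤ ((A 0 1) ^ 2 + (A 0 2) ^ 2 + (A 0 3) ^ 2) * (y 1 ^ 2 + y 2 ^ 2 + y 3 ^ 2) := by
    rw [hp]
    nlinarith [sq_nonneg (A 0 1 * y 2 - A 0 2 * y 1), sq_nonneg (A 0 1 * y 3 - A 0 3 * y 1),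
      sq_nonneg (A 0 2 * y 3 - A 0 3 * y 2)]
  have h1 : (A 0 1) ^ 2 + (A 0 2) ^ 2 + (A 0 3) ^ 2 = (A 0 0) ^ 2 - 1 := by linarith
  have h2 : y 1 ^ 2 + y 2 ^ 2 + y 3 ^ 2 = y 0 ^ 2 - 1 := by
    simp only [bl'] at hy
    linarith
  rw [h1, h2] at hcs
  by_contra hcon
  push Not at hcon
  have h3 : A 0 0 * y 0 ≤ -p := by linarith
  have h4 : 0 < A 0 0 * y 0 := mul_pos h0 hy0
  have h5 : (A 0 0 * y 0) ^ 2 ≤ p ^ 2 := by
    have := pow_le_pow_left₀ h4.le h3 2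
    linarith [neg_sq p]
  have h6 : 0 ≤ y 1 ^ 2 + y 2 ^ 2 + y 3 ^ 2 := by positivity
  have h7 : 0 ≤ (A 0 1) ^ 2 + (A 0 2) ^ 2 + (A 0 3) ^ 2 := by positivity
  nlinarith

lemma inv_mem_props (Θ : Roots) {g : Matrix.GeneralLinearGroup (Fin 4) ℝ} (hg : g ∈ Gam Θ)
    {y : Fin 4 → ℝ} (hy : bl' y y = -1) (hy0 : 0 < y 0) :
    bl' (((g⁻¹ : Matrix.GeneralLinearGroup (Fin 4) ℝ) : Matrix (Fin 4) (Fin 4) ℝ) *ᵥ y)
      (((g⁻¹ : Matrix.GeneralLinearGroup (Fin 4) ℝ) : Matrix (Fin 4) (Fin 4) ℝ) *ᵥ y) = -1 ∧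
    0 < (((g⁻¹ : Matrix.GeneralLinearGroup (Fin 4) ℝ) : Matrix (Fin 4) (Fin 4) ℝ) *ᵥ y) 0 := by
  have h := Gam_props Θ g⁻¹ ((Gam Θ).inv_mem hg)
  exact ⟨by rw [bl'_pres h.1]; exact hy, future_pres h.1 h.2.2 hy hy0⟩

lemma bl'_inv (Θ : Roots) {g : Matrix.GeneralLinearGroup (Fin 4) ℝ} (hg : g ∈ Gam Θ)
    (y z : Fin 4 → ℝ) :
    bl' (((g⁻¹ : Matrix.GeneralLinearGroup (Fin 4) ℝ) : Matrix (Fin 4) (Fin 4) ℝ) *ᵥ y) z
      = bl' y ((g : Matrix (Fin 4) (Fin 4) ℝ) *ᵥ z) := by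
  have h := Gam_props Θ g hg
  rw [← bl'_pres h.1, Matrix.mulVec_mulVec, ← Units.val_mul, mul_inv_cancel]
  simp

/-- every point can be moved into the ball around the base vector -/
lemma reach (Θ : Roots) (a b : ℝ) (h : Dat Θ a b) (y : Fin 4 → ℝ) (hy : bl' y y = -1)
    (hy0 : 0 < y 0) :
    ∃ g ∈ Gam Θ, (bl' y ((g : Matrix (Fin 4) (Fin 4) ℝ) *ᵥ PP)) ^ 2 ≤ 65.34 := by
  by_contra hcon
  push Not at hcon
  -- positivity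
  have hpos : ∀ g ∈ Gam Θ, 8 < -bl' y ((g : Matrix (Fin 4) (Fin 4) ℝ) *ᵥ PP) := by
    intro g hg
    have h1 := hcon g hg
    rw [← bl'_inv Θ hg] at h1 ⊢
    obtain ⟨h2, h3⟩ := inv_mem_props Θ hg hy hy0
    set z := ((g⁻¹ : Matrix.GeneralLinearGroup (Fin 4) ℝ) : Matrix (Fin 4) (Fin 4) ℝ) *ᵥ y
    obtain ⟨b1, b2, b3⟩ := fut_bd h2 h3
    have c1 := abs_le.mp b1
    have c2 := abs_le.mp b2
    have hp : 0 < -bl' z PP := by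
      simp only [bl', PP, Matrix.cons_val_zero, Matrix.cons_val_one, Matrix.cons_val]
      linarith [c1.1, c1.2, c2.1, c2.2]
    nlinarith
  have hstep : ∀ g ∈ Gam Θ, ∃ g' ∈ Gam Θ, -bl' y ((g' : Matrix (Fin 4) (Fin 4) ℝ) *ᵥ PP)
      < 999 / 1000 * -bl' y ((g : Matrix (Fin 4) (Fin 4) ℝ) *ᵥ PP) := by
    intro g hg
    obtain ⟨h2, h3⟩ := inv_mem_props Θ hg hy hy0
    have h1 := hcon g hg
    rw [← bl'_inv Θ hg] at h1
    obtain ⟨k, hk, hk2⟩ := descent Θ a b h _ h2 h3 h1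
    refine ⟨g * k, (Gam Θ).mul_mem hg hk, ?_⟩
    rw [bl'_inv Θ hg, bl'_inv Θ hg, Matrix.mulVec_mulVec] at hk2
    rw [Units.val_mul]
    exact hk2
  have hind : ∀ n : ℕ, ∃ g ∈ Gam Θ, -bl' y ((g : Matrix (Fin 4) (Fin 4) ℝ) *ᵥ PP)
      ≤ (999 / 1000 : ℝ) ^ n * -bl' y PP := by
    intro n
    induction n with
    | zero => exact ⟨1, (Gam Θ).one_mem, by simp⟩
    | succ n ih =>
      obtain ⟨g, hg, hg2⟩ := ih
      obtain ⟨g', hg', hg2'⟩ := hstep g hg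
      refine ⟨g', hg', ?_⟩
      have : (999 / 1000 : ℝ) ^ (n + 1) * -bl' y PP
          = 999 / 1000 * ((999 / 1000 : ℝ) ^ n * -bl' y PP) := by ring
      rw [this]
      linarith
  have hlim : Filter.Tendsto (fun n : ℕ => (999 / 1000 : ℝ) ^ n * -bl' y PP) Filter.atTop
      (nhds (0 * -bl' y PP)) :=
    (tendsto_pow_atTop_nhds_zero_of_lt_one (by norm_num) (by norm_num)).mul_const _
  rw [zero_mul] at hlim
  obtain ⟨n, hn⟩ := (hlim.eventually (gt_mem_nhds (show (0 : ℝ) < 8 by norm_num))).exists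
  obtain ⟨g, hg, hg2⟩ := hind n
  linarith [hpos g hg]

lemma ball {X Y : Fin 4 → ℝ} (hX : bl' X X = -1) (hY : bl' Y Y = -1)
    (h1 : (bl' X PP) ^ 2 ≤ 65.34) (h2 : (bl' Y PP) ^ 2 ≤ 65.34) : -bl' X Y ≤ 1.42 := by
  have key : 0 ≤ (bl' (fun i => X i + Y i) PP) ^ 2 / 54
      + bl' (fun i => X i + Y i) (fun i => X i + Y i) := by
    have e : (bl' (fun i => X i + Y i) PP) ^ 2 / 54
      + bl' (fun i => X i + Y i) (fun i => X i + Y i)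
      = (10 * ((X 0 + Y 0) - 12 / 5 * (X 1 + Y 1) + 4 / 5 * (X 2 + Y 2)) ^ 2
        + 27 / 5 * ((X 1 + Y 1) + 3 * (X 2 + Y 2)) ^ 2 + 54 * (X 3 + Y 3) ^ 2) / 54 := by
      simp only [bl', PP, Matrix.cons_val_zero, Matrix.cons_val_one, Matrix.cons_val]
      ring
    rw [e]
    positivity
  have e1 : bl' (fun i => X i + Y i) (fun i => X i + Y i) = bl' X X + 2 * bl' X Y + bl' Y Y := by
    simp only [bl']; ring
  have e2 : bl' (fun i => X i + Y i) PP = bl' X PP + bl' Y PP := by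
    simp only [bl']; ring
  rw [e1, e2, hX, hY] at key
  nlinarith [sq_nonneg (bl' X PP - bl' Y PP)]

theorem small_diam (Θ : Roots) (a b : ℝ) (h : Dat Θ a b) (x y : Fin 4 → ℝ) (hx : bl' x x = -1)
    (hx0 : 0 < x 0) (hy : bl' y y = -1) (hy0 : 0 < y 0) :
    ∃ g ∈ Gam Θ, -bl' x ((g : Matrix (Fin 4) (Fin 4) ℝ) *ᵥ y) ≤ 1.42 := by
  obtain ⟨g, hg, hg2⟩ := reach Θ a b h x hx hx0
  obtain ⟨k, hk, hk2⟩ := reach Θ a b h y hy hy0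
  refine ⟨g * k⁻¹, (Gam Θ).mul_mem hg ((Gam Θ).inv_mem hk), ?_⟩
  rw [← bl'_inv Θ hg] at hg2
  rw [← bl'_inv Θ hk] at hk2
  obtain ⟨h2, -⟩ := inv_mem_props Θ hg hx hx0
  obtain ⟨h3, -⟩ := inv_mem_props Θ hk hy hy0
  have h4 := ball h2 h3 hg2 hk2
  rw [bl'_inv Θ hg, Matrix.mulVec_mulVec, ← Units.val_mul] at h4
  exact h4

end

end Pool.Agent.Lib.MP_b3e290_gt
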