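import Mathlib

set_option autoImplicit false
open Matrix

namespace Pool.Agent.Lib.MP_b3e290_gt

noncomputable section

/-- the golden ratio -/
def ph : ℝ := (1 + √5) / 2

lemma ph_sq : ph ^ 2 = ph + 1 := by
  have h : (√5) ^ 2 = (5 : ℝ) := Real.sq_sqrt (by norm_num)
  unfold ph
  nlinarith

lemma ph_lb : (1.618 : ℝ) < ph := by
  unfold ph
  have : (2.236 : ℝ) < √5 := by
    rw [Real.lt_sqrt (by norm_num)]; norm_num
  linarith

lemma ph_ub : ph < (1.6181 : ℝ) := by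
  unfold ph
  have : √5 < (2.2362 : ℝ) := by
    rw [Real.sqrt_lt' (by norm_num)]; norm_num
  linarith

lemma cos_eq : Real.cos (Real.pi / 5) = ph / 2 := by
  rw [Real.cos_pi_div_five]; unfold ph; ring

def cA : ℝ := √(ph - 3 / 2) / 2
def cB : ℝ := √(ph + 3 / 2) / 2
def cr : ℝ := √2 / 2

lemma cA_sq : cA ^ 2 = (ph - 3 / 2) / 4 := by
  have h : (√(ph - 3 / 2)) ^ 2 = ph - 3 / 2 := Real.sq_sqrt (by linarith [ph_lb])
  unfold cA
  linear_combination h / 4

lemma cB_sq : cB ^ 2 = (ph + 3 / 2) / 4 := by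
  have h : (√(ph + 3 / 2)) ^ 2 = ph + 3 / 2 := Real.sq_sqrt (by linarith [ph_lb])
  unfold cB
  linear_combination h / 4

lemma cr_sq : cr ^ 2 = 1 / 2 := by
  have h : (√2) ^ 2 = (2 : ℝ) := Real.sq_sqrt (by norm_num)
  unfold cr
  linear_combination h / 4

lemma cA_pos : 0 < cA := by
  unfold cA
  have : 0 < √(ph - 3 / 2) := Real.sqrt_pos.mpr (by linarith [ph_lb])
  linarith

lemma cB_pos : 0 < cB := by
  unfold cB
  have : 0 < √(ph + 3 / 2) := Real.sqrt_pos.mpr (by linarith [ph_lb])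
  linarith

lemma cr_pos : 0 < cr := by
  unfold cr
  have : 0 < √(2 : ℝ) := Real.sqrt_pos.mpr (by norm_num)
  linarith

/-- the Lorentz form -/
abbrev JJ : Matrix (Fin 4) (Fin 4) ℝ := Matrix.diagonal ![(-1 : ℝ), 1, 1, 1]

lemma bil_apply (x y : Fin 4 → ℝ) :
    x ⬝ᵥ (Matrix.diagonal ![(-1 : ℝ), 1, 1, 1] *ᵥ y)
      = -(x 0 * y 0) + x 1 * y 1 + x 2 * y 2 + x 3 * y 3 := by
  simp [dotProduct, Matrix.mulVec_diagonal, Fin.sum_univ_four]

def ee : Fin 4 → (Fin 4 → ℝ) :=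
  ![![0, cr, cr, 0], ![cA, -(cr / 2), -(cr / 2), cB], ![cA, -(cr / 2), cr / 2, -cB],
    ![0, cr, -cr, 0]]

def tt : Matrix (Fin 4) (Fin 4) ℝ := Matrix.diagonal ![1, 1, -1, -1]

lemma ee_norm (i : Fin 4) :
    ee i ⬝ᵥ (Matrix.diagonal ![(-1 : ℝ), 1, 1, 1] *ᵥ ee i) = 1 := by
  rw [bil_apply]
  fin_cases i <;> simp [ee] <;> nlinarith [cA_sq, cB_sq, cr_sq]

lemma ee01 : ee 0 ⬝ᵥ (Matrix.diagonal ![(-1 : ℝ), 1, 1, 1] *ᵥ ee 1) = -(1 / 2) := by
  rw [bil_apply]; simp [ee]; nlinarith [cA_sq, cB_sq, cr_sq]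
lemma ee12 : ee 1 ⬝ᵥ (Matrix.diagonal ![(-1 : ℝ), 1, 1, 1] *ᵥ ee 2)
    = -Real.cos (Real.pi / 5) := by
  rw [bil_apply, cos_eq]; simp [ee]; nlinarith [cA_sq, cB_sq, cr_sq]
lemma ee23 : ee 2 ⬝ᵥ (Matrix.diagonal ![(-1 : ℝ), 1, 1, 1] *ᵥ ee 3) = -(1 / 2) := by
  rw [bil_apply]; simp [ee]; nlinarith [cA_sq, cB_sq, cr_sq]
lemma ee02 : ee 0 ⬝ᵥ (Matrix.diagonal ![(-1 : ℝ), 1, 1, 1] *ᵥ ee 2) = 0 := by
  rw [bil_apply]; simp [ee]
lemma ee03 : ee 0 ⬝ᵥ (Matrix.diagonal ![(-1 : ℝ), 1, 1, 1] *ᵥ ee 3) = 0 := by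
  rw [bil_apply]; simp [ee]
lemma ee13 : ee 1 ⬝ᵥ (Matrix.diagonal ![(-1 : ℝ), 1, 1, 1] *ᵥ ee 3) = 0 := by
  rw [bil_apply]; simp [ee]

lemma tt0 : tt *ᵥ ee 0 = ee 3 := by
  ext i; fin_cases i <;> simp [tt, ee, Matrix.mulVec_diagonal]
lemma tt1 : tt *ᵥ ee 1 = ee 2 := by
  ext i; fin_cases i <;> simp [tt, ee, Matrix.mulVec_diagonal]
lemma tt2 : tt *ᵥ ee 2 = ee 1 := by
  ext i; fin_cases i <;> simp [tt, ee, Matrix.mulVec_diagonal]
lemma tt3 : tt *ᵥ ee 3 = ee 0 := by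
  ext i; fin_cases i <;> simp [tt, ee, Matrix.mulVec_diagonal]

/-- the reflection of `y` in `e`, time component stays positive -/
lemma refl_pos (y e : Fin 4 → ℝ)
    (hq : -(y 0 * y 0) + y 1 * y 1 + y 2 * y 2 + y 3 * y 3 = -1)
    (he : -(e 0 * e 0) + e 1 * e 1 + e 2 * e 2 + e 3 * e 3 = 1) (hy : 0 < y 0) :
    0 < y 0 - 2 * (-(e 0 * y 0) + e 1 * y 1 + e 2 * y 2 + e 3 * y 3) * e 0 := by
  set p := e 1 * y 1 + e 2 * y 2 + e 3 * y 3 with hp
  have hcs : p ^ 2 ≤ (y 1 * y 1 + y 2 * y 2 + y 3 * y 3) * (e 1 * e 1 + e 2 * e 2 + e 3 * e 3) := by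
    rw [hp]
    nlinarith [sq_nonneg (e 1 * y 2 - e 2 * y 1), sq_nonneg (e 1 * y 3 - e 3 * y 1),
      sq_nonneg (e 2 * y 3 - e 3 * y 2)]
  have h1 : y 1 * y 1 + y 2 * y 2 + y 3 * y 3 = y 0 ^ 2 - 1 := by linarith
  have h2 : e 1 * e 1 + e 2 * e 2 + e 3 * e 3 = 1 + e 0 ^ 2 := by linarith
  rw [h1, h2] at hcs
  have hgoal : y 0 - 2 * (-(e 0 * y 0) + e 1 * y 1 + e 2 * y 2 + e 3 * y 3) * e 0
      = y 0 * (1 + 2 * e 0 ^ 2) - 2 * e 0 * p := by rw [hp]; ring
  rw [hgoal]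
  by_contra hcon
  push Not at hcon
  have hle : y 0 * (1 + 2 * e 0 ^ 2) ≤ 2 * e 0 * p := by linarith
  have hpos : 0 < y 0 * (1 + 2 * e 0 ^ 2) := by positivity
  have hsq : (y 0 * (1 + 2 * e 0 ^ 2)) ^ 2 ≤ (2 * e 0 * p) ^ 2 :=
    pow_le_pow_left₀ hpos.le hle 2
  have h3 : (2 * e 0 * p) ^ 2 ≤ 4 * e 0 ^ 2 * ((y 0 ^ 2 - 1) * (1 + e 0 ^ 2)) := by
    have : (2 * e 0 * p) ^ 2 = 4 * e 0 ^ 2 * p ^ 2 := by ring
    rw [this]
    exact mul_le_mul_of_nonneg_left hcs (by positivity)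
  nlinarith [sq_nonneg (e 0), sq_nonneg (e 0 * e 0), mul_pos hy hy]

/-- conjugate of the golden ratio -/
def ps : ℝ := 1 - ph

lemma ps_sq : ps ^ 2 = ps + 1 := by unfold ps; nlinarith [ph_sq]

/-- the conjugate quadratic form -/
def Qc (m : Fin 4 → ℝ) : ℝ :=
  (4 - 2 * ps) * (m 0 ^ 2 + m 3 ^ 2) + 6 * m 1 ^ 2 + 6 * m 2 ^ 2 + 6 * m 0 * m 1
    + 4 * ps * m 0 * m 2 + 2 * ps * m 0 * m 3 + 8 * ps * m 1 * m 2 + 4 * ps * m 1 * m 3
    + 6 * m 2 * m 3

lemma Qc_cs (m : Fin 4 → ℝ) :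
    (5 - 4 * ps) * (m 0 + 2 * m 1 + 2 * m 2 + m 3) ^ 2 ≤ (12 - 8 * ps) * Qc m := by
  have h := ps_sq
  have key : (12 - 8 * ps) * Qc m - (5 - 4 * ps) * (m 0 + 2 * m 1 + 2 * m 2 + m 3) ^ 2
      = (23 - 14 * ps) * ((m 0 + m 3) ^ 2 + (m 0 - m 3) ^ 2)
        + 4 * (13 - 8 * ps) * ((m 1 - m 2) + (m 0 - m 3) / 2) ^ 2 := by
    unfold Qc
    linear_combination (16 * (m 0 ^ 2 + m 3 ^ 2) - 32 * m 0 * m 2 - 16 * m 0 * m 3
      - 64 * m 1 * m 2 - 32 * m 1 * m 3) * h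
  have hps : ps < 0 := by unfold ps; linarith [ph_lb]
  have : 0 ≤ (23 - 14 * ps) * ((m 0 + m 3) ^ 2 + (m 0 - m 3) ^ 2)
        + 4 * (13 - 8 * ps) * ((m 1 - m 2) + (m 0 - m 3) / 2) ^ 2 := by
    have h1 : 0 < 23 - 14 * ps := by linarith
    have h2 : 0 < 13 - 8 * ps := by linarith
    positivity
  linarith


/-- the time component of the vertex -/
def X0 : ℝ := √((2 * ph + 3) / (8 * (2 - ph)))

lemma X0_sq : X0 ^ 2 = (2 * ph + 3) / (8 * (2 - ph)) := by
  have h1 := ph_lb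
  have h2 := ph_ub
  exact Real.sq_sqrt (div_nonneg (by linarith) (by linarith))

lemma X0_pos : 0 < X0 := by
  have h1 := ph_lb
  have h2 := ph_ub
  exact Real.sqrt_pos.mpr (div_pos (by linarith) (by linarith))

lemma X0_lb : (1.428 : ℝ) < X0 := by
  have h1 := ph_lb
  have h2 := ph_ub
  unfold X0
  rw [Real.lt_sqrt (by norm_num), lt_div_iff₀ (by linarith)]
  linarith

lemma X0_ub : X0 < (1.4287 : ℝ) := by
  have h1 := ph_lb
  have h2 := ph_ub
  unfold X0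
  rw [Real.sqrt_lt' (by norm_num), div_lt_iff₀ (by linarith)]
  linarith

/-- the vertex `v0` -/
def v0 : Fin 4 → ℝ :=
  ![X0, -(2 * cA * X0 / cr), -(2 * cA * X0 / cr), -(cA * X0 / cB)]

def mu : ℝ := 4 * cA * X0

lemma v0_norm : v0 ⬝ᵥ (Matrix.diagonal ![(-1 : ℝ), 1, 1, 1] *ᵥ v0) = -1 := by
  have h1 := ph_lb
  have h2 := ph_ub
  have hA := cA_sq
  have hB := cB_sq
  have hr := cr_sq
  have hX := X0_sq
  rw [bil_apply]
  simp only [v0, Matrix.cons_val_zero, Matrix.cons_val_one, Matrix.cons_val]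
  have e1 : -(X0 * X0) + -(2 * cA * X0 / cr) * -(2 * cA * X0 / cr)
      + -(2 * cA * X0 / cr) * -(2 * cA * X0 / cr) + -(cA * X0 / cB) * -(cA * X0 / cB)
      = X0 ^ 2 * (-1 + 8 * cA ^ 2 / cr ^ 2 + cA ^ 2 / cB ^ 2) := by
    have := cr_pos.ne'
    have := cB_pos.ne'
    field_simp
    ring
  rw [e1, hA, hB, hr, hX]
  have h3 : (2 - ph) ≠ 0 := by linarith
  have h4 : (ph + 3 / 2) ≠ 0 := by linarith
  have h5 : (2 * ph + 3) ≠ 0 := by linarith
  have h6 : (ph * 2 + 3) ≠ 0 := by linarith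
  field_simp
  have := ph_sq
  ring_nf
  nlinarith [ph_sq]


/-- the Lorentz product -/
def bl (x y : Fin 4 → ℝ) : ℝ := -(x 0 * y 0) + x 1 * y 1 + x 2 * y 2 + x 3 * y 3

lemma bl_eq (x y : Fin 4 → ℝ) :
    x ⬝ᵥ (Matrix.diagonal ![(-1 : ℝ), 1, 1, 1] *ᵥ y) = bl x y := bil_apply x y

/-- properties shared by all vectors in the orbit of the vertex -/
def Good (y : Fin 4 → ℝ) : Prop :=
  bl y y = -1 ∧ 0 < y 0 ∧ ∃ a b : Fin 4 → ℤ,
    (∀ j, bl (ee j) y = -mu * ((a j : ℝ) + (b j : ℝ) * ph)) ∧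
    Qc (fun j => (a j : ℝ) + (b j : ℝ) * ps) = 4 - 2 * ps

lemma good_v0 : Good v0 := by
  refine ⟨by rw [← bl_eq]; exact v0_norm, by simpa [v0] using X0_pos, ![1, 0, 0, 0], 0, ?_, ?_⟩
  · have hr := cr_pos.ne'
    have hB := cB_pos.ne'
    intro j
    fin_cases j
    · simp [bl, ee, v0, mu]
      field_simp
      ring
    · simp [bl, ee, v0, mu]
      field_simp
      ring
    · simp [bl, ee, v0, mu]
      field_simp
      ring
    · simp [bl, ee, v0, mu]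
  · simp [Qc]

lemma bl_ee_norm (i : Fin 4) : bl (ee i) (ee i) = 1 := by rw [← bl_eq]; exact ee_norm i

lemma bl_comm (x y : Fin 4 → ℝ) : bl x y = bl y x := by unfold bl; ring

lemma bl_refl (x y e : Fin 4 → ℝ) (c : ℝ) :
    bl x (fun k => y k - c * e k) = bl x y - c * bl x e := by unfold bl; ring

lemma bl_refl_refl (y e : Fin 4 → ℝ) (he : bl e e = 1) :
    bl (fun k => y k - 2 * bl e y * e k) (fun k => y k - 2 * bl e y * e k) = bl y y := by
  have : bl (fun k => y k - 2 * bl e y * e k) (fun k => y k - 2 * bl e y * e k)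
    = bl y y - 4 * bl e y * bl e y + 4 * (bl e y) ^ 2 * bl e e := by unfold bl; ring
  rw [this, he]; ring

lemma good_refl (y : Fin 4 → ℝ) (hy : Good y) (i : Fin 4) :
    Good (fun k => y k - 2 * bl (ee i) y * ee i k) := by
  obtain ⟨h1, h2, a, b, h3, h4⟩ := hy
  have g01 : bl (ee 0) (ee 1) = -(1 / 2) := by rw [← bl_eq]; exact ee01
  have g12 : bl (ee 1) (ee 2) = -(ph / 2) := by rw [← bl_eq, ee12, cos_eq]
  have g23 : bl (ee 2) (ee 3) = -(1 / 2) := by rw [← bl_eq]; exact ee23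
  have g02 : bl (ee 0) (ee 2) = 0 := by rw [← bl_eq]; exact ee02
  have g03 : bl (ee 0) (ee 3) = 0 := by rw [← bl_eq]; exact ee03
  have g13 : bl (ee 1) (ee 3) = 0 := by rw [← bl_eq]; exact ee13
  have g10 : bl (ee 1) (ee 0) = -(1 / 2) := by rw [bl_comm]; exact g01
  have g21 : bl (ee 2) (ee 1) = -(ph / 2) := by rw [bl_comm]; exact g12
  have g32 : bl (ee 3) (ee 2) = -(1 / 2) := by rw [bl_comm]; exact g23
  have g20 : bl (ee 2) (ee 0) = 0 := by rw [bl_comm]; exact g02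
  have g30 : bl (ee 3) (ee 0) = 0 := by rw [bl_comm]; exact g03
  have g31 : bl (ee 3) (ee 1) = 0 := by rw [bl_comm]; exact g13
  have n0 := bl_ee_norm 0
  have n1 := bl_ee_norm 1
  have n2 := bl_ee_norm 2
  have n3 := bl_ee_norm 3
  have k0 := h3 0
  have k1 := h3 1
  have k2 := h3 2
  have k3 := h3 3
  have hf := ph_sq
  have hs := ps_sq
  refine ⟨?_, ?_, ?_⟩
  · rw [bl_refl_refl y (ee i) (bl_ee_norm i)]; exact h1
  · exact refl_pos y (ee i) h1 (bl_ee_norm i) h2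
  · fin_cases i
    · refine ⟨![-a 0, a 1 + a 0, a 2, a 3], ![-b 0, b 1 + b 0, b 2, b 3], ?_, ?_⟩
      · intro j
        rw [bl_refl]
        fin_cases j
        · simp only [Fin.zero_eta, Matrix.cons_val_zero]
          rw [k0, n0]; push_cast; ring
        · simp only [Fin.mk_one, Fin.zero_eta, Matrix.cons_val_one, Matrix.cons_val_zero]
          rw [k0, k1, g10]; push_cast; ring
        · simp only [Fin.reduceFinMk, Fin.zero_eta, Matrix.cons_val]
          rw [k2, g20]; ring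
        · simp only [Fin.reduceFinMk, Fin.zero_eta, Matrix.cons_val]
          rw [k3, g30]; ring
      · rw [← h4]
        simp only [Qc, Matrix.cons_val_zero, Matrix.cons_val_one, Matrix.cons_val]
        push_cast
        ring
    · refine ⟨![a 0 + a 1, -a 1, a 2 + b 1, a 3], ![b 0 + b 1, -b 1, b 2 + a 1 + b 1, b 3],
        ?_, ?_⟩
      · intro j
        rw [bl_refl]
        fin_cases j
        · simp only [Fin.zero_eta, Fin.mk_one, Matrix.cons_val_zero]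
          rw [k0, k1, g01]; push_cast; ring
        · simp only [Fin.mk_one, Fin.zero_eta, Matrix.cons_val_one, Matrix.cons_val_zero]
          rw [k1, n1]; push_cast; ring
        · simp only [Fin.reduceFinMk, Fin.mk_one, Matrix.cons_val]
          rw [k2, k1, g21]; push_cast; linear_combination (-mu * (b 1 : ℝ)) * hf
        · simp only [Fin.reduceFinMk, Fin.mk_one, Matrix.cons_val]
          rw [k3, g31]; ring
      · rw [← h4]
        have e1 : (((a 2 + b 1 : ℤ) : ℝ)) + ((b 2 + a 1 + b 1 : ℤ) : ℝ) * ps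
            = (a 2 + b 2 * ps) + ps * (a 1 + b 1 * ps) := by
          push_cast; linear_combination (-(b 1 : ℝ)) * hs
        simp only [Qc, Matrix.cons_val_zero, Matrix.cons_val_one, Matrix.cons_val]
        rw [e1]
        push_cast
        linear_combination (4 * ((a 0 : ℝ) + b 0 * ps) * ((a 1 : ℝ) + b 1 * ps)
          + 2 * ((a 1 : ℝ) + b 1 * ps) ^ 2) * hs
    · refine ⟨![a 0, a 1 + b 2, -a 2, a 3 + a 2], ![b 0, b 1 + a 2 + b 2, -b 2, b 3 + b 2],
        ?_, ?_⟩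
      · intro j
        rw [bl_refl]
        fin_cases j
        · simp only [Fin.zero_eta, Fin.reduceFinMk, Matrix.cons_val_zero]
          rw [k0, g02]; ring
        · simp only [Fin.mk_one, Fin.reduceFinMk, Matrix.cons_val_one, Matrix.cons_val_zero]
          rw [k1, k2, g12]; push_cast; linear_combination (-mu * (b 2 : ℝ)) * hf
        · simp only [Fin.reduceFinMk, Matrix.cons_val]
          rw [k2, n2]; push_cast; ring
        · simp only [Fin.reduceFinMk, Matrix.cons_val]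
          rw [k3, k2, g32]; push_cast; ring
      · rw [← h4]
        have e1 : (((a 1 + b 2 : ℤ) : ℝ)) + ((b 1 + a 2 + b 2 : ℤ) : ℝ) * ps
            = (a 1 + b 1 * ps) + ps * (a 2 + b 2 * ps) := by
          push_cast; linear_combination (-(b 2 : ℝ)) * hs
        simp only [Qc, Matrix.cons_val_zero, Matrix.cons_val_one, Matrix.cons_val]
        rw [e1]
        push_cast
        linear_combination (4 * ((a 3 : ℝ) + b 3 * ps) * ((a 2 : ℝ) + b 2 * ps)
          + 2 * ((a 2 : ℝ) + b 2 * ps) ^ 2) * hs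
    · refine ⟨![a 0, a 1, a 2 + a 3, -a 3], ![b 0, b 1, b 2 + b 3, -b 3], ?_, ?_⟩
      · intro j
        rw [bl_refl]
        fin_cases j
        · simp only [Fin.zero_eta, Fin.reduceFinMk, Matrix.cons_val_zero]
          rw [k0, g03]; ring
        · simp only [Fin.mk_one, Fin.reduceFinMk, Matrix.cons_val_one, Matrix.cons_val_zero]
          rw [k1, g13]; ring
        · simp only [Fin.reduceFinMk, Matrix.cons_val]
          rw [k2, k3, g23]; push_cast; ring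
        · simp only [Fin.reduceFinMk, Matrix.cons_val]
          rw [k3, n3]; push_cast; ring
      · rw [← h4]
        simp only [Qc, Matrix.cons_val_zero, Matrix.cons_val_one, Matrix.cons_val]
        push_cast
        ring

lemma good_t (y : Fin 4 → ℝ) (hy : Good y) : Good (tt *ᵥ y) := by
  obtain ⟨h1, h2, a, b, h3, h4⟩ := hy
  have e0 : (tt *ᵥ y) 0 = y 0 := by simp [tt, Matrix.mulVec_diagonal]
  have e1 : (tt *ᵥ y) 1 = y 1 := by simp [tt, Matrix.mulVec_diagonal]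
  have e2 : (tt *ᵥ y) 2 = -y 2 := by simp [tt, Matrix.mulVec_diagonal]
  have e3 : (tt *ᵥ y) 3 = -y 3 := by simp [tt, Matrix.mulVec_diagonal]
  refine ⟨?_, by rw [e0]; exact h2, ![a 3, a 2, a 1, a 0], ![b 3, b 2, b 1, b 0], ?_, ?_⟩
  · rw [← h1]; simp only [bl, e0, e1, e2, e3]; ring
  · have k0 := h3 0
    have k1 := h3 1
    have k2 := h3 2
    have k3 := h3 3
    intro j
    fin_cases j
    · simp only [bl, e0, e1, e2, e3] at *
      simp [ee] at *
      linear_combination k3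
    · simp only [bl, e0, e1, e2, e3] at *
      simp [ee] at *
      linear_combination k2
    · simp only [bl, e0, e1, e2, e3] at *
      simp [ee] at *
      linear_combination k1
    · simp only [bl, e0, e1, e2, e3] at *
      simp [ee] at *
      linear_combination k0
  · rw [← h4]
    simp only [Qc, Matrix.cons_val_zero, Matrix.cons_val_one, Matrix.cons_val]
    ring

lemma refl_mulVec (i : Fin 4) (y : Fin 4 → ℝ) :
    ((1 : Matrix (Fin 4) (Fin 4) ℝ) - (2 : ℝ) • Matrix.vecMulVec (ee i)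
      (Matrix.diagonal ![(-1 : ℝ), 1, 1, 1] *ᵥ ee i)) *ᵥ y
      = fun k => y k - 2 * bl (ee i) y * ee i k := by
  ext k
  rw [Matrix.sub_mulVec, Matrix.one_mulVec, Matrix.smul_mulVec, Pi.sub_apply, Pi.smul_apply]
  have : (Matrix.vecMulVec (ee i) (Matrix.diagonal ![(-1 : ℝ), 1, 1, 1] *ᵥ ee i) *ᵥ y) k
      = ee i k * bl (ee i) y := by
    simp only [Matrix.mulVec, dotProduct, Matrix.vecMulVec_apply, Fin.sum_univ_four,
      Matrix.diagonal_apply, bl]
    simp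
    ring
  rw [this, smul_eq_mul]
  ring

/-- the set of generators of the orbifold group -/
def gens : Set (Matrix (Fin 4) (Fin 4) ℝ) :=
  {m : Matrix (Fin 4) (Fin 4) ℝ |
    (∃ i j : Fin 4,
      m = ((1 : Matrix (Fin 4) (Fin 4) ℝ) - (2 : ℝ) • Matrix.vecMulVec (ee i)
              (Matrix.diagonal ![(-1 : ℝ), 1, 1, 1] *ᵥ ee i)) *
          ((1 : Matrix (Fin 4) (Fin 4) ℝ) - (2 : ℝ) • Matrix.vecMulVec (ee j)
              (Matrix.diagonal ![(-1 : ℝ), 1, 1, 1] *ᵥ ee j))) ∨ m = tt}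

lemma good_closure (g : Matrix (Fin 4) (Fin 4) ℝ) (hg : g ∈ Submonoid.closure gens) :
    ∀ y, Good y → Good (g *ᵥ y) := by
  induction hg using Submonoid.closure_induction with
  | mem x hx =>
    intro y hy
    rcases hx with ⟨i, j, rfl⟩ | rfl
    · rw [← Matrix.mulVec_mulVec, refl_mulVec, refl_mulVec]
      exact good_refl _ (good_refl y hy j) i
    · exact good_t y hy
  | one => intro y hy; rwa [Matrix.one_mulVec]
  | mul x y _ _ hx hy =>
    intro z hz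
    rw [← Matrix.mulVec_mulVec]
    exact hx _ (hy z hz)

lemma good_time (y : Fin 4 → ℝ) (hy : Good y) : X0 ≤ y 0 := by
  obtain ⟨h1, h2, a, b, h3, h4⟩ := hy
  have hA := cA_pos
  have hX := X0_pos
  have k0 := h3 0
  have k1 := h3 1
  have k2 := h3 2
  have k3 := h3 3
  set p : ℤ := a 0 + 2 * a 1 + 2 * a 2 + a 3 with hp
  set q : ℤ := b 0 + 2 * b 1 + 2 * b 2 + b 3 with hq
  -- the time component
  have key : y 0 = X0 * ((p : ℝ) + (q : ℝ) * ph) := by
    have h5 : 4 * cA * y 0 = 4 * cA * (X0 * ((p : ℝ) + (q : ℝ) * ph)) := by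
      simp only [bl] at k0 k1 k2 k3
      simp [ee, mu] at k0 k1 k2 k3
      rw [hp, hq]
      push_cast
      linear_combination (-1 : ℝ) * k0 - 2 * k1 - 2 * k2 - k3
    exact mul_left_cancel₀ (by positivity) h5
  -- time component at least one
  have hy1 : 1 ≤ y 0 := by
    have : y 0 ^ 2 = 1 + (y 1 ^ 2 + y 2 ^ 2 + y 3 ^ 2) := by
      simp only [bl] at h1
      linarith
    nlinarith [sq_nonneg (y 1), sq_nonneg (y 2), sq_nonneg (y 3)]
  -- conjugate bound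
  have hconj : ((p : ℝ) + (q : ℝ) * ps) ^ 2 < 11.9 := by
    have hcs := Qc_cs (fun j => (a j : ℝ) + (b j : ℝ) * ps)
    rw [h4] at hcs
    have e1 : ((a 0 : ℝ) + b 0 * ps) + 2 * ((a 1 : ℝ) + b 1 * ps) + 2 * ((a 2 : ℝ) + b 2 * ps)
        + ((a 3 : ℝ) + b 3 * ps) = (p : ℝ) + (q : ℝ) * ps := by
      rw [hp, hq]; push_cast; ring
    rw [e1] at hcs
    have hps1 : ps < -0.618 := by unfold ps; linarith [ph_lb]
    have hps2 : -0.6181 < ps := by unfold ps; linarith [ph_ub]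
    have hs := ps_sq
    have e2 : (12 - 8 * ps) * (4 - 2 * ps) = 64 - 40 * ps := by
      linear_combination 16 * hs
    rw [e2] at hcs
    have h6 : (64 - 40 * ps) < (5 - 4 * ps) * 11.9 := by linarith
    have h7 : 0 < 5 - 4 * ps := by linarith
    by_contra hcon
    push Not at hcon
    have := mul_le_mul_of_nonneg_left hcon h7.le
    linarith
  have hub : (p : ℝ) + (q : ℝ) * ps < 3.45 := by
    by_contra hcon
    push Not at hcon
    nlinarith
  have hlb : -3.45 < (p : ℝ) + (q : ℝ) * ps := by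
    by_contra hcon
    push Not at hcon
    nlinarith
  -- conclude
  suffices hl : 1 ≤ (p : ℝ) + (q : ℝ) * ph by
    rw [key]
    nlinarith
  by_contra hcon
  push Not at hcon
  have hX1 := X0_ub
  have hl0 : 0.69 < (p : ℝ) + (q : ℝ) * ph := by
    rw [key] at hy1
    by_contra h8
    push Not at h8
    nlinarith
  have hph1 := ph_lb
  have hph2 := ph_ub
  have hdiff : (q : ℝ) * (2 * ph - 1) = ((p : ℝ) + (q : ℝ) * ph) - ((p : ℝ) + (q : ℝ) * ps) := by
    unfold ps; ring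
  have hq1 : q < 2 := by
    by_contra h8
    push Not at h8
    have h9 : (2 : ℝ) ≤ q := by exact_mod_cast h8
    nlinarith
  have hq2 : -2 < q := by
    by_contra h8
    push Not at h8
    have h9 : (q : ℝ) ≤ -2 := by exact_mod_cast h8
    nlinarith
  have hq3 : q = -1 ∨ q = 0 ∨ q = 1 := by omega
  rcases hq3 with hq3 | hq3 | hq3
  · rw [hq3] at hcon hl0
    push_cast at hcon hl0
    have h8 : (p : ℝ) < 3 := by linarith
    have h9 : (2 : ℝ) < p := by linarith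
    have h8' : p < 3 := by exact_mod_cast h8
    have h9' : 2 < p := by exact_mod_cast h9
    omega
  · rw [hq3] at hcon hl0
    push_cast at hcon hl0
    have h8 : (p : ℝ) < 1 := by linarith
    have h9 : (0 : ℝ) < p := by linarith
    have h8' : p < 1 := by exact_mod_cast h8
    have h9' : 0 < p := by exact_mod_cast h9
    omega
  · rw [hq3] at hcon hl0
    push_cast at hcon hl0
    have h8 : (p : ℝ) < 0 := by linarith
    have h9 : (-1 : ℝ) < p := by linarith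
    have h8' : p < 0 := by exact_mod_cast h8
    have h9' : -1 < p := by exact_mod_cast h9
    omega

/-- the origin -/
def oo : Fin 4 → ℝ := ![1, 0, 0, 0]

lemma lower_bound : ∀ g ∈ Submonoid.closure gens,
    (1.428 : ℝ) ≤ -(oo ⬝ᵥ (Matrix.diagonal ![(-1 : ℝ), 1, 1, 1] *ᵥ (g *ᵥ v0))) := by
  intro g hg
  have h := good_time _ (good_closure g hg v0 good_v0)
  rw [bl_eq]
  have : bl oo (g *ᵥ v0) = -((g *ᵥ v0) 0) := by simp [bl, oo]
  rw [this]
  linarith [X0_lb]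

lemma oo_norm : oo ⬝ᵥ (Matrix.diagonal ![(-1 : ℝ), 1, 1, 1] *ᵥ oo) = -1 := by
  rw [bil_apply]; simp [oo]

lemma oo_pos : 0 < oo 0 := by simp [oo]

lemma v0_pos : 0 < v0 0 := by simpa [v0] using X0_pos

end

end Pool.Agent.Lib.MP_b3e290_gt
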